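import Pool.Agent.Helper53.PT.GoalsA

/-! # Packet PT-LAW (MP_705522_gt): the law `nu θ` -/

namespace Pool.Agent.Helper60.PT

open MeasureTheory Set Filter Topology
open Pool.Agent.Helper28.NO (mu ph Lf)
open Pool.Agent.Helper53.PT

/-- `mo θ j ≤ (2j-1)!!` -/
theorem mo_le (hM : GMO) {θ : ℝ} (h0 : 0 < θ) (h1 : θ < 1 / 2) (j : ℕ) :
    mo θ j ≤ ((2 * j).factorial : ℝ) / (2 ^ j * (j.factorial : ℝ)) := by
  obtain ⟨hA, hB, hC⟩ := hM
  obtain ⟨m0, m1, hpos⟩ := hA θ h0 (by linarith)
  obtain ⟨-, -, hpos'⟩ := hA (1 / 2) (by norm_num) (by norm_num)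
  induction j with
  | zero => rw [m0]; simp
  | succ j ih =>
    have h2 : mo θ (j + 1) ≤ (2 * j + 1) * mo θ j := by
      have h3 := hB θ (1 / 2) h0 h1.le le_rfl j
      rw [hC j, mul_div_assoc, div_self (hpos' j).ne', mul_one, div_le_iff₀ (hpos j)] at h3
      exact h3
    refine h2.trans ((mul_le_mul_of_nonneg_left ih (by positivity)).trans (le_of_eq ?_))
    have e1 : 2 * (j + 1) = 2 * j + 1 + 1 := by ring
    rw [e1, Nat.factorial_succ, Nat.factorial_succ, Nat.factorial_succ j, pow_succ]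
    push_cast
    have : (2 ^ j * (j.factorial : ℝ)) ≠ 0 := by positivity
    field_simp
    ring

/-- integral of a series -/
theorem gen {ν : Measure ℝ} {θ : ℝ} (H : ℝ → ℝ) (c : ℕ → ℝ) (i : ℕ) {x : ℝ} (hx : 0 ≤ x)
    (hH : ∀ w, HasSum (fun j => c j * w ^ (2 * j)) (H w))
    (hc : ∀ j, |c j| * mo θ (j + i) ≤ (1 / 2) ^ j / (j.factorial : ℝ))
    (hint : ∀ k : ℕ, Integrable (fun y : ℝ => y ^ k) ν) (hmo : ∀ j : ℕ, ∫ y, y ^ (2 * j) ∂ν = mo θ j)
    (d : ℕ → ℝ) (hd : ∀ j, d j = c j * mo θ (j + i)) :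
    ∑' j, d j * x ^ j = ∫ y, y ^ (2 * i) * H (√x * y) ∂ν := by
  set F : ℕ → ℝ → ℝ := fun j y => c j * x ^ j * y ^ (2 * (j + i)) with hF
  have hFi : ∀ j, Integrable (F j) ν := fun j => (hint _).const_mul _
  have hF1 : ∀ j, ∫ y, F j y ∂ν = d j * x ^ j := by
    intro j
    rw [hF, integral_const_mul, hmo, hd]
    ring
  have hF2 : ∀ j, ∫ y, ‖F j y‖ ∂ν = |c j| * mo θ (j + i) * x ^ j := by
    intro j
    have : ∀ y, ‖F j y‖ = |c j| * x ^ j * y ^ (2 * (j + i)) := by
      intro y
      rw [hF, Real.norm_eq_abs, abs_mul, abs_mul, abs_of_nonneg (pow_nonneg hx j),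
        abs_of_nonneg (Even.pow_nonneg ⟨j + i, by ring⟩ y)]
    simp_rw [this]
    rw [integral_const_mul, hmo]
    ring
  have hsum : Summable fun j => ∫ y, ‖F j y‖ ∂ν := by
    simp_rw [hF2]
    refine Summable.of_nonneg_of_le (fun j => ?_) (fun j => ?_)
      (Real.summable_pow_div_factorial (x / 2))
    · rw [← hF2 j]
      exact integral_nonneg fun y => norm_nonneg _
    · refine (mul_le_mul_of_nonneg_right (hc j) (pow_nonneg hx j)).trans (le_of_eq ?_)
      rw [div_pow, div_pow, one_pow]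
      ring
  have h1 := hasSum_integral_of_summable_integral_norm hFi hsum
  simp_rw [hF1] at h1
  rw [h1.tsum_eq]
  refine integral_congr_ae (ae_of_all _ fun y => ?_)
  have h2 := (hH (√x * y)).mul_left (y ^ (2 * i))
  have h3 : ∀ j, y ^ (2 * i) * (c j * (√x * y) ^ (2 * j)) = F j y := by
    intro j
    show _ = c j * x ^ j * y ^ (2 * (j + i))
    have : (√x) ^ (2 * j) = x ^ j := by rw [pow_mul, Real.sq_sqrt hx]
    rw [mul_pow, this]
    ring
  simp_rw [h3] at h2
  exact h2.tsum_eq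

/-- integrability of a series of nonnegative functions -/
theorem gen_nonneg {ν : Measure ℝ} (F : ℕ → ℝ → ℝ) (f : ℝ → ℝ) (hf : Continuous f)
    (hF0 : ∀ j y, 0 ≤ F j y) (hFi : ∀ j, Integrable (F j) ν)
    (hs : ∀ y, HasSum (fun j => F j y) (f y)) (hsum : Summable fun j => ∫ y, F j y ∂ν) :
    Integrable f ν ∧ ∫ y, f y ∂ν = ∑' j, ∫ y, F j y ∂ν := by
  have hn : ∀ j, ∫ y, ‖F j y‖ ∂ν = ∫ y, F j y ∂ν := fun j =>
    integral_congr_ae (ae_of_all _ fun y => by
      show ‖F j y‖ = F j y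
      rw [Real.norm_of_nonneg (hF0 j y)])
  have h1 := hasSum_integral_of_summable_integral_norm hFi (by simp_rw [hn]; exact hsum)
  have h2 : ∫ y, f y ∂ν = ∑' j, ∫ y, F j y ∂ν := by
    rw [h1.tsum_eq]
    exact integral_congr_ae (ae_of_all _ fun y => (hs y).tsum_eq.symm)
  refine ⟨⟨hf.aestronglyMeasurable, ?_⟩, h2⟩
  have hf0 : ∀ y, 0 ≤ f y := fun y => (hs y).nonneg fun j => hF0 j y
  rw [hasFiniteIntegral_iff_ofReal (ae_of_all _ hf0)]
  have h3 : ∀ y, ENNReal.ofReal (f y) = ∑' j, ENNReal.ofReal (F j y) := by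
    intro y
    rw [← ENNReal.ofReal_tsum_of_nonneg (fun j => hF0 j y) (hs y).summable, (hs y).tsum_eq]
  simp_rw [h3]
  rw [lintegral_tsum fun j => (hFi j).aestronglyMeasurable.aemeasurable.ennreal_ofReal]
  have h4 : ∀ j, ∫⁻ y, ENNReal.ofReal (F j y) ∂ν = ENNReal.ofReal (∫ y, F j y ∂ν) := fun j =>
    (ofReal_integral_eq_lintegral_ofReal (hFi j) (ae_of_all _ (hF0 j))).symm
  simp_rw [h4]
  rw [← ENNReal.ofReal_tsum_of_nonneg (fun j => integral_nonneg (hF0 j)) hsum]
  exact ENNReal.ofReal_lt_top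

theorem hasSum_sinc (w : ℝ) :
    HasSum (fun j : ℕ => (-1) ^ j / ((2 * j + 1).factorial : ℝ) * w ^ (2 * j)) (Real.sinc w) := by
  by_cases hw : w = 0
  · subst hw
    rw [Real.sinc_zero]
    have h := hasSum_single (f := fun j : ℕ => (-1) ^ j / ((2 * j + 1).factorial : ℝ) *
      (0 : ℝ) ^ (2 * j)) 0 (by
        intro j hj
        simp [hj])
    simpa using h
  · rw [Real.sinc_of_ne_zero hw]
    have h := (Real.hasSum_sin w).div_const w
    have e : (fun j : ℕ => (-1) ^ j / ((2 * j + 1).factorial : ℝ) * w ^ (2 * j)) =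
        fun j : ℕ => (-1) ^ j * w ^ (2 * j + 1) / ((2 * j + 1).factorial : ℝ) / w := by
      funext j
      rw [pow_succ]
      field_simp
    rw [e]
    exact h

theorem sg_pos {θ : ℝ} (h0 : 0 < θ) (h1 : θ < 1 / 2) : 0 < sg θ := by
  unfold sg
  exact Real.sqrt_pos.2 (mul_pos (Real.Gamma_pos_of_pos (by linarith))
    (Real.Gamma_pos_of_pos (by linarith)))

theorem nu_emb {θ : ℝ} (h0 : 0 < θ) (h1 : θ < 1 / 2) :
    MeasurableEmbedding (fun y : ℝ => y / sg θ) := by
  have h := (Homeomorph.mulRight₀ (sg θ)⁻¹ (inv_ne_zero (sg_pos h0 h1).ne')).measurableEmbedding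
  have e : (fun y : ℝ => y / sg θ) = ⇑(Homeomorph.mulRight₀ (sg θ)⁻¹
      (inv_ne_zero (sg_pos h0 h1).ne')) := by
    funext y
    rw [div_eq_mul_inv]
    rfl
  rw [e]
  exact h

theorem int_nu {θ : ℝ} (h0 : 0 < θ) (h1 : θ < 1 / 2) (f : ℝ → ℝ) :
    ∫ y, f y ∂(nu θ) = ∫ y, f (y / sg θ) ∂(mu (1 / θ)) :=
  (nu_emb h0 h1).integral_map f

theorem integrable_nu {θ : ℝ} (h0 : 0 < θ) (h1 : θ < 1 / 2) (f : ℝ → ℝ) :
    Integrable f (nu θ) ↔ Integrable (fun y => f (y / sg θ)) (mu (1 / θ)) :=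
  (nu_emb h0 h1).integrable_map_iff


theorem gLAW : GLAW := by
  intro hM hK hMom θ h0 h1
  have hq : 2 < 1 / θ := by
    rw [lt_div_iff₀ h0]
    linarith
  obtain ⟨hprob, hpos, hint1, hmean⟩ := Pool.Agent.Helper53.Pq.mu_basic hq
  have hσ := sg_pos h0 h1
  set a := Real.Gamma (1 - θ) with ha
  set b := Real.Gamma (1 + θ) with hb
  have ha0 : 0 < a := Real.Gamma_pos_of_pos (by linarith)
  have hb0 : 0 < b := Real.Gamma_pos_of_pos (by linarith)
  have hσ2 : sg θ ^ 2 = b * a := by
    unfold sg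
    exact Real.sq_sqrt (by positivity)
  have hnuprob : IsProbabilityMeasure (nu θ) :=
    Measure.isProbabilityMeasure_map (nu_emb h0 h1).measurable.aemeasurable
  have hposn : ∀ᵐ y ∂(nu θ), 0 < y := by
    unfold nu
    refine (ae_map_iff (nu_emb h0 h1).measurable.aemeasurable
      (measurableSet_Ioi : MeasurableSet {y : ℝ | 0 < y})).2 ?_
    filter_upwards [hpos] with z hz
    exact div_pos hz hσ
  have hint : ∀ k : ℕ, Integrable (fun y : ℝ => y ^ k) (nu θ) := by
    intro k
    rw [integrable_nu h0 h1]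
    rcases Nat.eq_zero_or_pos k with hk | hk
    · subst hk
      have h2 : (fun y : ℝ => (y / sg θ) ^ 0) = fun _ => (1 : ℝ) := funext fun y => pow_zero _
      rw [h2]
      exact integrable_const _
    · have h2 := (hMom θ h0 h1 k hk).1
      simp_rw [div_pow]
      exact h2.div_const _
  obtain ⟨hA, hB, hC⟩ := hM
  obtain ⟨m0, m1, mpos⟩ := hA θ h0 (by linarith)
  have hmom : ∀ k : ℕ, 1 ≤ k → ∫ y, y ^ k ∂(nu θ) =
      Real.Gamma (1 + ((k : ℝ) - 1) * θ) * a ^ (k - 1) / sg θ ^ k := by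
    intro k hk
    rw [int_nu h0 h1]
    simp_rw [div_pow]
    rw [integral_div, (hMom θ h0 h1 k hk).2]
  have hmo : ∀ j : ℕ, ∫ y, y ^ (2 * j) ∂(nu θ) = mo θ j := by
    intro j
    rcases Nat.eq_zero_or_pos j with hj | hj
    · subst hj
      rw [m0]
      simp
    · rw [hmom (2 * j) (by omega)]
      unfold mo
      rw [← ha, ← hb, pow_mul, hσ2, div_pow, mul_pow]
      obtain ⟨i, rfl⟩ : ∃ i, j = i + 1 := ⟨j - 1, by omega⟩
      have e1 : 2 * (i + 1) - 1 = i + (i + 1) := by omega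
      rw [e1, pow_add a i (i + 1)]
      push_cast
      have e2 : a ^ (i + 1) = a ^ i * a := pow_succ _ _
      rw [e2]
      field_simp
  have hm3 : ∫ y, y ^ 3 ∂(nu θ) = m3 θ := by
    rw [hmom 3 (by norm_num)]
    unfold m3
    rw [← ha, ← hb]
    have e1 : (1 : ℝ) + (((3 : ℕ) : ℝ) - 1) * θ = 1 + 2 * θ := by push_cast; ring
    rw [e1]
    have e2 : (a / b) ^ (3 / 2 : ℝ) = a / b * √(a / b) := by
      rw [Real.sqrt_eq_rpow, ← Real.rpow_one_add' (by positivity) (by norm_num)]
      norm_num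
    have e3 : sg θ ^ 3 = b * a * √(b * a) := by
      rw [pow_succ, hσ2]
      rfl
    rw [e2, e3]
    have e4 : √(a / b) = √(b * a) / b := by
      rw [show a / b = b * a / b ^ 2 by field_simp, Real.sqrt_div (by positivity),
        Real.sqrt_sq hb0.le]
    rw [e4]
    have hs : √(b * a) ≠ 0 := (Real.sqrt_pos.2 (by positivity)).ne'
    have hs2 : √(b * a) * √(b * a) = b * a := Real.mul_self_sqrt (by positivity)
    have e5 : (3 - 1 : ℕ) = 2 := rfl
    rw [e5]
    rw [div_eq_iff (by positivity)]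
    have : Real.Gamma (1 + 2 * θ) / a * (a / b * (√(b * a) / b)) * (b * a * √(b * a)) =
        Real.Gamma (1 + 2 * θ) / a * (a / b) / b * (b * a) * (√(b * a) * √(b * a)) := by ring
    rw [this, hs2]
    field_simp
  have hle := fun j => mo_le ⟨hA, hB, hC⟩ h0 h1 j
  have hser : ∀ x, 0 ≤ x → f0 θ x = ∫ y, Real.cos (√x * y) ∂(nu θ) ∧
      f1 θ x = ∫ y, y ^ 2 * Real.sinc (√x * y) ∂(nu θ) ∧
      f2 θ x = ∫ y, y ^ 4 * k2 (√x * y) ∂(nu θ) ∧ f3 θ x = ∫ y, y ^ 6 * k3 (√x * y) ∂(nu θ) := by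
    intro x hx
    refine ⟨?_, ?_, ?_, ?_⟩
    · have h := gen (ν := nu θ) (θ := θ) Real.cos (fun j => (-1) ^ j / ((2 * j).factorial : ℝ)) 0 hx
        (fun w => by
          have := Real.hasSum_cos w
          convert this using 2 with j
          ring)
        (fun j => by
          rw [abs_div, abs_pow, abs_neg, abs_one, one_pow, Nat.abs_cast, add_zero]
          refine (mul_le_mul_of_nonneg_left (hle j) (by positivity)).trans (le_of_eq ?_)
          rw [div_pow, one_pow]
          field_simp)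
        hint hmo (fun j => (-1) ^ j * (mo θ j / ((2 * j).factorial : ℝ)))
        (fun j => by rw [add_zero]; ring)
      unfold f0
      rw [h]
      simp
    · have h := gen (ν := nu θ) (θ := θ) Real.sinc
        (fun j => (-1) ^ j / ((2 * j + 1).factorial : ℝ)) 1 hx hasSum_sinc
        (fun j => by
          rw [abs_div, abs_pow, abs_neg, abs_one, one_pow, Nat.abs_cast]
          refine (mul_le_mul_of_nonneg_left (hle (j + 1)) (by positivity)).trans (le_of_eq ?_)
          have e1 : 2 * (j + 1) = 2 * j + 1 + 1 := by ring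
          rw [e1, Nat.factorial_succ (2 * j + 1), Nat.factorial_succ j, div_pow, one_pow, pow_succ]
          push_cast
          have : ((2 * j + 1).factorial : ℝ) ≠ 0 := by positivity
          have : (j.factorial : ℝ) ≠ 0 := by positivity
          field_simp
          ring)
        hint hmo (fun j => (-1) ^ j * (mo θ (j + 1) / ((2 * j + 1).factorial : ℝ)))
        (fun j => by ring)
      unfold f1
      rw [h]
    · have h := gen (ν := nu θ) (θ := θ) k2
        (fun j => (-1) ^ (j + 1) * ((j : ℝ) + 1) / ((2 * j + 3).factorial : ℝ)) 2 hx hK.1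
        (fun j => by
          rw [abs_div, abs_mul, abs_pow, abs_neg, abs_one, one_pow, Nat.abs_cast,
            abs_of_nonneg (by positivity : (0 : ℝ) ≤ (j : ℝ) + 1)]
          refine (mul_le_mul_of_nonneg_left (hle (j + 2)) (by positivity)).trans ?_
          have e1 : 2 * (j + 2) = 2 * j + 3 + 1 := by ring
          rw [e1, Nat.factorial_succ (2 * j + 3), Nat.factorial_succ (j + 1), Nat.factorial_succ j,
            div_pow, one_pow, pow_succ, pow_succ]
          push_cast
          have h3 : ((2 * j + 3).factorial : ℝ) ≠ 0 := by positivity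
          have h4 : (j.factorial : ℝ) ≠ 0 := by positivity
          have e2 : 1 * ((j : ℝ) + 1) / ((2 * j + 3).factorial : ℝ) *
              ((2 * (j : ℝ) + 3 + 1) * ((2 * j + 3).factorial : ℝ) /
                (2 ^ j * 2 * 2 * (((j : ℝ) + 1 + 1) * (((j : ℝ) + 1) * (j.factorial : ℝ))))) =
              1 / 2 * (1 / 2 ^ j / (j.factorial : ℝ)) := by
            field_simp
            ring
          rw [e2]
          have : 0 ≤ 1 / 2 ^ j / (j.factorial : ℝ) := by positivity
          linarith)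
        hint hmo (fun j => (-1) ^ (j + 1) * (((j : ℝ) + 1) * mo θ (j + 2) /
          ((2 * j + 3).factorial : ℝ)))
        (fun j => by ring)
      unfold f2
      rw [h]
    · have h := gen (ν := nu θ) (θ := θ) k3
        (fun j => (-1) ^ j * (((j : ℝ) + 1) * (j + 2)) / ((2 * j + 5).factorial : ℝ)) 3 hx hK.2.1
        (fun j => by
          rw [abs_div, abs_mul, abs_pow, abs_neg, abs_one, one_pow, Nat.abs_cast,
            abs_of_nonneg (by positivity : (0 : ℝ) ≤ ((j : ℝ) + 1) * (j + 2))]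
          refine (mul_le_mul_of_nonneg_left (hle (j + 3)) (by positivity)).trans ?_
          have e1 : 2 * (j + 3) = 2 * j + 5 + 1 := by ring
          rw [e1, Nat.factorial_succ (2 * j + 5), Nat.factorial_succ (j + 2),
            Nat.factorial_succ (j + 1), Nat.factorial_succ j,
            div_pow, one_pow, pow_succ, pow_succ, pow_succ]
          push_cast
          have h3 : ((2 * j + 5).factorial : ℝ) ≠ 0 := by positivity
          have h4 : (j.factorial : ℝ) ≠ 0 := by positivity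
          have e2 : 1 * (((j : ℝ) + 1) * (j + 2)) / ((2 * j + 5).factorial : ℝ) *
              ((2 * (j : ℝ) + 5 + 1) * ((2 * j + 5).factorial : ℝ) /
                (2 ^ j * 2 * 2 * 2 * (((j : ℝ) + 2 + 1) * (((j : ℝ) + 1 + 1) *
                  (((j : ℝ) + 1) * (j.factorial : ℝ)))))) =
              1 / 4 * (1 / 2 ^ j / (j.factorial : ℝ)) := by
            field_simp
            ring
          rw [e2]
          have : 0 ≤ 1 / 2 ^ j / (j.factorial : ℝ) := by positivity
          linarith)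
        hint hmo (fun j => (-1) ^ j * (((j : ℝ) + 1) * ((j : ℝ) + 2) * mo θ (j + 3) /
          ((2 * j + 5).factorial : ℝ)))
        (fun j => by ring)
      unfold f3
      rw [h]
  refine ⟨hnuprob, hposn, hint, hmo, hm3, ?_, ?_⟩
  · intro x hx
    obtain ⟨g0, g1, g2, g3⟩ := hser x hx
    refine ⟨g0, g1, g2, g3, ?_⟩
    rw [g0, int_nu h0 h1]
    unfold ph
    refine integral_congr_ae (ae_of_all _ fun y => ?_)
    show Real.cos (√x * (y / sg θ)) = Real.cos (√x / sg θ * y)
    congr 1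
    ring
  · intro l
    have hF : ∀ j : ℕ, ∫ y, (l * y) ^ (2 * j) / ((2 * j).factorial : ℝ) ∂(nu θ) =
        l ^ (2 * j) * mo θ j / ((2 * j).factorial : ℝ) := by
      intro j
      simp_rw [mul_pow]
      rw [integral_div, integral_const_mul, hmo]
    have hFle : ∀ j : ℕ, l ^ (2 * j) * mo θ j / ((2 * j).factorial : ℝ) ≤
        (l ^ 2 / 2) ^ j / (j.factorial : ℝ) := by
      intro j
      have h2 : 0 ≤ l ^ (2 * j) := Even.pow_nonneg ⟨j, by ring⟩ l
      have h3 := mul_le_mul_of_nonneg_left (hle j) h2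
      refine (div_le_div_of_nonneg_right h3 (by positivity)).trans (le_of_eq ?_)
      rw [div_pow, ← pow_mul]
      field_simp
    have hF0 : ∀ j : ℕ, 0 ≤ l ^ (2 * j) * mo θ j / ((2 * j).factorial : ℝ) := by
      intro j
      have h2 : 0 ≤ l ^ (2 * j) := Even.pow_nonneg ⟨j, by ring⟩ l
      have := mpos j
      positivity
    have hsumF : Summable fun j : ℕ => l ^ (2 * j) * mo θ j / ((2 * j).factorial : ℝ) :=
      Summable.of_nonneg_of_le hF0 hFle (Real.summable_pow_div_factorial _)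
    obtain ⟨i1, i2⟩ := gen_nonneg (ν := nu θ)
      (fun j y => (l * y) ^ (2 * j) / ((2 * j).factorial : ℝ)) (fun y => Real.cosh (l * y))
      (by fun_prop)
      (fun j y => div_nonneg (Even.pow_nonneg ⟨j, by ring⟩ _) (by positivity))
      (fun j => by
        simp_rw [mul_pow]
        exact ((hint _).const_mul _).div_const _)
      (fun y => Real.hasSum_cosh (l * y))
      (by simp_rw [hF]; exact hsumF)
    refine ⟨i1, ?_⟩
    rw [i2]
    simp_rw [hF]
    rw [Real.exp_eq_exp_ℝ, NormedSpace.exp_eq_tsum_div]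
    exact hsumF.tsum_le_tsum hFle (Real.summable_pow_div_factorial _)

end Pool.Agent.Helper60.PT
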