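import Pool.Agent.Helper53.PT.GoalsD
import Pool.Agent.Helper53.PT.B
import Pool.Agent.Helper53.PT.A

/-!
# MP_705522_gt, `q ∈ (2,4)`: the pair test (packet POKS)
-/

namespace Pool.Agent.Helper60.PT

open Pool.Agent.Helper53.PT
open Pool.Agent.Helper53.PT (N.Tab)

/-! ### the code -/

theorem frc_eq {α : Type} (n : ℕ) (f : ℕ → α) : N.frc n f = f n := by
  cases n <;> rfl

theorem frc_elim {n : ℕ} {f : ℕ → Bool} (h : N.frc n f = true) : ∃ x, x = n ∧ f x = true :=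
  ⟨n, rfl, by rwa [frc_eq] at h⟩

theorem mx_eq (a b : ℕ) : N.mx a b = max a b := by
  unfold N.mx
  cases h : Nat.ble a b
  · have : ¬ a ≤ b := fun hh => by rw [Nat.ble_eq_true_of_le hh] at h; exact Bool.noConfusion h
    simp only [cond_false]
    exact (max_eq_left (by omega)).symm
  · simp only [cond_true]
    exact (max_eq_right (Nat.le_of_ble_eq_true h)).symm

theorem cond_elim {a b : Bool} (h : cond a b false = true) : a = true ∧ b = true := by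
  cases a
  · exact Bool.noConfusion h
  · exact ⟨rfl, h⟩

theorem ble_elim {a b : ℕ} (h : Nat.ble a b = true) : a ≤ b := Nat.le_of_ble_eq_true h

/-! ### rounding -/

theorem shr_le (n s : ℕ) : ((Nat.shiftRight n s : ℕ) : ℝ) * 2 ^ s ≤ n := by
  have h : Nat.shiftRight n s * 2 ^ s ≤ n := by
    have e : Nat.shiftRight n s = n / 2 ^ s := Nat.shiftRight_eq_div_pow n s
    rw [e]; exact Nat.div_mul_le_self _ _
  exact_mod_cast h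

theorem lt_shr (n s : ℕ) : (n : ℝ) < (((Nat.shiftRight n s : ℕ) : ℝ) + 1) * 2 ^ s := by
  have h : n < (Nat.shiftRight n s + 1) * 2 ^ s := by
    have e : Nat.shiftRight n s = n / 2 ^ s := Nat.shiftRight_eq_div_pow n s
    rw [e]
    have := Nat.lt_div_mul_add (a := n) (b := 2 ^ s) (by positivity)
    linarith
  exact_mod_cast h

theorem shl_eq (n s : ℕ) : ((Nat.shiftLeft n s : ℕ) : ℝ) = n * 2 ^ s := by
  have e : Nat.shiftLeft n s = n * 2 ^ s := Nat.shiftLeft_eq n s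
  rw [e]; push_cast; ring

theorem div_le (n d : ℕ) : ((Nat.div n d : ℕ) : ℝ) * d ≤ n := by
  have h : Nat.div n d * d ≤ n := Nat.div_mul_le_self n d
  exact_mod_cast h

theorem lt_div (n d : ℕ) (hd : 0 < d) : (n : ℝ) < (((Nat.div n d : ℕ) : ℝ) + 1) * d := by
  have h : n < (Nat.div n d + 1) * d := by
    have := Nat.lt_div_mul_add (a := n) (b := d) hd
    have e : Nat.div n d = n / d := rfl
    rw [e]; linarith
  exact_mod_cast h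

theorem mul_cast (a b : ℕ) : ((Nat.mul a b : ℕ) : ℝ) = a * b := Nat.cast_mul a b
theorem add_cast (a b : ℕ) : ((Nat.add a b : ℕ) : ℝ) = a + b := Nat.cast_add a b
theorem succ_cast (a : ℕ) : ((Nat.succ a : ℕ) : ℝ) = a + 1 := Nat.cast_succ a
theorem sub_ge (a b : ℕ) : (a : ℝ) - b ≤ ((Nat.sub a b : ℕ) : ℝ) := by
  have h : a ≤ Nat.sub a b + b := by
    have e : Nat.sub a b = a - b := rfl
    omega
  have h' : (a : ℝ) ≤ ((Nat.sub a b : ℕ) : ℝ) + b := by exact_mod_cast h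
  linarith
theorem sub_eq {a b : ℕ} (h : b ≤ a) : ((Nat.sub a b : ℕ) : ℝ) = a - b := Nat.cast_sub h

/-! ### elimination of the test -/

theorem pOK_elim {D : N.Tab} {a1 a2 e0 : ℕ} (h : N.pOK D a1 a2 e0 = true) :
    ∃ cm c2 x1 x2 X2 X1 v2 w2 Pm J1 x3 X3 P3 J3 x5 x6 st J U : ℕ,
      cm = Nat.sub N.oneA (Nat.add a2 e0) ∧ c2 = Nat.sub N.oneA a1 ∧
      x1 = N.sqL (Nat.div (Nat.shiftLeft (N.zL D) 52) a2) ∧
      x2 = N.sqU (Nat.succ (Nat.div (Nat.shiftLeft (N.zR D) 52) cm)) ∧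
      X2 = Nat.succ (Nat.shiftRight (Nat.mul x2 x2) 26) ∧
      X1 = Nat.shiftRight (Nat.mul x1 x1) 26 ∧
      v2 = Nat.succ (Nat.shiftRight (Nat.mul e0 X2) 26) ∧
      w2 = Nat.div (Nat.shiftLeft (Nat.sub N.one (N.expUp (Nat.shiftLeft (Nat.sub v2 2) 13))) 26) v2 ∧
      Pm = Nat.succ (Nat.shiftRight (Nat.mul (N.fst D (Nat.shiftRight (Nat.mul a1 X1) 26)
        (Nat.succ (Nat.shiftRight (Nat.mul a2 X2) 26))) (N.pos0 D (Nat.shiftRight (Nat.mul cm X1) 26))) 40) ∧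
      J1 = Nat.succ (Nat.shiftRight (Nat.mul (Nat.mul (Nat.sub 549755813888 w2) (Nat.sub x2 x1)) Pm) 66) ∧
      x3 = N.sqL (Nat.div (Nat.shiftLeft (N.zL D) 52) e0) ∧
      X3 = Nat.shiftRight (Nat.mul x3 x3) 26 ∧
      P3 = Nat.succ (Nat.shiftRight (Nat.mul (N.uu D (Nat.shiftRight (Nat.mul a1 X3) 26))
        (N.uu D (Nat.shiftRight (Nat.mul cm X3) 26))) 40) ∧
      J3 = Nat.succ (Nat.div (Nat.shiftLeft (Nat.mul (N.mM D) P3) 12) (Nat.mul e0 x3)) ∧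
      x5 = N.mx x2 (N.sqL (Nat.div (Nat.shiftLeft (N.xgN D.I.kN) 52) a2)) ∧
      x6 = N.mx x5 (N.sqU (Nat.succ (Nat.div 19342813113834066795298816 cm))) ∧
      st = Nat.succ (Nat.shiftRight (Nat.sub x6 x5) 2) ∧
      J = cond D.B.ni J3 (Nat.add (cond (Nat.ble x5 x3) 0 J3)
        (Nat.shiftRight (Nat.add 2 (Nat.add (Nat.add (N.pPiece D a1 cm x5 st) (N.pPiece D a1 cm (Nat.add x5 st) st))
          (Nat.add (Nat.add (N.pPiece D a1 cm (Nat.add x5 (Nat.mul 2 st)) st)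
            (N.pPiece D a1 cm (Nat.add x5 (Nat.mul 3 st)) st))
          (Nat.succ (Nat.div (Nat.mul 8 (Nat.succ (Nat.shiftRight (Nat.mul (Nat.mul D.B.c0 D.B.c0) (Nat.add x6 4)) 66)))
            (Nat.sub D.B.gn 8)))))) 1)) ∧
      U = cond D.B.ni 0 (Nat.succ (Nat.div (Nat.succ (Nat.shiftRight (Nat.mul (N.uu D (Nat.mul 256 a1))
        (N.uu D (Nat.mul 256 cm))) 13)) (Nat.mul 31 e0))) ∧
      Nat.shiftRight (Nat.mul a2 X2) 26 ≤ Nat.sub (N.xgN D.I.kN) 2 ∧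
      Nat.mul e0 1000 ≤ Nat.mul 102 N.oneA ∧ e0 ≤ a1 ∧ N.zR D ≤ Nat.mul 256 cm ∧ 1 ≤ cm ∧ 1 ≤ x1 ∧ 1 ≤ x3 ∧
      Nat.shiftLeft (Nat.add (N.v2u D) 2) 40 ≤
        Nat.mul (Nat.sub (Nat.add 274877906944 (N.pSum D a1 a2 cm c2 e0)) (Nat.add N.one (Nat.add J1 (Nat.add J
          (Nat.add U (Nat.succ (Nat.div 36893500637184 e0)))))))
        (Nat.add N.one (N.sqL (Nat.shiftLeft (Nat.sub N.oneA e0) 54))) := by
  unfold N.pOK at h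
  obtain ⟨cm, hcm, h⟩ := frc_elim h
  obtain ⟨c2, hc2, h⟩ := frc_elim h
  obtain ⟨x1, hx1, h⟩ := frc_elim h
  obtain ⟨x2, hx2, h⟩ := frc_elim h
  obtain ⟨X2, hX2, h⟩ := frc_elim h
  obtain ⟨X1, hX1, h⟩ := frc_elim h
  obtain ⟨v2, hv2, h⟩ := frc_elim h
  obtain ⟨w2, hw2, h⟩ := frc_elim h
  obtain ⟨Pm, hPm, h⟩ := frc_elim h
  obtain ⟨J1, hJ1, h⟩ := frc_elim h
  obtain ⟨x3, hx3, h⟩ := frc_elim h
  obtain ⟨X3, hX3, h⟩ := frc_elim h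
  obtain ⟨P3, hP3, h⟩ := frc_elim h
  obtain ⟨J3, hJ3, h⟩ := frc_elim h
  obtain ⟨x5, hx5, h⟩ := frc_elim h
  obtain ⟨x6, hx6, h⟩ := frc_elim h
  obtain ⟨st, hst, h⟩ := frc_elim h
  obtain ⟨J, hJ, h⟩ := frc_elim h
  obtain ⟨U, hU, h⟩ := frc_elim h
  obtain ⟨g, hfin⟩ := cond_elim h
  obtain ⟨g1, g⟩ := cond_elim g
  obtain ⟨g2, g⟩ := cond_elim g
  obtain ⟨g3, g⟩ := cond_elim g
  obtain ⟨g4, g⟩ := cond_elim g
  obtain ⟨g5, g⟩ := cond_elim g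
  obtain ⟨g6, g7⟩ := cond_elim g
  exact ⟨cm, c2, x1, x2, X2, X1, v2, w2, Pm, J1, x3, X3, P3, J3, x5, x6, st, J, U, hcm, hc2, hx1, hx2, hX2, hX1,
    hv2, hw2, hPm, hJ1, hx3, hX3, hP3, hJ3, hx5, hx6, hst, hJ, hU, ble_elim g1, ble_elim g2, ble_elim g3,
    ble_elim g4, ble_elim g5, ble_elim g6, ble_elim g7, ble_elim hfin⟩

/-! ### arguments -/

theorem aR_nonneg (x : ℕ) : 0 ≤ aR x := by unfold aR; positivity
theorem vR_nonneg (x : ℕ) : 0 ≤ vR x := by unfold vR; positivity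

theorem sqL_sq (h : GSQ) (y : ℕ) : ((N.sqL y : ℕ) : ℝ) ^ 2 ≤ y := by
  have h1 := (h y).2.1
  calc ((N.sqL y : ℕ) : ℝ) ^ 2 ≤ (√(y : ℝ)) ^ 2 := by gcongr
    _ = (y : ℝ) := Real.sq_sqrt (Nat.cast_nonneg y)

theorem sqU_sq (h : GSQ) (y : ℕ) : (y : ℝ) ≤ ((N.sqU y : ℕ) : ℝ) ^ 2 := by
  have h1 := (h y).1
  calc (y : ℝ) = (√(y : ℝ)) ^ 2 := (Real.sq_sqrt (Nat.cast_nonneg y)).symm
    _ ≤ _ := by gcongr

theorem arg_lo {a X xi : ℕ} {a' ξ : ℝ} (hX : (X : ℝ) * 2 ^ 26 ≤ (xi : ℝ) ^ 2) (ha : aR a ≤ a')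
    (hξ : (xi : ℝ) / 2 ^ 26 ≤ ξ) : aR (Nat.shiftRight (Nat.mul a X) 26) ≤ a' * ξ ^ 2 := by
  have h1 := shr_le (Nat.mul a X) 26
  rw [mul_cast] at h1
  have h0 : 0 ≤ a' := (aR_nonneg a).trans ha
  unfold aR at ha ⊢
  have h2 : (a : ℝ) / 2 ^ 26 * ((xi : ℝ) / 2 ^ 26) ^ 2 ≤ a' * ξ ^ 2 := by gcongr
  refine le_trans ?_ h2
  have h3 : (a : ℝ) * (X * 2 ^ 26) ≤ a * (xi : ℝ) ^ 2 := by gcongr
  have h4 : ((Nat.shiftRight (Nat.mul a X) 26 : ℕ) : ℝ) * 2 ^ 52 ≤ a * (xi : ℝ) ^ 2 := by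
    refine le_trans ?_ h3
    have h5 : ((Nat.shiftRight (Nat.mul a X) 26 : ℕ) : ℝ) * 2 ^ 26 * 2 ^ 26 ≤ (a : ℝ) * X * 2 ^ 26 := by gcongr
    calc ((Nat.shiftRight (Nat.mul a X) 26 : ℕ) : ℝ) * 2 ^ 52
        = ((Nat.shiftRight (Nat.mul a X) 26 : ℕ) : ℝ) * 2 ^ 26 * 2 ^ 26 := by ring
      _ ≤ _ := h5
      _ = _ := by ring
  calc ((Nat.shiftRight (Nat.mul a X) 26 : ℕ) : ℝ) / 2 ^ 26
      = ((Nat.shiftRight (Nat.mul a X) 26 : ℕ) : ℝ) * 2 ^ 52 / 2 ^ 78 := by ring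
    _ ≤ a * (xi : ℝ) ^ 2 / 2 ^ 78 := by gcongr
    _ = _ := by ring

theorem arg_hi {a X xi : ℕ} {a' ξ : ℝ} (hX : (xi : ℝ) ^ 2 ≤ (X : ℝ) * 2 ^ 26) (ha : a' ≤ aR a)
    (hξ : ξ ≤ (xi : ℝ) / 2 ^ 26) (hξ0 : 0 ≤ ξ) :
    a' * ξ ^ 2 < aR (Nat.succ (Nat.shiftRight (Nat.mul a X) 26)) := by
  have h1 := lt_shr (Nat.mul a X) 26
  rw [mul_cast] at h1
  unfold aR at ha ⊢
  rw [succ_cast]
  have h2 : a' * ξ ^ 2 ≤ (a : ℝ) / 2 ^ 26 * ((xi : ℝ) / 2 ^ 26) ^ 2 := by gcongr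
  refine lt_of_le_of_lt h2 ?_
  have h3 : (a : ℝ) * (xi : ℝ) ^ 2 ≤ a * (X * 2 ^ 26) := by gcongr
  have h4 : (a : ℝ) * (xi : ℝ) ^ 2 < (((Nat.shiftRight (Nat.mul a X) 26 : ℕ) : ℝ) + 1) * 2 ^ 52 := by
    refine lt_of_le_of_lt h3 ?_
    have h5 : (a : ℝ) * X * 2 ^ 26 < (((Nat.shiftRight (Nat.mul a X) 26 : ℕ) : ℝ) + 1) * 2 ^ 26 * 2 ^ 26 := by
      gcongr
    calc (a : ℝ) * (X * 2 ^ 26) = (a : ℝ) * X * 2 ^ 26 := by ring
      _ < _ := h5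
      _ = _ := by ring
  calc (a : ℝ) / 2 ^ 26 * ((xi : ℝ) / 2 ^ 26) ^ 2 = a * (xi : ℝ) ^ 2 / 2 ^ 78 := by ring
    _ < (((Nat.shiftRight (Nat.mul a X) 26 : ℕ) : ℝ) + 1) * 2 ^ 52 / 2 ^ 78 := by gcongr
    _ = _ := by ring

/-- `ξ = sqL (y 2^52 / a)/2^26` satisfies `a ξ² ≤ y`. -/
theorem rt_lo (h : GSQ) (y a : ℕ) :
    aR a * (((N.sqL (Nat.div (Nat.shiftLeft y 52) a) : ℕ) : ℝ) / 2 ^ 26) ^ 2 ≤ aR y := by
  have h1 := sqL_sq h (Nat.div (Nat.shiftLeft y 52) a)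
  have h2 := div_le (Nat.shiftLeft y 52) a
  rw [shl_eq] at h2
  have h3 : ((N.sqL (Nat.div (Nat.shiftLeft y 52) a) : ℕ) : ℝ) ^ 2 * a ≤ y * 2 ^ 52 := by
    refine le_trans ?_ h2
    gcongr
  unfold aR
  calc (a : ℝ) / 2 ^ 26 * (((N.sqL (Nat.div (Nat.shiftLeft y 52) a) : ℕ) : ℝ) / 2 ^ 26) ^ 2
      = ((N.sqL (Nat.div (Nat.shiftLeft y 52) a) : ℕ) : ℝ) ^ 2 * a / 2 ^ 78 := by ring
    _ ≤ (y : ℝ) * 2 ^ 52 / 2 ^ 78 := by gcongr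
    _ = _ := by ring

/-- `ξ = sqU (succ (w/a))/2^26` satisfies `a ξ² ≥ w/2^78`. -/
theorem rt_hi (h : GSQ) (w a : ℕ) (ha : 0 < a) :
    (w : ℝ) / 2 ^ 78 ≤ aR a * (((N.sqU (Nat.succ (Nat.div w a)) : ℕ) : ℝ) / 2 ^ 26) ^ 2 := by
  have h1 := sqU_sq h (Nat.succ (Nat.div w a))
  have h2 := (lt_div w a ha).le
  rw [← succ_cast] at h2
  have h3 : (w : ℝ) ≤ ((N.sqU (Nat.succ (Nat.div w a)) : ℕ) : ℝ) ^ 2 * a := by
    refine le_trans h2 ?_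
    gcongr
  unfold aR
  calc (w : ℝ) / 2 ^ 78 ≤ ((N.sqU (Nat.succ (Nat.div w a)) : ℕ) : ℝ) ^ 2 * a / 2 ^ 78 := by gcongr
    _ = _ := by ring

theorem zL_eq (D : N.Tab) : aR (N.zL D) = xR D.I.kz := rfl
theorem zR_eq (D : N.Tab) : aR (N.zR D) = xR D.I.kR := rfl

theorem xgN_ge {k : ℕ} (hk : 1 ≤ k) : 2 ≤ N.xgN k := by
  unfold N.xgN
  cases h1 : Nat.ble k 255
  · simp only [cond_false]
    cases h2 : Nat.ble k 735
    · simp only [cond_false]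
      cases h3 : Nat.ble k 991
      · simp only [cond_false]
        exact le_trans (by norm_num) (Nat.le_add_right 1610612736 _)
      · simp only [cond_true]
        exact le_trans (by norm_num) (Nat.le_add_right 536870912 _)
    · simp only [cond_true]
      exact le_trans (by norm_num) (Nat.le_add_right 33554432 _)
  · simp only [cond_true]
    have e : Nat.shiftLeft k 17 = k * 2 ^ 17 := Nat.shiftLeft_eq k 17
    rw [e]; omega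

/-! ### products of two values -/

/-- `u v >> 40` -/
theorem prod_le {u v : ℕ} {x y : ℝ} (hx : |x| ≤ vR u) (hy : |y| ≤ vR v) :
    |x * y| ≤ vR (Nat.succ (Nat.shiftRight (Nat.mul u v) 40)) := by
  have h1 := (lt_shr (Nat.mul u v) 40).le
  rw [mul_cast] at h1
  rw [abs_mul]
  have h2 : |x| * |y| ≤ vR u * vR v := mul_le_mul hx hy (abs_nonneg _) (vR_nonneg _)
  refine h2.trans ?_
  unfold vR
  rw [succ_cast]
  calc (u : ℝ) / 2 ^ 40 * (v / 2 ^ 40) = u * v / 2 ^ 80 := by ring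
    _ ≤ (((Nat.shiftRight (Nat.mul u v) 40 : ℕ) : ℝ) + 1) * 2 ^ 40 / 2 ^ 80 := by gcongr
    _ = _ := by ring

/-! ### the numbers of the test -/

theorem w2_le (hE : GEXP) {e0 X2 x2 v2 w2 : ℕ} (he0 : e0 ≤ N.oneA)
    (hX2 : X2 = Nat.succ (Nat.shiftRight (Nat.mul x2 x2) 26))
    (hv2 : v2 = Nat.succ (Nat.shiftRight (Nat.mul e0 X2) 26))
    (hw2 : w2 = Nat.div (Nat.shiftLeft (Nat.sub N.one (N.expUp (Nat.shiftLeft (Nat.sub v2 2) 13))) 26) v2) :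
    vR w2 * (aR e0 * ((x2 : ℝ) / 2 ^ 26) ^ 2) ≤ 1 - Real.exp (-(aR e0 * ((x2 : ℝ) / 2 ^ 26) ^ 2) / 2) := by
  set s : ℝ := aR e0 * ((x2 : ℝ) / 2 ^ 26) ^ 2 with hs
  have hs0 : 0 ≤ s := by rw [hs]; exact mul_nonneg (aR_nonneg _) (by positivity)
  have hsE : s = (e0 : ℝ) * (x2 : ℝ) ^ 2 / 2 ^ 78 := by rw [hs]; unfold aR; ring
  -- bounds of X2
  have e0n : (0 : ℝ) ≤ e0 := Nat.cast_nonneg _
  have he0' : (e0 : ℝ) ≤ 2 ^ 26 := by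
    have : (e0 : ℝ) ≤ (N.oneA : ℝ) := by exact_mod_cast he0
    refine this.trans ?_
    unfold N.oneA; norm_num
  have b12 : (x2 : ℝ) ^ 2 ≤ X2 * 2 ^ 26 ∧ (X2 : ℝ) * 2 ^ 26 ≤ (x2 : ℝ) ^ 2 + 2 ^ 26 := by
    have a1 := (lt_shr (Nat.mul x2 x2) 26).le
    have a2 := shr_le (Nat.mul x2 x2) 26
    rw [mul_cast] at a1 a2
    rw [hX2, succ_cast, add_mul, one_mul, sq]
    exact ⟨by rw [add_mul, one_mul] at a1; exact a1, add_le_add_left a2 _⟩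
  have c12 : (e0 : ℝ) * X2 ≤ v2 * 2 ^ 26 ∧ (v2 : ℝ) * 2 ^ 26 ≤ e0 * X2 + 2 ^ 26 := by
    have a1 := (lt_shr (Nat.mul e0 X2) 26).le
    have a2 := shr_le (Nat.mul e0 X2) 26
    rw [mul_cast] at a1 a2
    rw [hv2, succ_cast, add_mul, one_mul]
    exact ⟨by rw [add_mul, one_mul] at a1; exact a1, add_le_add_left a2 _⟩
  obtain ⟨b1, b2⟩ := b12
  obtain ⟨c1, c2⟩ := c12
  have d1 : (e0 : ℝ) * (x2 : ℝ) ^ 2 ≤ v2 * 2 ^ 52 := by
    calc (e0 : ℝ) * (x2 : ℝ) ^ 2 ≤ (e0 : ℝ) * (X2 * 2 ^ 26) := by gcongr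
      _ = (e0 : ℝ) * X2 * 2 ^ 26 := by ring
      _ ≤ (v2 : ℝ) * 2 ^ 26 * 2 ^ 26 := by gcongr
      _ = (v2 : ℝ) * 2 ^ 52 := by ring
  have d2 : ((v2 : ℝ) - 2) * 2 ^ 52 ≤ e0 * (x2 : ℝ) ^ 2 := by
    have k1 : (e0 : ℝ) * (X2 * 2 ^ 26) ≤ e0 * ((x2 : ℝ) ^ 2 + 2 ^ 26) := by gcongr
    have k2 : (v2 : ℝ) * 2 ^ 26 * 2 ^ 26 ≤ (e0 * X2 + 2 ^ 26) * 2 ^ 26 := by gcongr
    have k3 : (e0 : ℝ) * 2 ^ 26 ≤ 2 ^ 26 * 2 ^ 26 := by gcongr
    calc ((v2 : ℝ) - 2) * 2 ^ 52 = (v2 : ℝ) * 2 ^ 26 * 2 ^ 26 - 2 * 2 ^ 52 := by ring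
      _ ≤ ((e0 : ℝ) * X2 + 2 ^ 26) * 2 ^ 26 - 2 * 2 ^ 52 := by linarith
      _ = (e0 : ℝ) * (X2 * 2 ^ 26) - 2 ^ 52 := by ring
      _ ≤ (e0 : ℝ) * ((x2 : ℝ) ^ 2 + 2 ^ 26) - 2 ^ 52 := by linarith
      _ = (e0 : ℝ) * (x2 : ℝ) ^ 2 + (e0 : ℝ) * 2 ^ 26 - 2 ^ 52 := by ring
      _ ≤ (e0 : ℝ) * (x2 : ℝ) ^ 2 + 2 ^ 26 * 2 ^ 26 - 2 ^ 52 := by linarith
      _ = _ := by ring
  clear hX2 hv2 b1 b2 c1 c2
  -- exponential
  have hx := (hE (Nat.shiftLeft (Nat.sub v2 2) 13)).1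
  have hv : vR (Nat.shiftLeft (Nat.sub v2 2) 13) ≤ s / 2 := by
    unfold vR
    rw [shl_eq]
    have k3 : ((Nat.sub v2 2 : ℕ) : ℝ) * 2 ^ 52 ≤ e0 * (x2 : ℝ) ^ 2 := by
      by_cases h2 : 2 ≤ v2
      · rw [sub_eq h2]; exact d2
      · have e : Nat.sub v2 2 = 0 := Nat.sub_eq_zero_of_le (le_of_lt (not_le.1 h2))
        rw [e]; simp only [Nat.cast_zero, zero_mul]; positivity
    rw [hsE]
    calc ((Nat.sub v2 2 : ℕ) : ℝ) * 2 ^ 13 / 2 ^ 40 = ((Nat.sub v2 2 : ℕ) : ℝ) * 2 ^ 52 / 2 ^ 79 := by ring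
      _ ≤ (e0 : ℝ) * (x2 : ℝ) ^ 2 / 2 ^ 79 := by gcongr
      _ = _ := by ring
  have hexp : Real.exp (-s / 2) ≤ vR (N.expUp (Nat.shiftLeft (Nat.sub v2 2) 13)) := by
    refine le_trans (Real.exp_le_exp.2 ?_) hx
    linarith
  generalize N.expUp (Nat.shiftLeft (Nat.sub v2 2) 13) = E at hw2 hexp
  have hw := div_le (Nat.shiftLeft (Nat.sub N.one E) 26) v2
  rw [← hw2, shl_eq] at hw
  have h1 : Real.exp (-s / 2) ≤ 1 := Real.exp_le_one_iff.2 (by linarith)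
  have hsub : ((Nat.sub N.one E : ℕ) : ℝ) / 2 ^ 40 ≤ 1 - Real.exp (-s / 2) := by
    by_cases hEo : E ≤ N.one
    · rw [sub_eq hEo]
      unfold vR at hexp
      have : ((N.one : ℕ) : ℝ) = 2 ^ 40 := by unfold N.one; norm_num
      rw [this, sub_div, div_self (by positivity)]
      linarith
    · have e : Nat.sub N.one E = 0 := Nat.sub_eq_zero_of_le (le_of_lt (not_le.1 hEo))
      rw [e]; simp only [Nat.cast_zero, zero_div]; linarith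
  refine le_trans ?_ hsub
  calc vR w2 * s ≤ vR w2 * (v2 * 2 ^ 52 / 2 ^ 78) := by
        refine mul_le_mul_of_nonneg_left ?_ (vR_nonneg _)
        rw [hsE]; gcongr
    _ = (w2 : ℝ) * v2 / 2 ^ 66 := by unfold vR; ring
    _ ≤ ((Nat.sub N.one E : ℕ) : ℝ) * 2 ^ 26 / 2 ^ 66 := by gcongr
    _ = _ := by ring

theorem J1_le {w2 x1 x2 Pm J1 : ℕ} (h12 : x1 ≤ x2)
    (hJ1 : J1 = Nat.succ (Nat.shiftRight (Nat.mul (Nat.mul (Nat.sub 549755813888 w2) (Nat.sub x2 x1)) Pm) 66)) :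
    (1 / 2 - vR w2) * ((x2 : ℝ) / 2 ^ 26 - (x1 : ℝ) / 2 ^ 26) * vR Pm ≤ vR J1 := by
  have h1 := (lt_shr (Nat.mul (Nat.mul (Nat.sub 549755813888 w2) (Nat.sub x2 x1)) Pm) 66).le
  rw [mul_cast, mul_cast, sub_eq h12] at h1
  have h2 := sub_ge 549755813888 w2
  have h3 : (0 : ℝ) ≤ (x2 : ℝ) - x1 := by
    have : (x1 : ℝ) ≤ x2 := by exact_mod_cast h12
    linarith
  have h4 : ((549755813888 : ℝ) - w2) * ((x2 : ℝ) - x1) * Pm ≤ J1 * 2 ^ 66 := by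
    rw [hJ1, succ_cast]
    refine le_trans ?_ h1
    have : ((549755813888 : ℕ) : ℝ) = 549755813888 := by norm_num
    rw [this] at h2
    gcongr
  unfold vR
  calc (1 / 2 - (w2 : ℝ) / 2 ^ 40) * ((x2 : ℝ) / 2 ^ 26 - (x1 : ℝ) / 2 ^ 26) * (Pm / 2 ^ 40)
      = ((549755813888 : ℝ) - w2) * ((x2 : ℝ) - x1) * Pm / 2 ^ 106 := by ring
    _ ≤ (J1 : ℝ) * 2 ^ 66 / 2 ^ 106 := by gcongr
    _ = _ := by ring

theorem J3_le {M P3 e0 x3 J3 : ℕ} (he : 0 < e0) (hx : 0 < x3)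
    (hJ3 : J3 = Nat.succ (Nat.div (Nat.shiftLeft (Nat.mul M P3) 12) (Nat.mul e0 x3))) :
    vR M * vR P3 ≤ vR J3 * (aR e0 * ((x3 : ℝ) / 2 ^ 26)) := by
  have h0 : 0 < Nat.mul e0 x3 := Nat.mul_pos he hx
  have h1 := (lt_div (Nat.shiftLeft (Nat.mul M P3) 12) (Nat.mul e0 x3) h0).le
  rw [shl_eq, mul_cast, mul_cast, ← succ_cast, ← hJ3] at h1
  unfold vR aR
  calc (M : ℝ) / 2 ^ 40 * (P3 / 2 ^ 40) = (M * P3 * 2 ^ 12) / 2 ^ 92 := by ring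
    _ ≤ (J3 : ℝ) * (e0 * x3) / 2 ^ 92 := by gcongr
    _ = _ := by ring

theorem U_le {u v e0 U : ℕ} (he : 0 < e0)
    (hU : U = Nat.succ (Nat.div (Nat.succ (Nat.shiftRight (Nat.mul u v) 13)) (Nat.mul 31 e0))) :
    vR u * vR v / (15.5 * aR e0) ≤ vR U := by
  have h0 : 0 < Nat.mul 31 e0 := Nat.mul_pos (by norm_num) he
  have h1 := (lt_div (Nat.succ (Nat.shiftRight (Nat.mul u v) 13)) (Nat.mul 31 e0) h0).le
  rw [mul_cast, succ_cast, ← succ_cast (Nat.div _ _), ← hU] at h1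
  have h2 := (lt_shr (Nat.mul u v) 13).le
  rw [mul_cast] at h2
  have he' : (0 : ℝ) < e0 := by exact_mod_cast he
  have ha : 0 < aR e0 := by unfold aR; positivity
  rw [div_le_iff₀ (by positivity)]
  unfold vR aR
  have h3 : ((31 : ℕ) : ℝ) = 31 := by norm_num
  rw [h3] at h1
  have h4 : (u : ℝ) * v ≤ U * (31 * e0) * 2 ^ 13 := by
    refine h2.trans ?_
    gcongr
  calc (u : ℝ) / 2 ^ 40 * (v / 2 ^ 40) = u * v / 2 ^ 80 := by ring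
    _ ≤ (U : ℝ) * (31 * e0) * 2 ^ 13 / 2 ^ 80 := by gcongr
    _ = _ := by ring

/-- one piece -/
theorem piece_le {D : N.Tab} {θ z : ℝ} (hT : TF D θ z) {a1 cm xi st : ℕ} {a c : ℝ} (ha : aR a1 ≤ a) (hc : aR cm ≤ c) :
    ∃ P : ℝ, 0 ≤ P ∧ (∀ ξ, (xi : ℝ) / 2 ^ 26 ≤ ξ → |f0 θ (a * ξ ^ 2) * f0 θ (c * ξ ^ 2)| ≤ P) ∧
      P * ((st : ℝ) / 2 ^ 26) ≤ vR (N.pPiece D a1 cm xi st) := by
  unfold N.pPiece
  rw [frc_eq]
  have hX := shr_le (Nat.mul xi xi) 26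
  rw [mul_cast, ← sq] at hX
  generalize Nat.shiftRight (Nat.mul xi xi) 26 = X at hX ⊢
  refine ⟨vR (Nat.succ (Nat.shiftRight (Nat.mul (N.u64 D (Nat.shiftRight (Nat.mul a1 X) 26))
    (N.u64 D (Nat.shiftRight (Nat.mul cm X) 26))) 40)), vR_nonneg _, ?_, ?_⟩
  · intro ξ hξ
    exact prod_le (hT.uu _ _ (arg_lo hX ha hξ)).2 (hT.uu _ _ (arg_lo hX hc hξ)).2
  · generalize Nat.succ (Nat.shiftRight (Nat.mul (N.u64 D (Nat.shiftRight (Nat.mul a1 X) 26))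
      (N.u64 D (Nat.shiftRight (Nat.mul cm X) 26))) 40) = P
    have h1 := (lt_shr (Nat.mul P st) 26).le
    rw [mul_cast, ← succ_cast] at h1
    generalize Nat.succ (Nat.shiftRight (Nat.mul P st) 26) = Q at h1 ⊢
    unfold vR
    calc (P : ℝ) / 2 ^ 40 * (st / 2 ^ 26) = P * st / 2 ^ 66 := by ring
      _ ≤ (Q : ℝ) * 2 ^ 26 / 2 ^ 66 := by gcongr
      _ = _ := by ring

/-- the tail of `J2` -/
theorem tail_le {c0 x6 gn T x5 st : ℕ} (hg : 16 ≤ gn) (hx : x5 + 4 * st ≤ x6 + 4)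
    (hT : T = Nat.succ (Nat.div (Nat.mul 8 (Nat.succ (Nat.shiftRight (Nat.mul (Nat.mul c0 c0) (Nat.add x6 4)) 66)))
      (Nat.sub gn 8))) :
    vR c0 ^ 2 * (((x5 : ℝ) + 4 * st) / 2 ^ 26) / (4 * ((gn : ℝ) / 32) - 1) ≤ vR T := by
  have h8 : 8 ≤ gn := le_trans (by norm_num) hg
  have hpos : 0 < Nat.sub gn 8 := Nat.sub_pos_of_lt (lt_of_lt_of_le (by norm_num) hg)
  have hgn : (16 : ℝ) ≤ gn := by exact_mod_cast hg
  have h1 := (lt_div (Nat.mul 8 (Nat.succ (Nat.shiftRight (Nat.mul (Nat.mul c0 c0) (Nat.add x6 4)) 66)))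
      (Nat.sub gn 8) hpos).le
  rw [← succ_cast, ← hT, sub_eq h8, mul_cast] at h1
  have h2 := (lt_shr (Nat.mul (Nat.mul c0 c0) (Nat.add x6 4)) 66).le
  rw [mul_cast, mul_cast, add_cast, ← succ_cast] at h2
  generalize Nat.succ (Nat.shiftRight (Nat.mul (Nat.mul c0 c0) (Nat.add x6 4)) 66) = R at h1 h2
  have hx' : (x5 : ℝ) + 4 * st ≤ x6 + 4 := by exact_mod_cast hx
  have e8 : ((8 : ℕ) : ℝ) = 8 := by norm_num
  have e4 : ((4 : ℕ) : ℝ) = 4 := by norm_num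
  rw [e8] at h1
  rw [e4] at h2
  rw [div_le_iff₀ (by linarith)]
  unfold vR
  calc ((c0 : ℝ) / 2 ^ 40) ^ 2 * (((x5 : ℝ) + 4 * st) / 2 ^ 26)
      = (c0 : ℝ) * c0 * ((x5 : ℝ) + 4 * st) / 2 ^ 106 := by ring
    _ ≤ (c0 : ℝ) * c0 * ((x6 : ℝ) + 4) / 2 ^ 106 := by gcongr
    _ ≤ (R : ℝ) * 2 ^ 66 / 2 ^ 106 := by gcongr
    _ = 8 * (R : ℝ) / (8 * 2 ^ 40) := by ring
    _ ≤ (T : ℝ) * (gn - 8) / (8 * 2 ^ 40) := by gcongr
    _ = _ := by ring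

theorem half_le (S : ℕ) : (S : ℝ) / 2 ≤ ((Nat.shiftRight (Nat.add 2 S) 1 : ℕ) : ℝ) := by
  have h := lt_shr (Nat.add 2 S) 1
  rw [add_cast] at h
  have e2 : ((2 : ℕ) : ℝ) = 2 := by norm_num
  rw [e2] at h
  linarith

theorem sum_le_V (S : ℕ) (x : ℝ) (h : x ≤ vR S) : x / 2 ≤ vR (Nat.shiftRight (Nat.add 2 S) 1) := by
  have h1 := half_le S
  unfold vR at h ⊢
  calc x / 2 ≤ (S : ℝ) / 2 ^ 40 / 2 := by linarith
    _ = (S : ℝ) / 2 / 2 ^ 40 := by ring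
    _ ≤ _ := by gcongr

theorem vR_add (a b : ℕ) : vR (Nat.add a b) = vR a + vR b := by
  unfold vR; rw [add_cast]; ring

theorem eps_le {e0 : ℕ} (he : 0 < e0) : 5e-7 / aR e0 ≤ vR (Nat.succ (Nat.div 36893500637184 e0)) := by
  have h1 := (lt_div 36893500637184 e0 he).le
  rw [← succ_cast] at h1
  have he' : (0 : ℝ) < e0 := by exact_mod_cast he
  have ha : 0 < aR e0 := by unfold aR; positivity
  rw [div_le_iff₀ ha]
  unfold vR aR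
  have e : ((36893500637184 : ℕ) : ℝ) = 36893500637184 := by norm_num
  rw [e] at h1
  calc (5e-7 : ℝ) ≤ 36893500637184 / 2 ^ 66 := by norm_num
    _ ≤ ((Nat.succ (Nat.div 36893500637184 e0) : ℕ) : ℝ) * e0 / 2 ^ 66 := by gcongr
    _ = _ := by ring

/-! ### the value at the pair -/

theorem sx_pair : Sx ![(1 / 2 : ℝ), 1 / 2] := by
  refine ⟨?_, ?_⟩
  · intro i
    fin_cases i <;> simp
  · rw [Fin.sum_univ_two]; norm_num

theorem V2_le {D : N.Tab} {θ z : ℝ} (hT : TF D θ z) : G θ ![(1 / 2 : ℝ), 1 / 2] ≤ vR (N.v2u D) := by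
  have h0 : 0 < θ := lt_of_lt_of_le (by norm_num) hT.th0
  have h := (aHS h0 hT.th1 ![(1 / 2 : ℝ), 1 / 2] sx_pair).2.2.2.1
  have h2 := hT.tn 2 (le_refl _) (by norm_num)
  have e : ∑' i : ℕ, PP θ ![(1 / 2 : ℝ), 1 / 2] (i + 1) / ((i : ℝ) + 1) ^ 2 =
      ∑' i : ℕ, f0 θ (((i : ℝ) + 1) ^ 2 / ((2 : ℕ) : ℝ)) ^ 2 / ((i : ℝ) + 1) ^ 2 := by
    refine tsum_congr fun i => ?_
    unfold PP
    rw [Fin.prod_univ_two]
    have e1 : (![(1 / 2 : ℝ), 1 / 2] 0) * ((i : ℝ) + 1) ^ 2 = ((i : ℝ) + 1) ^ 2 / ((2 : ℕ) : ℝ) := by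
      simp only [Matrix.cons_val_zero]; push_cast; ring
    have e2 : (![(1 / 2 : ℝ), 1 / 2] 1) * ((i : ℝ) + 1) ^ 2 = ((i : ℝ) + 1) ^ 2 / ((2 : ℕ) : ℝ) := by
      simp only [Matrix.cons_val_one]; push_cast; ring
    rw [e1, e2, sq (f0 θ _)]
  rw [e] at h
  have hpi : Real.pi ^ 2 / 6 + 1 / 4 + 1 ≤ 3183013668145 / 2 ^ 40 := by
    have h3 : Real.pi < 3.14159265358979323847 := Real.pi_lt_d20
    have h4 : Real.pi ^ 2 ≤ 3.14159265358979323847 ^ 2 := by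
      have := Real.pi_pos
      gcongr
    have h5 : (3.14159265358979323847 : ℝ) ^ 2 / 6 + 1 / 4 + 1 ≤ 3183013668145 / 2 ^ 40 := by norm_num
    linarith
  have h6 := sub_ge 3183013668145 (N.tn D 2)
  have e7 : ((3183013668145 : ℕ) : ℝ) = 3183013668145 := by norm_num
  rw [e7] at h6
  unfold N.v2u
  generalize Nat.sub 3183013668145 (N.tn D 2) = V at h6 ⊢
  generalize N.tn D 2 = T at h6 h2
  have h8 : 3183013668145 / 2 ^ 40 - vR T ≤ vR V := by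
    unfold vR
    calc (3183013668145 : ℝ) / 2 ^ 40 - T / 2 ^ 40 = (3183013668145 - T) / 2 ^ 40 := by ring
      _ ≤ _ := by gcongr
  linarith

/-- the last inequality, numbers abstracted -/
theorem fin_le0 {K O B V S J1 J U E : ℕ} {ls R : ℝ} (hK : (K : ℝ) = 2 ^ 38) (hO : (O : ℝ) = 2 ^ 40)
    (hB1 : (B : ℝ) / 2 ^ 40 ≤ R) (hv : 0 < S → vR S ≤ 1 + ls)
    (h : (V + 2) * 2 ^ 40 ≤ (K + S - (O + (J1 + (J + (U + E))))) * B) :
    0 < S ∧ vR V < (1 / 4 + ls - vR U - vR E - vR J1 - vR J) * R := by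
  have hApos : 0 < K + S - (O + (J1 + (J + (U + E)))) := by
    rcases Nat.eq_zero_or_pos (K + S - (O + (J1 + (J + (U + E))))) with h0 | h0
    · rw [h0, Nat.zero_mul] at h
      have : 0 < (V + 2) * 2 ^ 40 := by positivity
      exact absurd (lt_of_lt_of_le this h) (lt_irrefl _)
    · exact h0
  have hle : O + (J1 + (J + (U + E))) ≤ K + S := le_of_lt (Nat.lt_of_sub_pos hApos)
  have hApos' : (0 : ℝ) < ((K + S - (O + (J1 + (J + (U + E)))) : ℕ) : ℝ) := by exact_mod_cast hApos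
  have hR : (((V + 2) * 2 ^ 40 : ℕ) : ℝ) ≤ (((K + S - (O + (J1 + (J + (U + E))))) * B : ℕ) : ℝ) := by
    exact_mod_cast h
  have e3 : ((2 : ℕ) : ℝ) = 2 := by norm_num
  rw [Nat.cast_mul, Nat.cast_mul, Nat.cast_pow, Nat.cast_add, e3] at hR
  rw [Nat.cast_sub hle, Nat.cast_add, Nat.cast_add, Nat.cast_add, Nat.cast_add, Nat.cast_add, hO, hK]
    at hR hApos'
  have hS0 : 0 < S := by
    rcases Nat.eq_zero_or_pos S with h0 | h0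
    · exfalso
      rw [h0] at hApos'
      have p1 : (0 : ℝ) ≤ J1 := Nat.cast_nonneg _
      have p2 : (0 : ℝ) ≤ J := Nat.cast_nonneg _
      have p3 : (0 : ℝ) ≤ U := Nat.cast_nonneg _
      have p4 : (0 : ℝ) ≤ E := Nat.cast_nonneg _
      have p5 : (2 : ℝ) ^ 38 < 2 ^ 40 := by norm_num
      have p6 : ((0 : ℕ) : ℝ) = 0 := Nat.cast_zero
      rw [p6] at hApos'
      linarith
    · exact h0
  refine ⟨hS0, ?_⟩
  have hv' := hv hS0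
  have hA2 : ((2 : ℝ) ^ 38 + S - (2 ^ 40 + (J1 + (J + (U + E))))) / 2 ^ 40 ≤
      1 / 4 + ls - vR U - vR E - vR J1 - vR J := by
    unfold vR at hv' ⊢
    have : ((2 : ℝ) ^ 38 + S - (2 ^ 40 + (J1 + (J + (U + E))))) / 2 ^ 40 =
      1 / 4 + (S : ℝ) / 2 ^ 40 - 1 - (U : ℝ) / 2 ^ 40 - (E : ℝ) / 2 ^ 40 - (J1 : ℝ) / 2 ^ 40 - (J : ℝ) / 2 ^ 40 := by
      ring
    rw [this]; linarith
  have hA0 : 0 < ((2 : ℝ) ^ 38 + S - (2 ^ 40 + (J1 + (J + (U + E))))) / 2 ^ 40 := div_pos hApos' (by positivity)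
  have hB0 : 0 ≤ (B : ℝ) / 2 ^ 40 := by positivity
  calc vR V < ((V : ℝ) + 2) / 2 ^ 40 := by
        unfold vR
        have : (V : ℝ) < V + 2 := by linarith
        gcongr
    _ = ((V : ℝ) + 2) * 2 ^ 40 / 2 ^ 80 := by ring
    _ ≤ ((2 : ℝ) ^ 38 + S - (2 ^ 40 + (J1 + (J + (U + E))))) * B / 2 ^ 80 := by gcongr
    _ = ((2 : ℝ) ^ 38 + S - (2 ^ 40 + (J1 + (J + (U + E))))) / 2 ^ 40 * (B / 2 ^ 40) := by ring
    _ ≤ _ := mul_le_mul hA2 hB1 hB0 (hA0.le.trans hA2)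

theorem B_le (hS : GSQ) {e0 : ℕ} (he : e0 ≤ N.oneA) :
    ((Nat.add N.one (N.sqL (Nat.shiftLeft (Nat.sub N.oneA e0) 54)) : ℕ) : ℝ) / 2 ^ 40 ≤ 1 + √(1 - aR e0) := by
  have hone : ((N.one : ℕ) : ℝ) = 2 ^ 40 := by unfold N.one; norm_num
  have hoA : ((N.oneA : ℕ) : ℝ) = 2 ^ 26 := by unfold N.oneA; norm_num
  have hB := (hS (Nat.shiftLeft (Nat.sub N.oneA e0) 54)).2.1
  rw [add_cast, hone, add_div, div_self (by positivity)]
  have e1 : ((Nat.shiftLeft (Nat.sub N.oneA e0) 54 : ℕ) : ℝ) = (1 - aR e0) * (2 ^ 40) ^ 2 := by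
    rw [shl_eq, sub_eq he, hoA]; unfold aR; ring
  rw [e1, Real.sqrt_mul' _ (by positivity), Real.sqrt_sq (by positivity)] at hB
  have : ((N.sqL (Nat.shiftLeft (Nat.sub N.oneA e0) 54) : ℕ) : ℝ) / 2 ^ 40 ≤ √(1 - aR e0) := by
    rw [div_le_iff₀ (by positivity)]; exact hB
  linarith

/-- the last inequality -/
theorem fin_le (hS : GSQ) {V S J1 J U E e0 : ℕ} {ls : ℝ} (hv : 0 < S → vR S ≤ 1 + ls) (he : e0 ≤ N.oneA)
    (h : Nat.shiftLeft (Nat.add V 2) 40 ≤ Nat.mul (Nat.sub (Nat.add 274877906944 S)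
      (Nat.add N.one (Nat.add J1 (Nat.add J (Nat.add U E)))))
        (Nat.add N.one (N.sqL (Nat.shiftLeft (Nat.sub N.oneA e0) 54)))) :
    0 < S ∧ vR V < (1 / 4 + ls - vR U - vR E - vR J1 - vR J) * (1 + √(1 - aR e0)) := by
  have hone : ((N.one : ℕ) : ℝ) = 2 ^ 40 := by unfold N.one; norm_num
  have h' := h
  have e : Nat.shiftLeft (Nat.add V 2) 40 = (V + 2) * 2 ^ 40 := Nat.shiftLeft_eq _ _
  rw [e] at h'
  exact fin_le0 (K := 274877906944) (O := N.one) (by norm_num) hone (B_le hS he) hv h'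

theorem st_bounds {x5 x6 st : ℕ} (h : x5 ≤ x6) (hst : st = Nat.succ (Nat.shiftRight (Nat.sub x6 x5) 2)) :
    x6 ≤ x5 + 4 * st ∧ x5 + 4 * st ≤ x6 + 4 := by
  have e : Nat.shiftRight (Nat.sub x6 x5) 2 = (x6 - x5) / 2 ^ 2 := Nat.shiftRight_eq_div_pow _ _
  rw [e] at hst
  rw [hst, Nat.succ_eq_add_one]
  omega

theorem le64 (hS : GSQ) {cm x5 st : ℕ} (hc : 0 < cm)
    (h : N.sqU (Nat.succ (Nat.div 19342813113834066795298816 cm)) ≤ x5 + 4 * st) :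
    (64 : ℝ) ≤ aR cm * (((x5 : ℝ) + 4 * st) / 2 ^ 26) ^ 2 := by
  have h0 := rt_hi hS 19342813113834066795298816 cm hc
  have e : ((19342813113834066795298816 : ℕ) : ℝ) / 2 ^ 78 = 64 := by norm_num
  rw [e] at h0
  obtain ⟨Y, hY⟩ : ∃ Y, Y = N.sqU (Nat.succ (Nat.div 19342813113834066795298816 cm)) := ⟨_, rfl⟩
  rw [← hY] at h h0
  clear hY e
  refine h0.trans ?_
  have h1 : (Y : ℝ) ≤ (x5 : ℝ) + 4 * st := by exact_mod_cast h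
  have h2 := aR_nonneg cm
  gcongr

/-! ### the pair test -/

attribute [local irreducible] N.tPL N.tPU N.tSL N.tSU N.tTL N.tTU N.tST N.tU0 N.tU1 N.tU2 N.tP1 N.tI1 N.tI2
  N.tRH N.tRI N.tLU N.tLL N.tF N.tN0 N.tSG N.tW N.fld N.fld6 N.fst N.pos0 N.uu N.u64 N.mM N.tn N.pSum
  N.expUp N.expLo N.sqU N.sqL N.pPiece N.v2u

theorem gPOKS : GPOKS := by
  intro hPSM hE hS D θ z hT n t i k a1 a2 e0 hSx hik hmax ha2 he0 hai1 hai2 hpos heps hOK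
  obtain ⟨cm, c2, x1, x2, X2, X1, v2, w2, Pm, J1, x3, X3, P3, J3, x5, x6, st, J, U, hcm, hc2, hx1, hx2, hX2, hX1,
    hv2, hw2, hPm, hJ1, hx3, hX3, hP3, hJ3, hx5, hx6, hst, hJ, hU, g1, g2, g3, g4, g5, g6, g7, hfin⟩ :=
    pOK_elim hOK
  clear hOK
  have hθ0 : 0 < θ := lt_of_lt_of_le (by norm_num) hT.th0
  have hFA := hT.fa
  have hRL := bRL θ z _ _ _ _ hFA
  have hoA : ((N.oneA : ℕ) : ℝ) = 2 ^ 26 := by unfold N.oneA; norm_num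
  have hoAN : N.oneA = 2 ^ 26 := by unfold N.oneA; norm_num
  -- cm
  have hcm1 : Nat.add a2 e0 ≤ N.oneA := by
    rcases Nat.lt_or_ge N.oneA (Nat.add a2 e0) with h | h
    · have : Nat.sub N.oneA (Nat.add a2 e0) = 0 := Nat.sub_eq_zero_of_le h.le
      rw [this] at hcm
      rw [hcm] at g5
      exact absurd g5 (by norm_num)
    · exact h
  have hcmR : aR cm = 1 - aR a2 - aR e0 := by
    unfold aR
    rw [hcm, sub_eq hcm1, add_cast, hoA]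
    ring
  have he0A : e0 ≤ N.oneA := le_trans (Nat.le_add_left e0 a2) hcm1
  have he0R : 0 < aR e0 := by
    have : (0 : ℝ) < e0 := by exact_mod_cast he0
    unfold aR; positivity
  have hcm0 : 0 < aR cm := by
    have : (0 : ℝ) < cm := by exact_mod_cast g5
    unfold aR; positivity
  have he01 : aR e0 ≤ aR a1 := by
    have : (e0 : ℝ) ≤ a1 := by exact_mod_cast g3
    unfold aR; gcongr
  have ha1R : 0 < aR a1 := lt_of_lt_of_le he0R he01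
  have hti0 : 0 < t i := lt_of_lt_of_le ha1R hai1
  have ha2R : 0 < aR a2 := lt_of_lt_of_le hti0 hai2
  have hck : aR cm ≤ t k := by rw [hcmR]; linarith
  have htk0 : 0 < t k := lt_of_lt_of_le hcm0 hck
  have htki : t k ≤ t i := hmax k
  have hcma2 : aR cm ≤ aR a2 := hck.trans (htki.trans hai2)
  -- the numbers ξ1, ξ2, ξ3
  have hz1 : aR (N.zL D) < z := by rw [zL_eq]; exact hT.zl
  have hz2 : z < aR (N.zR D) := by rw [zR_eq]; exact hT.zr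
  have q1 : aR a2 * ((x1 : ℝ) / 2 ^ 26) ^ 2 ≤ z := by
    rw [hx1]; exact (rt_lo hS (N.zL D) a2).trans hz1.le
  have q3 : aR e0 * ((x3 : ℝ) / 2 ^ 26) ^ 2 ≤ z := by
    rw [hx3]; exact (rt_lo hS (N.zL D) e0).trans hz1.le
  have q2 : z < aR cm * ((x2 : ℝ) / 2 ^ 26) ^ 2 := by
    have h := rt_hi hS (Nat.shiftLeft (N.zR D) 52) cm g5
    rw [← hx2, shl_eq] at h
    refine lt_of_lt_of_le hz2 (le_trans (le_of_eq ?_) h)
    unfold aR; ring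
  have hx1R : (0 : ℝ) < (x1 : ℝ) / 2 ^ 26 := by
    have : (0 : ℝ) < x1 := by exact_mod_cast g6
    positivity
  have hx3R : (0 : ℝ) < (x3 : ℝ) / 2 ^ 26 := by
    have : (0 : ℝ) < x3 := by exact_mod_cast g7
    positivity
  have h12R : (x1 : ℝ) / 2 ^ 26 ≤ (x2 : ℝ) / 2 ^ 26 := by
    by_contra hcon
    have hlt := not_le.1 hcon
    have h1 : aR cm * ((x2 : ℝ) / 2 ^ 26) ^ 2 ≤ aR a2 * ((x1 : ℝ) / 2 ^ 26) ^ 2 := by gcongr
    linarith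
  have h12 : x1 ≤ x2 := by
    have : (x1 : ℝ) ≤ x2 := (div_le_div_iff_of_pos_right (by positivity)).1 h12R
    exact_mod_cast this
  have hx2R : (0 : ℝ) < (x2 : ℝ) / 2 ^ 26 := lt_of_lt_of_le hx1R h12R
  -- X1, X2, X3
  have hX1R : (X1 : ℝ) * 2 ^ 26 ≤ (x1 : ℝ) ^ 2 := by
    have h := shr_le (Nat.mul x1 x1) 26
    rw [mul_cast, ← hX1] at h
    rw [sq]; exact h
  have hX3R : (X3 : ℝ) * 2 ^ 26 ≤ (x3 : ℝ) ^ 2 := by
    have h := shr_le (Nat.mul x3 x3) 26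
    rw [mul_cast, ← hX3] at h
    rw [sq]; exact h
  have hX2R : (x2 : ℝ) ^ 2 ≤ (X2 : ℝ) * 2 ^ 26 := by
    have h := (lt_shr (Nat.mul x2 x2) 26).le
    rw [mul_cast, ← succ_cast, ← hX2] at h
    rw [sq]; exact h
  -- a2 ξ2² ≤ yN
  have hN2 : 2 ≤ N.xgN D.I.kN := xgN_ge (by
    have := hT.i1
    exact le_trans (by norm_num) (le_trans this.1 (le_trans this.2.2.1.le (le_trans this.2.2.2.1 this.2.2.2.2.1.le))))
  have q4 : aR a2 * ((x2 : ℝ) / 2 ^ 26) ^ 2 ≤ xR D.I.kN := by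
    have h := arg_hi (a := a2) hX2R (le_refl (aR a2)) (le_refl ((x2 : ℝ) / 2 ^ 26)) hx2R.le
    refine h.le.trans ?_
    unfold xR
    have h5 : Nat.succ (Nat.shiftRight (Nat.mul a2 X2) 26) ≤ N.xgN D.I.kN := by
      have h6 : Nat.sub (N.xgN D.I.kN) 2 + 2 = N.xgN D.I.kN := Nat.sub_add_cancel hN2
      calc Nat.succ (Nat.shiftRight (Nat.mul a2 X2) 26) ≤ Nat.sub (N.xgN D.I.kN) 2 + 1 := Nat.succ_le_succ g1
        _ ≤ Nat.sub (N.xgN D.I.kN) 2 + 2 := Nat.add_le_add_left (by norm_num) _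
        _ = _ := h6
    have h7 : ((Nat.succ (Nat.shiftRight (Nat.mul a2 X2) 26) : ℕ) : ℝ) ≤ N.xgN D.I.kN := by exact_mod_cast h5
    unfold aR
    gcongr
  -- w2
  have q5 := w2_le hE he0A hX2 hv2 hw2
  -- Pm
  have q6 : ∀ ξ, (x1 : ℝ) / 2 ^ 26 ≤ ξ → ξ ≤ (x2 : ℝ) / 2 ^ 26 → t k * ξ ^ 2 ≤ z → z ≤ t i * ξ ^ 2 →
      |f0 θ (t i * ξ ^ 2) * f0 θ (t k * ξ ^ 2)| ≤ vR Pm := by
    intro ξ hξ1 hξ2 hk hi
    have hξ0 : 0 < ξ := lt_of_lt_of_le hx1R hξ1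
    rw [hPm]
    refine prod_le (hT.fst _ _ _ hi (arg_lo hX1R hai1 hξ1) (arg_hi hX2R hai2 hξ2 hξ0.le).le) ?_
    rcases eq_or_lt_of_le hk with h | h
    · rw [h, hFA.fz, abs_zero]; exact vR_nonneg _
    · rw [abs_of_pos (hRL.2.1 _ (by positivity) h)]
      exact hT.pos _ _ (by positivity) (arg_lo hX1R hck hξ1) h
  have q7 := J1_le h12 hJ1
  -- P3
  have q8 : ∀ ξ, (x3 : ℝ) / 2 ^ 26 ≤ ξ → |f0 θ (t i * ξ ^ 2) * f0 θ (t k * ξ ^ 2)| ≤ vR P3 := by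
    intro ξ hξ
    rw [hP3]
    exact prod_le (hT.uu _ _ (arg_lo hX3R hai1 hξ)).1 (hT.uu _ _ (arg_lo hX3R hck hξ)).1
  have q9 := J3_le he0 g7 hJ3
  have hM1 : vR (N.mM D) ≤ 1 := by
    have h := hT.mM
    unfold vR
    rw [div_le_one (by positivity)]
    exact_mod_cast h.le
  have hE1 : aR e0 ≤ 0.102 := by
    have h : ((Nat.mul e0 1000 : ℕ) : ℝ) ≤ ((Nat.mul 102 N.oneA : ℕ) : ℝ) := by exact_mod_cast g2
    rw [mul_cast, mul_cast, hoA] at h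
    unfold aR
    rw [div_le_iff₀ (by positivity)]
    have e1 : ((1000 : ℕ) : ℝ) = 1000 := by norm_num
    have e2 : ((102 : ℕ) : ℝ) = 102 := by norm_num
    rw [e1, e2] at h
    linarith
  -- the sum
  have hc2k : t k ≤ aR c2 := by
    have ha1A : a1 ≤ N.oneA := by
      have h1 : aR a1 ≤ 1 := by linarith
      unfold aR at h1
      rw [div_le_one (by positivity)] at h1
      rw [hoAN]
      exact_mod_cast h1
    have : aR c2 = 1 - aR a1 := by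
      unfold aR
      rw [hc2, sub_eq ha1A, hoA]
      ring
    rw [this]; linarith
  have hc2N : c2 ≤ 2 ^ 26 := by
    rw [hc2, ← hoAN]; exact Nat.sub_le _ _
  have hV := V2_le hT
  rcases hPSM hE D θ z hT (t i) (t k) a1 a2 cm c2 e0 he0 hai1 hai2 hck hc2k htki ha2 hc2N with hL | ⟨L, hL, hLs⟩
  · exfalso
    have h := (fin_le hS (ls := 0) (fun h0 => by rw [hL] at h0; exact absurd h0 (lt_irrefl _)) he0A hfin).1
    rw [hL] at h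
    exact absurd h (lt_irrefl _)
  obtain ⟨-, hF⟩ := fin_le hS (ls := ∑ l ∈ Finset.Icc 1 15, L l) (fun _ => hLs) he0A hfin
  have hEps := eps_le he0
  have hsq : 0 ≤ 1 + √(1 - aR e0) := by positivity
  have hq2' : z ≤ (1 - aR a2 - aR e0) * ((x2 : ℝ) / 2 ^ 26) ^ 2 := by rw [← hcmR]; exact q2.le
  have hcm0' : 0 < 1 - aR a2 - aR e0 := by rw [← hcmR]; exact hcm0
  have hkey := bE2P2 bRL bHG bPROD θ z _ _ _ _ _ _ _ _ hFA hT.fp n t i k (aR a1) (aR a2) (aR e0) (vR (N.mM D)) (vR Pm)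
    (vR w2) (vR P3) (vR J1)
  cases hni : D.B.ni
  · rw [hni] at hJ hU
    simp only [cond_false] at hJ hU
    -- x5, x6, st
    rw [mx_eq] at hx5 hx6
    have h52 : x2 ≤ x5 := by rw [hx5]; exact le_max_left _ _
    have q10 : aR a2 * ((x5 : ℝ) / 2 ^ 26) ^ 2 ≤ xR D.I.kN := by
      rcases max_choice x2 (N.sqL (Nat.div (Nat.shiftLeft (N.xgN D.I.kN) 52) a2)) with h | h
      · rw [hx5, h]; exact q4
      · rw [hx5, h]; exact rt_lo hS (N.xgN D.I.kN) a2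
    have h65 : x5 ≤ x6 := by rw [hx6]; exact le_max_left _ _
    have h6U : N.sqU (Nat.succ (Nat.div 19342813113834066795298816 cm)) ≤ x6 := by
      rw [hx6]; exact le_max_right _ _
    obtain ⟨hst1, hst2⟩ := st_bounds h65 hst
    have q11 : (64 : ℝ) ≤ (1 - aR a2 - aR e0) * (((x5 : ℝ) + 4 * st) / 2 ^ 26) ^ 2 := by
      rw [← hcmR]
      exact le64 hS g5 (h6U.trans hst1)
    obtain ⟨P5, hP50, hP5, hP5'⟩ := piece_le hT (xi := x5) (st := st) hai1 hck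
    obtain ⟨P7, hP70, hP7, hP7'⟩ := piece_le hT (xi := Nat.add x5 st) (st := st) hai1 hck
    obtain ⟨P8, hP80, hP8, hP8'⟩ := piece_le hT (xi := Nat.add x5 (Nat.mul 2 st)) (st := st) hai1 hck
    obtain ⟨P9, hP90, hP9, hP9'⟩ := piece_le hT (xi := Nat.add x5 (Nat.mul 3 st)) (st := st) hai1 hck
    have e2 : ((2 : ℕ) : ℝ) = 2 := by norm_num
    have e3 : ((3 : ℕ) : ℝ) = 3 := by norm_num
    rw [add_cast] at hP7
    rw [add_cast, mul_cast, e2] at hP8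
    rw [add_cast, mul_cast, e3] at hP9
    have hst0 : (0 : ℝ) ≤ st := Nat.cast_nonneg _
    obtain ⟨T, hTT⟩ : ∃ T, T = Nat.succ (Nat.div (Nat.mul 8 (Nat.succ (Nat.shiftRight
      (Nat.mul (Nat.mul D.B.c0 D.B.c0) (Nat.add x6 4)) 66))) (Nat.sub D.B.gn 8)) := ⟨_, rfl⟩
    rw [← hTT] at hJ
    have hTl := tail_le hT.gn.1 hst2 hTT
    have hS1 : P5 * (((x5 : ℝ) + st) / 2 ^ 26 - (x5 : ℝ) / 2 ^ 26) +
        P7 * (((x5 : ℝ) + 2 * st) / 2 ^ 26 - ((x5 : ℝ) + st) / 2 ^ 26) +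
        P8 * (((x5 : ℝ) + 3 * st) / 2 ^ 26 - ((x5 : ℝ) + 2 * st) / 2 ^ 26) +
        P9 * (((x5 : ℝ) + 4 * st) / 2 ^ 26 - ((x5 : ℝ) + 3 * st) / 2 ^ 26) +
        vR D.B.c0 ^ 2 * (((x5 : ℝ) + 4 * st) / 2 ^ 26) / (4 * ((D.B.gn : ℝ) / 32) - 1) ≤
        vR (Nat.add (Nat.add (N.pPiece D a1 cm x5 st) (N.pPiece D a1 cm (Nat.add x5 st) st))
          (Nat.add (Nat.add (N.pPiece D a1 cm (Nat.add x5 (Nat.mul 2 st)) st)
            (N.pPiece D a1 cm (Nat.add x5 (Nat.mul 3 st)) st)) T)) := by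
      rw [vR_add, vR_add, vR_add, vR_add]
      have k1 : P5 * (((x5 : ℝ) + st) / 2 ^ 26 - (x5 : ℝ) / 2 ^ 26) = P5 * ((st : ℝ) / 2 ^ 26) := by ring
      have k2 : P7 * (((x5 : ℝ) + 2 * st) / 2 ^ 26 - ((x5 : ℝ) + st) / 2 ^ 26) = P7 * ((st : ℝ) / 2 ^ 26) := by ring
      have k3 : P8 * (((x5 : ℝ) + 3 * st) / 2 ^ 26 - ((x5 : ℝ) + 2 * st) / 2 ^ 26) = P8 * ((st : ℝ) / 2 ^ 26) := by
        ring
      have k4 : P9 * (((x5 : ℝ) + 4 * st) / 2 ^ 26 - ((x5 : ℝ) + 3 * st) / 2 ^ 26) = P9 * ((st : ℝ) / 2 ^ 26) := by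
        ring
      rw [k1, k2, k3, k4]
      linarith
    have hJ2 := sum_le_V _ _ hS1
    rw [hJ, vR_add] at hF
    generalize vR (Nat.shiftRight (Nat.add 2 (Nat.add (Nat.add (N.pPiece D a1 cm x5 st)
      (N.pPiece D a1 cm (Nat.add x5 st) st)) (Nat.add (Nat.add (N.pPiece D a1 cm (Nat.add x5 (Nat.mul 2 st)) st)
      (N.pPiece D a1 cm (Nat.add x5 (Nat.mul 3 st)) st)) T))) 1) = J2 at hF hJ2
    have hJ20 : 0 ≤ J2 := by
      refine le_trans ?_ hJ2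
      have hgn : (16 : ℝ) ≤ D.B.gn := by exact_mod_cast hT.gn.1
      have k0 : 0 ≤ vR D.B.c0 ^ 2 * (((x5 : ℝ) + 4 * st) / 2 ^ 26) / (4 * ((D.B.gn : ℝ) / 32) - 1) := by
        refine div_nonneg (by positivity) (by linarith)
      have k1 : 0 ≤ P5 * (((x5 : ℝ) + st) / 2 ^ 26 - (x5 : ℝ) / 2 ^ 26) := by
        refine mul_nonneg hP50 ?_
        have : ((x5 : ℝ) + st) / 2 ^ 26 - (x5 : ℝ) / 2 ^ 26 = (st : ℝ) / 2 ^ 26 := by ring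
        rw [this]; positivity
      have k2 : 0 ≤ P7 * (((x5 : ℝ) + 2 * st) / 2 ^ 26 - ((x5 : ℝ) + st) / 2 ^ 26) := by
        refine mul_nonneg hP70 ?_
        have : ((x5 : ℝ) + 2 * st) / 2 ^ 26 - ((x5 : ℝ) + st) / 2 ^ 26 = (st : ℝ) / 2 ^ 26 := by ring
        rw [this]; positivity
      have k3 : 0 ≤ P8 * (((x5 : ℝ) + 3 * st) / 2 ^ 26 - ((x5 : ℝ) + 2 * st) / 2 ^ 26) := by
        refine mul_nonneg hP80 ?_
        have : ((x5 : ℝ) + 3 * st) / 2 ^ 26 - ((x5 : ℝ) + 2 * st) / 2 ^ 26 = (st : ℝ) / 2 ^ 26 := by ring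
        rw [this]; positivity
      have k4 : 0 ≤ P9 * (((x5 : ℝ) + 4 * st) / 2 ^ 26 - ((x5 : ℝ) + 3 * st) / 2 ^ 26) := by
        refine mul_nonneg hP90 ?_
        have : ((x5 : ℝ) + 4 * st) / 2 ^ 26 - ((x5 : ℝ) + 3 * st) / 2 ^ 26 = (st : ℝ) / 2 ^ 26 := by ring
        rw [this]; positivity
      linarith
    have hUl := U_le he0 hU
    have hR : (x5 : ℝ) / 2 ^ 26 ≤ (x3 : ℝ) / 2 ^ 26 ∨
        ((∀ ξ, (x3 : ℝ) / 2 ^ 26 ≤ ξ → |f0 θ (t i * ξ ^ 2) * f0 θ (t k * ξ ^ 2)| ≤ vR P3) ∧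
          vR (N.mM D) * vR P3 ≤ vR (cond (Nat.ble x5 x3) 0 J3) * (aR e0 * ((x3 : ℝ) / 2 ^ 26))) := by
      cases hb : Nat.ble x5 x3
      · right
        simp only [cond_false]
        exact ⟨q8, q9⟩
      · left
        have h : (x5 : ℝ) ≤ x3 := by exact_mod_cast ble_elim hb
        gcongr
    refine hkey J2 (vR (cond (Nat.ble x5 x3) 0 J3)) (vR (N.uu D (Nat.mul 256 a1)) * vR (N.uu D (Nat.mul 256 cm)))
      (vR (N.v2u D)) ((x1 : ℝ) / 2 ^ 26) ((x2 : ℝ) / 2 ^ 26) ((x3 : ℝ) / 2 ^ 26) L hSx hik hmax ha1R hai1 hai2 hpos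
      heps hE1 he01 hcm0' hT.mb hM1 hx1R q1 h12R hq2' q4 hx3R q3 q5 q6 q7 hJ20 (vR_nonneg _)
      (Or.inr ⟨(x5 : ℝ) / 2 ^ 26, ((x5 : ℝ) + 4 * st) / 2 ^ 26, ((x5 : ℝ) + st) / 2 ^ 26,
        ((x5 : ℝ) + 2 * st) / 2 ^ 26, ((x5 : ℝ) + 3 * st) / 2 ^ 26, P5, P7, P8, P9, ?_, q10, ?_, ?_, ?_, ?_, q11,
        hR, hP5, hP7, hP8, hP9, hJ2⟩) ?_ (mul_nonneg (vR_nonneg _) (vR_nonneg _)) hL hV ?_
    · have h : (x2 : ℝ) ≤ x5 := by exact_mod_cast h52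
      gcongr
    · gcongr; linarith
    · gcongr; linarith
    · gcongr; linarith
    · gcongr; linarith
    · intro ξ hξ
      have hb : ∀ (a : ℕ) (a' : ℝ), aR a ≤ a' → aR (Nat.mul 256 a) ≤ a' * ξ ^ 2 := by
        intro a a' ha
        have e256 : ((256 : ℕ) : ℝ) = 256 := by norm_num
        have : aR (Nat.mul 256 a) = aR a * 16 ^ 2 := by
          unfold aR; rw [mul_cast, e256]; ring
        rw [this]
        have ha0 : 0 ≤ a' := (aR_nonneg a).trans ha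
        gcongr
      have h1 := (hT.uu _ _ (hb a1 (t i) hai1)).1
      have h2 := (hT.uu _ _ (hb cm (t k) hck)).1
      have h3 : |f0 θ (t i * ξ ^ 2) * f0 θ (t k * ξ ^ 2)| ≤
          vR (N.uu D (Nat.mul 256 a1)) * vR (N.uu D (Nat.mul 256 cm)) := by
        rw [abs_mul]
        exact mul_le_mul h1 h2 (abs_nonneg _) (vR_nonneg _)
      exact neg_le_of_abs_le h3
    · refine lt_of_lt_of_le hF (mul_le_mul_of_nonneg_right ?_ hsq)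
      linarith
  · rw [hni] at hJ hU
    simp only [cond_true] at hJ hU
    have hneg : ∀ y, z < y → f0 θ y < 0 := by
      intro y hy
      rcases le_total y (xR D.I.kN) with h | h
      · exact hRL.2.2.1 y hy h
      · exact hT.ni hni y (hFA.mN.trans h)
    refine hkey 0 (vR J3) 0 (vR (N.v2u D)) ((x1 : ℝ) / 2 ^ 26) ((x2 : ℝ) / 2 ^ 26) ((x3 : ℝ) / 2 ^ 26) L hSx hik hmax
      ha1R hai1 hai2 hpos heps hE1 he01 hcm0' hT.mb hM1 hx1R q1 h12R hq2' q4 hx3R q3 q5 q6 q7 (le_refl _)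
      (vR_nonneg _) (Or.inl ⟨hT.ni hni, q8, q9⟩) ?_ (le_refl _) hL hV ?_
    · intro ξ hξ
      have hk : z < t k * ξ ^ 2 := by
        have e256 : ((256 : ℕ) : ℝ) = 256 := by norm_num
        have h1 : ((N.zR D : ℕ) : ℝ) ≤ 256 * cm := by
          have : ((N.zR D : ℕ) : ℝ) ≤ ((Nat.mul 256 cm : ℕ) : ℝ) := by exact_mod_cast g4
          rw [mul_cast, e256] at this
          exact this
        have h2 : aR (N.zR D) ≤ aR cm * 16 ^ 2 := by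
          unfold aR
          calc ((N.zR D : ℕ) : ℝ) / 2 ^ 26 ≤ (256 * cm) / 2 ^ 26 := by gcongr
            _ = _ := by ring
        have h3 : aR cm * 16 ^ 2 ≤ t k * ξ ^ 2 := by gcongr
        linarith
      have hi : z < t i * ξ ^ 2 := by
        have : t k * ξ ^ 2 ≤ t i * ξ ^ 2 := by gcongr
        linarith
      have := mul_pos_of_neg_of_neg (hneg _ hi) (hneg _ hk)
      linarith
    · have hz0 : vR 0 = 0 := by unfold vR; simp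
      rw [hJ, hU, hz0] at hF
      refine lt_of_lt_of_le hF (mul_le_mul_of_nonneg_right ?_ hsq)
      rw [zero_div]
      linarith

end Pool.Agent.Helper60.PT
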