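import Pool.Agent.Helper60.PT.Defs
import Mathlib.Analysis.Normed.Operator.Extend
import Mathlib.Analysis.Normed.Ring.InfiniteSum
import Mathlib.Analysis.Normed.Module.HahnBanach
import Mathlib.Analysis.Complex.Basic
import Mathlib.LinearAlgebra.TensorProduct.Basic
import Mathlib.Analysis.SpecificLimits.Basic
import Mathlib.Analysis.RCLike.Extend
import Mathlib.Logic.Equiv.Nat

/-!
# Projective tensor products

`IsProj ι` says that the Banach algebra `C`, with the bilinear map `ι : A × B → C`, is the projective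
tensor product of the Banach algebras `A` and `B`: the completion of the algebraic tensor product in
the projective norm, with the multiplication `(a ⊗ b) (a' ⊗ b') = a a' ⊗ b b'`.
-/

namespace Pool.Agent.Helper60.PT

open scoped TensorProduct
open Finset

section space

variable {E F : Type*} [NormedAddCommGroup E] [NormedSpace ℂ E] [NormedAddCommGroup F]
  [NormedSpace ℂ F]

theorem rep_nonempty (t : E ⊗[ℂ] F) : ∃ (n : ℕ) (a : ℕ → E) (b : ℕ → F),
    t = ∑ i ∈ range n, a i ⊗ₜ[ℂ] b i := by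
  induction t with
  | zero => exact ⟨0, 0, 0, by simp⟩
  | tmul a b => exact ⟨1, fun _ => a, fun _ => b, by simp⟩
  | add s t hs ht =>
    obtain ⟨n, a, b, h⟩ := hs
    obtain ⟨m, a', b', h'⟩ := ht
    refine ⟨n + m, fun i => if i < n then a i else a' (i - n),
      fun i => if i < n then b i else b' (i - n), ?_⟩
    rw [sum_range_add, h, h']
    congr 1
    · refine sum_congr rfl fun i hi => ?_
      simp only [if_pos (mem_range.1 hi)]
    · refine sum_congr rfl fun i _ => ?_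
      simp

theorem projSet_bdd (t : E ⊗[ℂ] F) : BddBelow {r : ℝ | ∃ (n : ℕ) (a : ℕ → E) (b : ℕ → F),
    t = ∑ i ∈ range n, a i ⊗ₜ[ℂ] b i ∧ r = ∑ i ∈ range n, ‖a i‖ * ‖b i‖} := by
  refine ⟨0, ?_⟩
  rintro r ⟨n, a, b, -, rfl⟩
  exact sum_nonneg fun i _ => mul_nonneg (norm_nonneg _) (norm_nonneg _)

theorem projNorm_le {t : E ⊗[ℂ] F} (n : ℕ) (a : ℕ → E) (b : ℕ → F)
    (h : t = ∑ i ∈ range n, a i ⊗ₜ[ℂ] b i) : projNorm t ≤ ∑ i ∈ range n, ‖a i‖ * ‖b i‖ :=
  csInf_le (projSet_bdd t) ⟨n, a, b, h, rfl⟩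

theorem projNorm_nonneg (t : E ⊗[ℂ] F) : 0 ≤ projNorm t := by
  obtain ⟨n, a, b, h⟩ := rep_nonempty t
  refine le_csInf ⟨_, n, a, b, h, rfl⟩ ?_
  rintro r ⟨n, a, b, -, rfl⟩
  exact sum_nonneg fun i _ => mul_nonneg (norm_nonneg _) (norm_nonneg _)

theorem exists_rep {t : E ⊗[ℂ] F} {r : ℝ} (hr : projNorm t < r) :
    ∃ (n : ℕ) (a : ℕ → E) (b : ℕ → F), t = ∑ i ∈ range n, a i ⊗ₜ[ℂ] b i ∧
      ∑ i ∈ range n, ‖a i‖ * ‖b i‖ < r := by
  obtain ⟨n, a, b, h⟩ := rep_nonempty t
  have hne : {r : ℝ | ∃ (n : ℕ) (a : ℕ → E) (b : ℕ → F),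
      t = ∑ i ∈ range n, a i ⊗ₜ[ℂ] b i ∧ r = ∑ i ∈ range n, ‖a i‖ * ‖b i‖}.Nonempty :=
    ⟨_, n, a, b, h, rfl⟩
  obtain ⟨s, ⟨n, a, b, h1, rfl⟩, hs⟩ := exists_lt_of_csInf_lt hne hr
  exact ⟨n, a, b, h1, hs⟩

theorem norm_lift_le {G : Type*} [SeminormedAddCommGroup G] [NormedSpace ℂ G]
    (V : E →ₗ[ℂ] F →ₗ[ℂ] G) (M : ℝ) (hM : 0 ≤ M) (hV : ∀ a b, ‖V a b‖ ≤ M * (‖a‖ * ‖b‖))
    (t : E ⊗[ℂ] F) : ‖TensorProduct.lift V t‖ ≤ M * projNorm t := by
  refine le_of_forall_pos_le_add fun ε hε => ?_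
  obtain ⟨n, a, b, h, hs⟩ := exists_rep (t := t) (r := projNorm t + ε / (M + 1))
    (by have : 0 < ε / (M + 1) := by positivity
        linarith)
  calc ‖TensorProduct.lift V t‖ = ‖∑ i ∈ range n, V (a i) (b i)‖ := by
        rw [h, map_sum]
        simp
    _ ≤ ∑ i ∈ range n, M * (‖a i‖ * ‖b i‖) := norm_sum_le_of_le _ fun i _ => hV _ _
    _ = M * ∑ i ∈ range n, ‖a i‖ * ‖b i‖ := by rw [mul_sum]
    _ ≤ M * (projNorm t + ε / (M + 1)) := mul_le_mul_of_nonneg_left hs.le hM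
    _ = M * projNorm t + ε * (M / (M + 1)) := by ring
    _ ≤ M * projNorm t + ε := by
        have : M / (M + 1) ≤ 1 := by
          rw [div_le_one (by positivity)]
          linarith
        nlinarith

theorem projNorm_zero : projNorm (0 : E ⊗[ℂ] F) = 0 :=
  le_antisymm (by simpa using projNorm_le (t := (0 : E ⊗[ℂ] F)) 0 0 0 (by simp))
    (projNorm_nonneg _)

theorem projNorm_add_le (s t : E ⊗[ℂ] F) : projNorm (s + t) ≤ projNorm s + projNorm t := by
  refine le_of_forall_pos_le_add fun ε hε => ?_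
  obtain ⟨n, a, b, h, hs⟩ := exists_rep (t := s) (r := projNorm s + ε / 2) (by linarith)
  obtain ⟨m, a', b', h', hs'⟩ := exists_rep (t := t) (r := projNorm t + ε / 2) (by linarith)
  have h1 := projNorm_le (t := s + t) (n + m) (fun i => if i < n then a i else a' (i - n))
    (fun i => if i < n then b i else b' (i - n)) (by
      rw [sum_range_add, h, h']
      congr 1
      · refine sum_congr rfl fun i hi => ?_
        rw [if_pos (mem_range.1 hi), if_pos (mem_range.1 hi)]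
      · refine sum_congr rfl fun i _ => ?_
        simp)
  refine h1.trans ?_
  rw [sum_range_add]
  have h2 : ∑ i ∈ range n, ‖if i < n then a i else a' (i - n)‖ *
      ‖if i < n then b i else b' (i - n)‖ = ∑ i ∈ range n, ‖a i‖ * ‖b i‖ :=
    sum_congr rfl fun i hi => by rw [if_pos (mem_range.1 hi), if_pos (mem_range.1 hi)]
  have h3 : ∑ i ∈ range m, ‖if n + i < n then a (n + i) else a' (n + i - n)‖ *
      ‖if n + i < n then b (n + i) else b' (n + i - n)‖ = ∑ i ∈ range m, ‖a' i‖ * ‖b' i‖ :=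
    sum_congr rfl fun i hi => by simp
  rw [h2, h3]
  linarith

theorem projNorm_smul_le (c : ℂ) (t : E ⊗[ℂ] F) : projNorm (c • t) ≤ ‖c‖ * projNorm t := by
  refine le_of_forall_pos_le_add fun ε hε => ?_
  obtain ⟨n, a, b, h, hs⟩ := exists_rep (t := t) (r := projNorm t + ε / (‖c‖ + 1))
    (by have : 0 < ε / (‖c‖ + 1) := by positivity
        linarith)
  have h1 := projNorm_le (t := c • t) n (fun i => c • a i) b (by
    rw [h, smul_sum]
    simp [TensorProduct.smul_tmul'])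
  refine h1.trans ?_
  calc ∑ i ∈ range n, ‖c • a i‖ * ‖b i‖ = ‖c‖ * ∑ i ∈ range n, ‖a i‖ * ‖b i‖ := by
        rw [mul_sum]
        refine sum_congr rfl fun i _ => ?_
        rw [norm_smul]
        ring
    _ ≤ ‖c‖ * (projNorm t + ε / (‖c‖ + 1)) := mul_le_mul_of_nonneg_left hs.le (norm_nonneg _)
    _ = ‖c‖ * projNorm t + ε * (‖c‖ / (‖c‖ + 1)) := by ring
    _ ≤ ‖c‖ * projNorm t + ε := by
        have : ‖c‖ / (‖c‖ + 1) ≤ 1 := by
          rw [div_le_one (by positivity)]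
          linarith
        nlinarith

end space

section alg

variable {A B C : Type*} [NonUnitalNormedRing A] [NormedSpace ℂ A]
  [NonUnitalNormedRing B] [NormedSpace ℂ B] [NonUnitalNormedRing C] [NormedSpace ℂ C]

variable {ι : A →ₗ[ℂ] B →ₗ[ℂ] C} (h : IsProj ι)

namespace IsProj

include h

theorem norm_le (a : A) (b : B) : ‖ι a b‖ ≤ ‖a‖ * ‖b‖ := by
  have h1 := h.norm (a ⊗ₜ b)
  rw [TensorProduct.lift.tmul] at h1
  rw [h1]
  simpa using projNorm_le (t := a ⊗ₜ[ℂ] b) 1 (fun _ => a) (fun _ => b) (by simp)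

/-- Bounded bilinear maps extend. -/
theorem exists_ext {G : Type*} [NormedAddCommGroup G] [NormedSpace ℂ G] [CompleteSpace G]
    (V : A →ₗ[ℂ] B →ₗ[ℂ] G) (M : ℝ) (hM : 0 ≤ M) (hV : ∀ a b, ‖V a b‖ ≤ M * (‖a‖ * ‖b‖)) :
    ∃ S : C →L[ℂ] G, (∀ a b, S (ι a b) = V a b) ∧ ∀ c, ‖S c‖ ≤ M * ‖c‖ := by
  have h1 : ∀ t, ‖TensorProduct.lift V t‖ ≤ M * ‖TensorProduct.lift ι t‖ := by
    intro t
    rw [h.norm]
    exact norm_lift_le V M hM hV t
  refine ⟨(TensorProduct.lift V).extendOfNorm (TensorProduct.lift ι), fun a b => ?_,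
    fun c => LinearMap.norm_extendOfNorm_apply_le h.dense M h1 c⟩
  have h2 := LinearMap.extendOfNorm_eq (f := TensorProduct.lift V) h.dense ⟨M, h1⟩ (a ⊗ₜ b)
  rwa [TensorProduct.lift.tmul, TensorProduct.lift.tmul] at h2

/-- The slice maps for functionals on `A`. -/
theorem exists_sliceA [CompleteSpace B] (φ : A →L[ℂ] ℂ) :
    ∃ S : C →L[ℂ] B, ∀ a b, S (ι a b) = φ a • b := by
  obtain ⟨S, hS, -⟩ := h.exists_ext
    (LinearMap.mk₂ ℂ (fun a b => φ a • b) (by simp [add_smul]) (by simp [mul_smul])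
      (by simp) (by intro c a b; rw [smul_comm])) ‖φ‖ (norm_nonneg _) (fun a b => by
        rw [LinearMap.mk₂_apply, norm_smul, ← mul_assoc]
        exact mul_le_mul_of_nonneg_right (φ.le_opNorm a) (norm_nonneg _))
  exact ⟨S, hS⟩

/-- The slice maps for functionals on `B`. -/
theorem exists_sliceB [CompleteSpace A] (ψ : B →L[ℂ] ℂ) :
    ∃ S : C →L[ℂ] A, ∀ a b, S (ι a b) = ψ b • a := by
  obtain ⟨S, hS, -⟩ := h.exists_ext
    (LinearMap.mk₂ ℂ (fun a b => ψ b • a) (by simp) (by intro c a b; rw [smul_comm])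
      (by simp [add_smul]) (by simp [mul_smul])) ‖ψ‖ (norm_nonneg _) (fun a b => by
        rw [LinearMap.mk₂_apply, norm_smul, mul_comm ‖a‖, ← mul_assoc]
        exact mul_le_mul_of_nonneg_right (ψ.le_opNorm b) (norm_nonneg _))
  exact ⟨S, hS⟩

theorem norm_eq (a : A) (b : B) : ‖ι a b‖ = ‖a‖ * ‖b‖ := by
  refine le_antisymm (h.norm_le a b) ?_
  obtain ⟨φ, hφ, hφa⟩ := exists_dual_vector'' ℂ a
  obtain ⟨ψ, hψ, hψb⟩ := exists_dual_vector'' ℂ b
  obtain ⟨S, hS, hS1⟩ := h.exists_ext (G := ℂ)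
    (LinearMap.mk₂ ℂ (fun a b => φ a * ψ b) (by simp [add_mul]) (by simp [mul_assoc])
      (by simp [mul_add]) (by intro c a b; simp; ring)) 1 zero_le_one (fun a b => by
        rw [LinearMap.mk₂_apply, norm_mul, one_mul]
        exact mul_le_mul ((φ.le_opNorm a).trans (mul_le_of_le_one_left (norm_nonneg _) hφ))
          ((ψ.le_opNorm b).trans (mul_le_of_le_one_left (norm_nonneg _) hψ)) (norm_nonneg _)
          (norm_nonneg _))
  have h1 := hS1 (ι a b)
  rw [hS, LinearMap.mk₂_apply, one_mul, hφa, hψb, norm_mul] at h1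
  simpa using h1

theorem exists_series [CompleteSpace C] (c : C) : ∃ (a : ℕ → A) (b : ℕ → B),
    Summable (fun n => ‖a n‖ * ‖b n‖) ∧ HasSum (fun n => ι (a n) (b n)) c := by
  -- approximations
  have h1 : ∀ n : ℕ, ∃ t : A ⊗[ℂ] B, ‖c - TensorProduct.lift ι t‖ < (1 / 2) ^ n := by
    intro n
    obtain ⟨t, ht⟩ := h.dense.exists_dist_lt c (show (0 : ℝ) < (1 / 2) ^ n by positivity)
    exact ⟨t, by rwa [dist_eq_norm] at ht⟩
  choose t ht using h1
  obtain ⟨d, hd⟩ : ∃ d : ℕ → A ⊗[ℂ] B, ∀ n, d n = if n = 0 then t 0 else t n - t (n - 1) :=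
    ⟨_, fun n => rfl⟩
  have hsum : ∀ n, ∑ i ∈ range (n + 1), d i = t n := by
    intro n
    induction n with
    | zero => simp [hd]
    | succ n ih =>
      rw [sum_range_succ, ih, hd]
      simp
  have hdn : ∀ n, projNorm (d n) ≤ (‖c‖ + 3) * (1 / 2) ^ n := by
    intro n
    rw [← h.norm, hd]
    split_ifs with hn
    · subst hn
      have h2 := ht 0
      have h3 : TensorProduct.lift ι (t 0) = c - (c - TensorProduct.lift ι (t 0)) := by abel
      rw [h3]
      refine (norm_sub_le _ _).trans ?_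
      simp at h2 ⊢
      linarith
    · obtain ⟨m, rfl⟩ : ∃ m, n = m + 1 := ⟨n - 1, by omega⟩
      have h2 := ht (m + 1)
      have h3 := ht m
      rw [map_sub]
      simp only [Nat.add_sub_cancel]
      have h4 : TensorProduct.lift ι (t (m + 1)) - TensorProduct.lift ι (t m) =
        (c - TensorProduct.lift ι (t m)) - (c - TensorProduct.lift ι (t (m + 1))) := by abel
      rw [h4]
      refine (norm_sub_le _ _).trans ?_
      have h5 : (1 / 2 : ℝ) ^ m = 2 * (1 / 2) ^ (m + 1) := by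
        rw [pow_succ]
        ring
      have h6 : (0 : ℝ) < (1 / 2) ^ (m + 1) := by positivity
      nlinarith [norm_nonneg c]
  have h2 : ∀ n, ∃ (N : ℕ) (a : ℕ → A) (b : ℕ → B), d n = ∑ i ∈ range N, a i ⊗ₜ[ℂ] b i ∧
      ∑ i ∈ range N, ‖a i‖ * ‖b i‖ < (‖c‖ + 4) * (1 / 2) ^ n := by
    intro n
    refine exists_rep ((hdn n).trans_lt ?_)
    have : (0 : ℝ) < (1 / 2) ^ n := by positivity
    nlinarith
  choose N a b hab hab2 using h2
  obtain ⟨a', ha'⟩ : ∃ a' : ℕ × ℕ → A, ∀ p, a' p = if p.2 < N p.1 then a p.1 p.2 else 0 :=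
    ⟨_, fun p => rfl⟩
  have hsup : ∀ n, Function.support (fun i => ‖a' (n, i)‖ * ‖b n i‖) ⊆ range (N n) := by
    intro n i hi
    by_contra hni
    have : ¬ i < N n := fun h => hni (by simpa using h)
    simp [ha', this] at hi
  have hfin : ∀ n, ∑' i, ‖a' (n, i)‖ * ‖b n i‖ = ∑ i ∈ range (N n), ‖a n i‖ * ‖b n i‖ := by
    intro n
    rw [tsum_eq_sum (s := range (N n))]
    · refine sum_congr rfl fun i hi => ?_
      rw [ha', if_pos (by simpa using hi)]
    · intro i hi
      by_contra hne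
      exact hi (by simpa using hsup n hne)
  have hS : Summable (fun p : ℕ × ℕ => ‖a' p‖ * ‖b p.1 p.2‖) := by
    rw [summable_prod_of_nonneg (fun p => by positivity)]
    refine ⟨fun n => summable_of_hasFiniteSupport ((range (N n)).finite_toSet.subset (hsup n)), ?_⟩
    refine Summable.of_nonneg_of_le (fun n => tsum_nonneg fun i => by positivity) (fun n => ?_)
      ((summable_geometric_of_lt_one (by norm_num) (by norm_num :
        (1 / 2 : ℝ) < 1)).mul_left (‖c‖ + 4))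
    exact (hfin n).trans_le (hab2 n).le
  have hS2 : Summable (fun p : ℕ × ℕ => ι (a' p) (b p.1 p.2)) :=
    Summable.of_norm_bounded hS fun p => h.norm_le _ _
  have hrow : ∀ n, HasSum (fun i => ι (a' (n, i)) (b n i)) (TensorProduct.lift ι (d n)) := by
    intro n
    rw [hab n, map_sum]
    have h3 : ∑ i ∈ range (N n), TensorProduct.lift ι (a n i ⊗ₜ b n i) =
        ∑ i ∈ range (N n), ι (a' (n, i)) (b n i) := by
      refine sum_congr rfl fun i hi => ?_
      rw [TensorProduct.lift.tmul, ha', if_pos (by simpa using hi)]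
    rw [h3]
    refine hasSum_sum_of_ne_finset_zero fun i hi => ?_
    have : ¬ i < N n := fun h => hi (by simpa using h)
    simp [ha', this]
  have hcs : HasSum (fun n => TensorProduct.lift ι (d n)) c := by
    have hsm : Summable (fun n => TensorProduct.lift ι (d n)) :=
      hS2.hasSum.prod_fiberwise hrow |>.summable
    have h3 : Filter.Tendsto (fun n => ∑ i ∈ range (n + 1), TensorProduct.lift ι (d i))
        Filter.atTop (nhds c) := by
      have h4 : ∀ n, ∑ i ∈ range (n + 1), TensorProduct.lift ι (d i) =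
          TensorProduct.lift ι (t n) := by
        intro n
        rw [← map_sum, hsum]
      simp only [h4]
      rw [tendsto_iff_norm_sub_tendsto_zero]
      refine squeeze_zero (fun n => norm_nonneg _) (fun n => ?_)
        (tendsto_pow_atTop_nhds_zero_of_lt_one (by norm_num : (0 : ℝ) ≤ 1 / 2) (by norm_num))
      rw [norm_sub_rev]
      exact (ht n).le
    have h4 := (Filter.tendsto_add_atTop_iff_nat 1).2 hsm.hasSum.tendsto_sum_nat
    rw [tendsto_nhds_unique h3 h4]
    exact hsm.hasSum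
  have hfinal : HasSum (fun p : ℕ × ℕ => ι (a' p) (b p.1 p.2)) c := by
    have h5 := hS2.hasSum.prod_fiberwise hrow
    rw [← h5.unique hcs]
    exact hS2.hasSum
  refine ⟨fun n => a' (Nat.unpair n), fun n => b (Nat.unpair n).1 (Nat.unpair n).2, ?_, ?_⟩
  · exact (Equiv.summable_iff Nat.pairEquiv.symm).2 hS
  · exact (Equiv.hasSum_iff Nat.pairEquiv.symm).2 hfinal

end IsProj

end alg

end Pool.Agent.Helper60.PT
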