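import Pool.Agent.Helper60.PT.Defs
import Mathlib.Analysis.Normed.Algebra.GelfandFormula
import Mathlib.Analysis.Normed.Algebra.UnitizationL1
import Mathlib.Analysis.CStarAlgebra.Spectrum
import Mathlib.Analysis.CStarAlgebra.Unitization
import Mathlib.Analysis.CStarAlgebra.ContinuousFunctionalCalculus.Instances
import Mathlib.RingTheory.Jacobson.Ideal

/-!
# The Jacobson radical of a Banach algebra without unit
-/

namespace Pool.Agent.Helper60.PT

open scoped NNReal ENNReal
open Filter Topology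

/-! ### Rings -/

theorem mem_jacobson_iff {R : Type*} [Ring R] (x : R) :
    x ∈ Ring.jacobson R ↔ ∀ y, IsUnit (1 + y * x) := by
  rw [← Ideal.jacobson_bot, Ideal.mem_jacobson_iff]
  constructor
  · intro h y
    -- left inverses
    have h1 : ∀ y, ∃ z, z * (1 + y * x) = 1 := by
      intro y
      obtain ⟨z, hz⟩ := h y
      refine ⟨z, ?_⟩
      rw [Ideal.mem_bot, sub_eq_zero] at hz
      rw [mul_add, mul_one, ← mul_assoc, add_comm]
      exact hz
    obtain ⟨z, hz⟩ := h1 y
    have h2 : z = 1 + (-(z * y)) * x := by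
      rw [mul_add, mul_one, ← mul_assoc] at hz
      rw [← hz]
      noncomm_ring
    obtain ⟨u, hu⟩ := h1 (-(z * y))
    rw [← h2] at hu
    -- `u z = 1`, `z (1 + y x) = 1`
    have h3 : u = 1 + y * x := by
      calc u = u * (z * (1 + y * x)) := by rw [hz, mul_one]
        _ = 1 + y * x := by rw [← mul_assoc, hu, one_mul]
    rw [h3] at hu
    exact ⟨⟨1 + y * x, z, hu, hz⟩, rfl⟩
  · intro h y
    obtain ⟨u, hu⟩ := h y
    refine ⟨(u⁻¹ : Rˣ), ?_⟩
    rw [Ideal.mem_bot, sub_eq_zero]
    have h1 : ((u⁻¹ : Rˣ) : R) * (1 + y * x) = 1 := by rw [← hu, Units.inv_mul]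
    rw [mul_add, mul_one, ← mul_assoc, add_comm] at h1
    exact h1

section

variable {A : Type*} [NonUnitalNormedRing A] [NormedSpace ℂ A] [IsScalarTower ℂ A A]
  [SMulCommClass ℂ A A]

/-- The unitization, as a Banach algebra. -/
abbrev UU (A : Type*) [NonUnitalNormedRing A] [NormedSpace ℂ A] := WithLp 1 (Unitization ℂ A)

/-- The embedding in the unitization. -/
noncomputable def jj (a : A) : UU A := WithLp.toLp 1 (a : Unitization ℂ A)

theorem jj_add (a b : A) : jj (a + b) = jj a + jj b := by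
  unfold jj
  rw [Unitization.inr_add, WithLp.toLp_add]

theorem jj_mul (a b : A) : jj (a * b) = jj a * jj b := by
  unfold jj
  rw [Unitization.inr_mul]
  rfl

theorem norm_jj (a : A) : ‖jj a‖ = ‖a‖ := WithLp.unitization_norm_inr a

theorem mul_jj (w : UU A) (a : A) : ∃ b : A, w * jj a = jj b := by
  refine ⟨w.ofLp.fst • a + w.ofLp.snd * a, ?_⟩
  apply (WithLp.equiv 1 (Unitization ℂ A)).injective
  show w.ofLp * (a : Unitization ℂ A) = ((w.ofLp.fst • a + w.ofLp.snd * a : A) : Unitization ℂ A)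
  ext <;> simp

theorem jj_mul' (w : UU A) (a : A) : ∃ b : A, jj a * w = jj b := by
  refine ⟨w.ofLp.fst • a + a * w.ofLp.snd, ?_⟩
  apply (WithLp.equiv 1 (Unitization ℂ A)).injective
  show (a : Unitization ℂ A) * w.ofLp = ((w.ofLp.fst • a + a * w.ofLp.snd : A) : Unitization ℂ A)
  ext <;> simp

theorem inRad_iff (a : A) : InRad a ↔ ∀ w : UU A, IsUnit (1 + w * jj a) := by
  unfold InRad
  rw [mem_jacobson_iff]
  have key : ∀ w : UU A, IsUnit (1 + w * jj a) ↔ IsUnit (1 + w.ofLp * (a : Unitization ℂ A)) := by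
    intro w
    exact (MulEquiv.isUnit_map (WithLp.unitizationAlgEquiv (𝕜 := ℂ) (A := A) ℂ)
      (x := 1 + w * jj a)).symm
  constructor
  · intro h w
    rw [key]
    exact h _
  · intro h y
    have := (key (WithLp.toLp 1 y)).1 (h _)
    exact this

theorem inRad_iff' (a : A) : InRad a ↔ jj a ∈ Ring.jacobson (UU A) := by
  rw [inRad_iff, mem_jacobson_iff]

theorem inRad_mul {a : A} (h : InRad a) (c d : A) : InRad (c * a * d) := by
  rw [inRad_iff'] at h ⊢
  rw [jj_mul, jj_mul]
  exact Ideal.mul_mem_right _ _ (Ideal.mul_mem_left _ _ h)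

/-- The radical as a subspace. -/
noncomputable def radS (A : Type*) [NonUnitalNormedRing A] [NormedSpace ℂ A] [IsScalarTower ℂ A A]
    [SMulCommClass ℂ A A] : Submodule ℂ A where
  carrier := {a | InRad a}
  add_mem' {a b} ha hb := by
    rw [Set.mem_ofPred_eq, inRad_iff'] at *
    rw [jj_add]
    exact Ideal.add_mem _ ha hb
  zero_mem' := by
    rw [Set.mem_ofPred_eq, inRad_iff]
    intro w
    have : jj (0 : A) = 0 := by
      have := jj_add (0 : A) 0
      rw [add_zero] at this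
      simpa using this
    rw [this, mul_zero, add_zero]
    exact isUnit_one
  smul_mem' c a ha := by
    rw [Set.mem_ofPred_eq, inRad_iff'] at *
    have : jj (c • a) = algebraMap ℂ (UU A) c * jj a := by
      apply (WithLp.equiv 1 (Unitization ℂ A)).injective
      show ((c • a : A) : Unitization ℂ A) = algebraMap ℂ (Unitization ℂ A) c * (a : Unitization ℂ A)
      rw [Unitization.algebraMap_eq_inl, Unitization.inl_mul_inr]
    rw [this]
    exact Ideal.mul_mem_left _ _ ha

theorem mem_radS (a : A) : a ∈ radS A ↔ InRad a := Iff.rfl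

theorem continuous_jj : Continuous (jj : A → UU A) := WithLp.unitization_isometry_inr.continuous

theorem isClosed_radS [CompleteSpace A] : IsClosed (radS A : Set A) := by
  have h1 : (radS A : Set A) = jj ⁻¹' (Ring.jacobson (UU A) : Set (UU A)) := by
    ext a
    exact inRad_iff' a
  rw [h1]
  refine IsClosed.preimage continuous_jj ?_
  rw [Ring.jacobson_eq_sInf_isMaximal]
  have h2 : ((sInf {I : Ideal (UU A) | I.IsMaximal} : Ideal (UU A)) : Set (UU A)) =
      ⋂ I ∈ {I : Ideal (UU A) | I.IsMaximal}, (I : Set (UU A)) := by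
    simp
  rw [h2]
  refine isClosed_biInter fun I hI => ?_
  have : I.IsMaximal := hI
  exact Ideal.IsMaximal.isClosed

/-! ### Spectra -/

theorem spectralRadius_le_of_rad [CompleteSpace A] {r : A} (hr : InRad r) (s : A) :
    spectralRadius ℂ (jj (r + s)) ≤ ‖s‖₊ := by
  refine iSup₂_le fun μ hμ => ?_
  by_contra hlt
  rw [not_le] at hlt
  have hlt' : ‖s‖ < ‖μ‖ := by
    have : ‖s‖₊ < ‖μ‖₊ := by exact_mod_cast hlt
    exact_mod_cast this
  have h1 : ‖(1 : UU A)‖ = 1 := by
    rw [WithLp.unitization_norm_def]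
    show ‖(1 : Unitization ℂ A).fst‖ + ‖(1 : Unitization ℂ A).snd‖ = 1
    simp
  have h2 : μ ∈ resolventSet ℂ (jj s) := by
    apply spectrum.mem_resolventSet_of_norm_lt_mul
    rw [h1, mul_one, norm_jj]
    exact hlt'
  obtain ⟨u, hu⟩ := h2
  have h3 := (inRad_iff r).1 hr (-((u⁻¹ : (UU A)ˣ) : UU A))
  apply hμ
  show IsUnit (algebraMap ℂ (UU A) μ - jj (r + s))
  have h4 : algebraMap ℂ (UU A) μ - jj (r + s) =
      (u : UU A) * (1 + -((u⁻¹ : (UU A)ˣ) : UU A) * jj r) := by
    rw [mul_add, mul_one, neg_mul, mul_neg, ← mul_assoc, Units.mul_inv, one_mul, hu, jj_add]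
    abel
  rw [h4]
  exact u.isUnit.mul h3

theorem spectralRadius_eq_of_norm {R S : Type*} [NormedRing R] [NormedAlgebra ℂ R]
    [CompleteSpace R] [NormedRing S] [NormedAlgebra ℂ S] [CompleteSpace S] (x : R) (y : S)
    (h : ∀ n : ℕ, 1 ≤ n → ‖x ^ n‖ = ‖y ^ n‖) : spectralRadius ℂ x = spectralRadius ℂ y := by
  have h1 := spectrum.pow_nnnorm_pow_one_div_tendsto_nhds_spectralRadius x
  have h2 := spectrum.pow_nnnorm_pow_one_div_tendsto_nhds_spectralRadius y
  refine tendsto_nhds_unique h1 (h2.congr' ?_)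
  filter_upwards [eventually_ge_atTop 1] with n hn
  have : ‖x ^ n‖₊ = ‖y ^ n‖₊ := by
    ext
    exact h n hn
  rw [this]

theorem inRad_of_spectralRadius {b : A}
    (h : ∀ c d : A, spectralRadius ℂ (jj (c * b * d)) = 0) : InRad b := by
  rw [inRad_iff]
  intro w
  obtain ⟨d, hd⟩ := mul_jj w b
  obtain ⟨c, hc⟩ := jj_mul' w d
  have h1 : (w * jj b) ^ 3 = jj (c * b * d) := by
    rw [jj_mul, jj_mul, ← hc, ← hd]
    noncomm_ring
  have h2 : ∀ k ∈ spectrum ℂ (w * jj b), k = 0 := by
    intro k hk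
    have h3 : k ^ 3 ∈ spectrum ℂ ((w * jj b) ^ 3) := spectrum.pow_mem_pow _ 3 hk
    rw [h1] at h3
    have h4 : (‖k ^ 3‖₊ : ℝ≥0∞) ≤ spectralRadius ℂ (jj (c * b * d)) :=
      le_iSup₂ (f := fun (k : ℂ) (_ : k ∈ spectrum ℂ (jj (c * b * d))) => (‖k‖₊ : ℝ≥0∞)) _ h3
    rw [h c d] at h4
    have h5 : ‖k ^ 3‖₊ = 0 := by
      have := le_antisymm h4 zero_le
      exact_mod_cast this
    rw [nnnorm_eq_zero] at h5
    exact pow_eq_zero_iff (by norm_num) |>.1 h5
  have h6 : (-1 : ℂ) ∉ spectrum ℂ (w * jj b) := by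
    intro h7
    have := h2 _ h7
    norm_num at this
  rw [spectrum.notMem_iff] at h6
  have h8 : algebraMap ℂ (UU A) (-1) - w * jj b = -(1 + w * jj b) := by
    rw [map_neg, map_one]
    abel
  rw [h8] at h6
  exact (IsUnit.neg_iff _).1 h6

end

/-- C*-algebras are semisimple. -/
theorem semisimple_cstar (A : Type*) [NonUnitalCStarAlgebra A] : Semisimple A := by
  intro a ha
  have h1 : (star (a : Unitization ℂ A) * (a : Unitization ℂ A)) ∈
      Ring.jacobson (Unitization ℂ A) := Ideal.mul_mem_left _ _ ha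
  rw [mem_jacobson_iff] at h1
  have h2 : ∀ k ∈ spectrum ℂ (star (a : Unitization ℂ A) * (a : Unitization ℂ A)), k = 0 := by
    intro k hk
    by_contra hk0
    apply hk
    have h3 := h1 (algebraMap ℂ _ (-k⁻¹))
    have h4 : algebraMap ℂ (Unitization ℂ A) k - star (a : Unitization ℂ A) * a =
        algebraMap ℂ (Unitization ℂ A) k *
          (1 + algebraMap ℂ (Unitization ℂ A) (-k⁻¹) * (star (a : Unitization ℂ A) * a)) := by
      rw [mul_add, mul_one, ← mul_assoc, ← map_mul, mul_neg, mul_inv_cancel₀ hk0, map_neg,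
        map_one, neg_mul, one_mul, sub_eq_add_neg]
    show IsUnit (algebraMap ℂ (Unitization ℂ A) k - star (a : Unitization ℂ A) * a)
    rw [h4]
    refine IsUnit.mul ?_ h3
    exact (IsUnit.mk0 k hk0).map (algebraMap ℂ (Unitization ℂ A))
  have h3 : spectralRadius ℂ (star (a : Unitization ℂ A) * (a : Unitization ℂ A)) = 0 := by
    refine le_antisymm (iSup₂_le fun k hk => ?_) zero_le
    rw [h2 k hk]
    simp
  rw [IsSelfAdjoint.spectralRadius_eq_nnnorm (IsSelfAdjoint.star_mul_self _)] at h3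
  have h4 : ‖star (a : Unitization ℂ A) * (a : Unitization ℂ A)‖₊ = 0 := by exact_mod_cast h3
  have h5 : ‖star (a : Unitization ℂ A) * (a : Unitization ℂ A)‖ = 0 := by
    rw [← coe_nnnorm, h4]
    rfl
  rw [CStarRing.norm_star_mul_self, mul_self_eq_zero, Unitization.norm_inr, norm_eq_zero] at h5
  exact h5

end Pool.Agent.Helper60.PT
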