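import Pool.Agent.Helper60.PT.Exc
import Pool.Agent.Helper60.PT.Proj
import Pool.Agent.Helper60.PT.Rad
import Mathlib.Analysis.Normed.Group.Tannery
import Mathlib.Topology.Algebra.Module.ContinuousLinearMap.Quotient
import Mathlib.Analysis.Normed.Group.Quotient

/-!
# Slices of the radical

Let `A` be a C*-algebra and `B` a Banach algebra. If `u` is in the radical of the projective tensor
product, then `(φ ⊗ id) u` is in the radical of `B` for every functional `φ` on `A`.
-/

namespace Pool.Agent.Helper60.PT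

open scoped NNReal ENNReal TensorProduct
open Filter Topology

/-! ### Powers -/

/-- `P x n = x ^ (n + 1)`. -/
def P {R : Type*} [Mul R] (x : R) : ℕ → R
  | 0 => x
  | n + 1 => P x n * x

section powers

variable {A : Type*} [NonUnitalCStarAlgebra A]

theorem P_add {R : Type*} [Semigroup R] (x : R) (m n : ℕ) : P x (m + n + 1) = P x m * P x n := by
  induction n with
  | zero => rfl
  | succ n ih =>
    have h1 : P x (m + (n + 1) + 1) = P x (m + n + 1) * x := rfl
    have h2 : P x (n + 1) = P x n * x := rfl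
    rw [h1, ih, h2, mul_assoc]

theorem P_star {a : A} (ha : IsSelfAdjoint a) (n : ℕ) : IsSelfAdjoint (P a n) := by
  induction n with
  | zero => exact ha
  | succ n ih =>
    have h2 : P a (n + 1) = P a n * a := rfl
    have h3 : P a (n + 1) = a * P a n := by
      have := P_add a 0 n
      rwa [zero_add] at this
    show star (P a (n + 1)) = P a (n + 1)
    rw [h2, star_mul, ih.star_eq, ha.star_eq, ← h3, h2]

theorem P_norm {a : A} (ha : IsSelfAdjoint a) (ha1 : ‖a‖ = 1) (n : ℕ) : ‖P a n‖ = 1 := by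
  have hanti : Antitone fun n => ‖P a n‖ := by
    refine antitone_nat_of_succ_le fun n => ?_
    have h2 : P a (n + 1) = P a n * a := rfl
    rw [h2]
    refine (norm_mul_le _ _).trans ?_
    rw [ha1, mul_one]
  have h2 : ∀ k : ℕ, ‖P a (2 ^ k - 1)‖ = 1 := by
    intro k
    induction k with
    | zero => exact ha1
    | succ k ih =>
      have h3 : 2 ^ (k + 1) - 1 = (2 ^ k - 1) + (2 ^ k - 1) + 1 := by
        have : 1 ≤ 2 ^ k := Nat.one_le_two_pow
        rw [pow_succ]
        omega
      rw [h3, P_add, norm_sq (P_star ha _), ih, one_mul]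
  apply le_antisymm
  · exact (hanti (Nat.zero_le n)).trans_eq ha1
  · rw [← h2 n]
    refine hanti ?_
    have : n < 2 ^ n := Nat.lt_two_pow_self
    omega

end powers

theorem jj_P {A : Type*} [NonUnitalNormedRing A] [NormedSpace ℂ A] [IsScalarTower ℂ A A]
    [SMulCommClass ℂ A A] (a : A) (n : ℕ) : jj (P a n) = jj a ^ (n + 1) := by
  induction n with
  | zero => rw [zero_add, pow_one]; rfl
  | succ n ih =>
    have h2 : P a (n + 1) = P a n * a := rfl
    rw [h2, jj_mul, ih, ← pow_succ]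

/-! ### Hahn-Banach -/

theorem exists_functional {B : Type*} [NormedAddCommGroup B] [NormedSpace ℂ B] (S : Submodule ℂ B)
    (hS : IsClosed (S : Set B)) (v : B) (hv : v ∉ S) :
    ∃ g : B →L[ℂ] ℂ, g v ≠ 0 ∧ ∀ b ∈ S, g b = 0 := by
  have : IsClosed (S : Set B) := hS
  have : IsClosed ((S.toAddSubgroup : AddSubgroup B) : Set B) := hS
  obtain ⟨φ, hφ, hφv⟩ := exists_dual_vector'' ℂ (S.mkQL v)
  refine ⟨φ.comp S.mkQL, ?_, fun b hb => ?_⟩
  · rw [ContinuousLinearMap.comp_apply, hφv]
    simp only [ne_eq, Complex.coe_algebraMap, Complex.ofReal_eq_zero, norm_eq_zero]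
    intro h
    rw [Submodule.mkQL_apply, Submodule.mkQ_apply, Submodule.Quotient.mk_eq_zero] at h
    exact hv h
  · rw [ContinuousLinearMap.comp_apply, Submodule.mkQL_apply, Submodule.mkQ_apply,
      (Submodule.Quotient.mk_eq_zero S).2 hb, map_zero]

/-! ### The theorem -/

variable {A B C : Type*} [NonUnitalCStarAlgebra A]
  [NonUnitalNormedRing B] [NormedSpace ℂ B] [IsScalarTower ℂ B B] [SMulCommClass ℂ B B]
  [CompleteSpace B]
  [NonUnitalNormedRing C] [NormedSpace ℂ C] [IsScalarTower ℂ C C] [SMulCommClass ℂ C C]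
  [CompleteSpace C] {ι : A →ₗ[ℂ] B →ₗ[ℂ] C}

omit [IsScalarTower ℂ B B] [SMulCommClass ℂ B B] [CompleteSpace B] [IsScalarTower ℂ C C]
  [SMulCommClass ℂ C C] [CompleteSpace C] in
theorem iota_P (h : IsProj ι) (a : A) (b : B) (n : ℕ) : P (ι a b) n = ι (P a n) (P b n) := by
  induction n with
  | zero => rfl
  | succ n ih =>
    have h1 : P (ι a b) (n + 1) = P (ι a b) n * ι a b := rfl
    rw [h1, ih, h.mul]
    rfl

theorem spr_eq (h : IsProj ι) (e : A) (he : IsSelfAdjoint e) (he1 : ‖e‖ = 1) (z : B) :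
    spectralRadius ℂ (jj (ι (e * e) z)) = spectralRadius ℂ (jj z) := by
  apply spectralRadius_eq_of_norm
  intro n hn
  obtain ⟨m, rfl⟩ : ∃ m, n = m + 1 := ⟨n - 1, by omega⟩
  have hee : IsSelfAdjoint (e * e) := by
    show star (e * e) = e * e
    rw [star_mul, he.star_eq]
  rw [← jj_P, ← jj_P, norm_jj, norm_jj, iota_P h, h.norm_eq, P_norm hee, one_mul]
  rw [norm_sq he, he1, one_mul]

/-- The main step. -/
theorem core (h : IsProj ι) (u : C) (hu : InRad u) (g : B →L[ℂ] ℂ) (hg : ∀ b : B, InRad b → g b = 0)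
    (T : C →L[ℂ] A) (hT : ∀ a b, T (ι a b) = g b • a) (hy : (realPart (T u) : A) ≠ 0) : False := by
  obtain ⟨a, b, hab, hsum⟩ := h.exists_series u
  obtain ⟨c, hc, H⟩ := exc (T u) hy
  have H' : ∀ n : ℕ, ∃ (e : A) (β : ℂ) (α : ℕ → ℂ), IsSelfAdjoint e ∧ ‖e‖ = 1 ∧ c ≤ ‖β‖ ∧
      ‖e * T u * e - β • (e * e)‖ ≤ 1 / ((n : ℝ) + 1) ∧
      ∀ j < n, ‖e * a j * e - α j • (e * e)‖ ≤ 1 / ((n : ℝ) + 1) := by
    intro n
    obtain ⟨e, h1, h2, ⟨β, h3, h4⟩, h5⟩ := H n a (1 / ((n : ℝ) + 1)) (by positivity)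
    choose! α hα using h5
    exact ⟨e, β, α, h1, h2, h3, h4, hα⟩
  choose e β α he he1 hβ hβ2 hα using H'
  have hee : ∀ n, ‖e n * e n‖ = 1 := fun n => by rw [norm_sq (he n), he1, one_mul]
  have heae : ∀ n (x : A), ‖e n * x * e n‖ ≤ ‖x‖ := by
    intro n x
    refine (norm_mul_le _ _).trans ?_
    rw [he1, mul_one]
    refine (norm_mul_le _ _).trans ?_
    rw [he1, one_mul]
  have hinv : Tendsto (fun n : ℕ => 1 / ((n : ℝ) + 1)) (hyperfilter ℕ : Filter ℕ) (𝓝 0) :=
    tendsto_one_div_add_atTop_nhds_zero_nat.mono_left Nat.hyperfilter_le_atTop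
  have hev : ∀ j : ℕ, ∀ᶠ n in (hyperfilter ℕ : Filter ℕ), j < n :=
    fun j => Nat.hyperfilter_le_atTop (eventually_gt_atTop j)
  have hαb : ∀ j n, j < n → ‖α n j‖ ≤ ‖a j‖ + 1 / ((n : ℝ) + 1) := by
    intro j n hjn
    have h1 : ‖α n j • (e n * e n)‖ = ‖α n j‖ := by rw [norm_smul, hee, mul_one]
    have h2 : α n j • (e n * e n) =
        e n * a j * e n - (e n * a j * e n - α n j • (e n * e n)) := by abel
    rw [← h1, h2]
    exact (norm_sub_le _ _).trans (add_le_add (heae n _) (hα n j hjn))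
  -- the limits
  have hω : ∀ j, ∃ ω : ℂ, Tendsto (fun n => α n j) (hyperfilter ℕ : Filter ℕ) (𝓝 ω) := by
    intro j
    have h1 : ∀ᶠ n in (hyperfilter ℕ : Filter ℕ), α n j ∈ Metric.closedBall (0 : ℂ) (‖a j‖ + 1) := by
      filter_upwards [hev j] with n hn
      rw [mem_closedBall_zero_iff]
      refine (hαb j n hn).trans ?_
      have : 1 / ((n : ℝ) + 1) ≤ 1 := by
        rw [div_le_one (by positivity)]
        linarith [(Nat.cast_nonneg n : (0 : ℝ) ≤ n)]
      linarith
    obtain ⟨ω, -, hω⟩ := (isCompact_closedBall (0 : ℂ) (‖a j‖ + 1)).ultrafilter_le_nhds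
      ((hyperfilter ℕ).map fun n => α n j) (by
        rw [Filter.le_principal_iff]
        exact h1)
    exact ⟨ω, hω⟩
  choose ω hω using hω
  have hωb : ∀ j, ‖ω j‖ ≤ ‖a j‖ := by
    intro j
    have h1 : Tendsto (fun n : ℕ => ‖a j‖ + 1 / ((n : ℝ) + 1)) (hyperfilter ℕ : Filter ℕ)
        (𝓝 (‖a j‖ + 0)) := tendsto_const_nhds.add hinv
    rw [add_zero] at h1
    refine le_of_tendsto_of_tendsto (hω j).norm h1 ?_
    filter_upwards [hev j] with n hn
    exact hαb j n hn
  obtain ⟨D, hD⟩ : ∃ D : ℕ → ℕ → ℝ, ∀ n j, D n j = ‖e n * a j * e n - ω j • (e n * e n)‖ :=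
    ⟨fun n j => ‖e n * a j * e n - ω j • (e n * e n)‖, fun _ _ => rfl⟩
  have hD0 : ∀ n j, 0 ≤ D n j := fun n j => by rw [hD]; exact norm_nonneg _
  have hD1 : ∀ n j, D n j ≤ 2 * ‖a j‖ := by
    intro n j
    rw [hD]
    refine (norm_sub_le _ _).trans ?_
    rw [norm_smul, hee, mul_one]
    linarith [heae n (a j), hωb j]
  have hD2 : ∀ j, Tendsto (fun n => D n j) (hyperfilter ℕ : Filter ℕ) (𝓝 0) := by
    intro j
    have h1 : Tendsto (fun n : ℕ => 1 / ((n : ℝ) + 1) + ‖α n j - ω j‖) (hyperfilter ℕ : Filter ℕ)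
        (𝓝 (0 + 0)) := hinv.add (tendsto_iff_norm_sub_tendsto_zero.1 (hω j))
    rw [add_zero] at h1
    refine squeeze_zero' (Eventually.of_forall fun n => hD0 n j) ?_ h1
    filter_upwards [hev j] with n hn
    have h2 : e n * a j * e n - ω j • (e n * e n) =
        (e n * a j * e n - α n j • (e n * e n)) + (α n j - ω j) • (e n * e n) := by
      rw [sub_smul]
      abel
    rw [hD, h2]
    refine (norm_add_le _ _).trans (add_le_add (hα n j hn) ?_)
    rw [norm_smul, hee, mul_one]
  obtain ⟨δ, hδ⟩ : ∃ δ : ℕ → ℝ, ∀ n, δ n = ∑' j, D n j * ‖b j‖ :=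
    ⟨fun n => ∑' j, D n j * ‖b j‖, fun _ => rfl⟩
  have hbd : Summable fun j => 2 * ‖a j‖ * ‖b j‖ := by
    have := hab.mul_left 2
    simpa only [mul_assoc] using this
  have hle : ∀ n j, D n j * ‖b j‖ ≤ 2 * ‖a j‖ * ‖b j‖ := fun n j =>
    mul_le_mul_of_nonneg_right (hD1 n j) (norm_nonneg _)
  have hDs : ∀ n, Summable fun j => D n j * ‖b j‖ := fun n =>
    Summable.of_nonneg_of_le (fun j => mul_nonneg (hD0 n j) (norm_nonneg _)) (hle n) hbd
  have hδ0 : Tendsto δ (hyperfilter ℕ : Filter ℕ) (𝓝 0) := by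
    have h1 : Tendsto (fun n => ∑' j, D n j * ‖b j‖) (hyperfilter ℕ : Filter ℕ)
        (𝓝 (∑' _ : ℕ, (0 : ℝ))) := by
      refine tendsto_tsum_of_dominated_convergence hbd (fun j => ?_)
        (Eventually.of_forall fun n j => ?_)
      · simpa using (hD2 j).mul_const ‖b j‖
      · rw [Real.norm_of_nonneg (mul_nonneg (hD0 n j) (norm_nonneg _))]
        exact hle n j
    rw [tsum_zero] at h1
    exact h1.congr fun n => (hδ n).symm
  -- the limit slice
  have hbs : Summable fun j => ω j • b j := by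
    refine Summable.of_norm_bounded hab fun j => ?_
    rw [norm_smul]
    exact mul_le_mul_of_nonneg_right (hωb j) (norm_nonneg _)
  obtain ⟨bw, hbw⟩ : ∃ bw, bw = ∑' j, ω j • b j := ⟨_, rfl⟩
  have hbwS : HasSum (fun j => ω j • b j) bw := hbw ▸ hbs.hasSum
  -- it is in the radical
  have hrad : InRad bw := by
    apply inRad_of_spectralRadius
    intro c' d
    have h1 : ∀ n, spectralRadius ℂ (jj (c' * bw * d)) ≤
        ENNReal.ofReal (‖c'‖ * ‖d‖ * δ n) := by
      intro n
      obtain ⟨r, hr⟩ : ∃ r : C, r = ι (e n) c' * u * ι (e n) d := ⟨_, rfl⟩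
      have hrr : InRad r := hr ▸ inRad_mul hu _ _
      have hr2 : HasSum (fun j => ι (e n * a j * e n) (c' * b j * d)) r := by
        have h2 := (hsum.mul_left (ι (e n) c')).mul_right (ι (e n) d)
        rw [← hr] at h2
        refine h2.congr_fun ?_
        intro j
        rw [h.mul, h.mul]
      have hy2 : HasSum (fun j => ι (ω j • (e n * e n)) (c' * b j * d))
          (ι (e n * e n) (c' * bw * d)) := by
        have h2 := (hbwS.mul_left c').mul_right d
        have hcont : Continuous fun z : B => ι (e n * e n) z := by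
          refine AddMonoidHomClass.continuous_of_bound (ι (e n * e n)) ‖e n * e n‖ fun z => ?_
          exact h.norm_le _ _
        have h3 := h2.map (ι (e n * e n)) hcont
        refine h3.congr_fun ?_
        intro j
        simp only [Function.comp_apply, map_smul, LinearMap.smul_apply, mul_smul_comm,
          smul_mul_assoc]
      have hs : ‖ι (e n * e n) (c' * bw * d) - r‖ ≤ ‖c'‖ * ‖d‖ * δ n := by
        have h4 := hy2.sub hr2
        rw [← h4.tsum_eq, hδ, ← tsum_mul_left]
        have h5 : ∀ j, ‖ι (ω j • (e n * e n)) (c' * b j * d) -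
            ι (e n * a j * e n) (c' * b j * d)‖ ≤ ‖c'‖ * ‖d‖ * (D n j * ‖b j‖) := by
          intro j
          rw [← LinearMap.sub_apply, ← map_sub]
          refine (h.norm_le _ _).trans ?_
          rw [norm_sub_rev, ← hD]
          have h6 : ‖c' * b j * d‖ ≤ ‖c'‖ * ‖b j‖ * ‖d‖ :=
            (norm_mul_le _ _).trans (mul_le_mul_of_nonneg_right (norm_mul_le _ _) (norm_nonneg _))
          calc D n j * ‖c' * b j * d‖ ≤ D n j * (‖c'‖ * ‖b j‖ * ‖d‖) :=
                mul_le_mul_of_nonneg_left h6 (hD0 n j)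
            _ = _ := by ring
        exact tsum_of_norm_bounded ((hDs n).mul_left _).hasSum h5
      have h7 : ι (e n * e n) (c' * bw * d) = r + (ι (e n * e n) (c' * bw * d) - r) := by abel
      rw [← spr_eq h (e n) (he n) (he1 n), h7]
      refine (spectralRadius_le_of_rad hrr _).trans ?_
      rw [← ENNReal.ofReal_coe_nnreal, coe_nnnorm]
      exact ENNReal.ofReal_le_ofReal hs
    have h2 : Tendsto (fun n => ENNReal.ofReal (‖c'‖ * ‖d‖ * δ n)) (hyperfilter ℕ : Filter ℕ)
        (𝓝 (ENNReal.ofReal (‖c'‖ * ‖d‖ * 0))) :=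
      ENNReal.tendsto_ofReal (hδ0.const_mul _)
    rw [mul_zero, ENNReal.ofReal_zero] at h2
    exact le_antisymm (ge_of_tendsto h2 (Eventually.of_forall h1)) zero_le
  have hgb := hg bw hrad
  -- the contradiction
  have h8 : ∀ n : ℕ, c ≤ 1 / ((n : ℝ) + 1) + ‖g‖ * δ n := by
    intro n
    have h1 : HasSum (fun j => e n * (g (b j) • a j) * e n) (e n * T u * e n) := by
      have h2 := hsum.map T T.continuous
      have h3 := (h2.mul_left (e n)).mul_right (e n)
      refine h3.congr_fun fun j => ?_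
      simp only [Function.comp_apply, hT]
    have h2 : HasSum (fun j => g (ω j • b j) • (e n * e n)) (g bw • (e n * e n)) :=
      (hbwS.map g g.continuous).smul_const _
    have h3 := h1.sub h2
    have h4 : ∀ j, ‖e n * (g (b j) • a j) * e n - g (ω j • b j) • (e n * e n)‖ ≤
        ‖g‖ * (D n j * ‖b j‖) := by
      intro j
      have h5 : e n * (g (b j) • a j) * e n - g (ω j • b j) • (e n * e n) =
          g (b j) • (e n * a j * e n - ω j • (e n * e n)) := by
        rw [smul_sub, mul_smul_comm, smul_mul_assoc, map_smul, smul_smul, smul_eq_mul, mul_comm]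
      rw [h5, norm_smul, ← hD]
      calc ‖g (b j)‖ * D n j ≤ ‖g‖ * ‖b j‖ * D n j :=
            mul_le_mul_of_nonneg_right (g.le_opNorm _) (hD0 n j)
        _ = _ := by ring
    have h5 : ‖e n * T u * e n - g bw • (e n * e n)‖ ≤ ‖g‖ * δ n := by
      rw [← h3.tsum_eq, hδ, ← tsum_mul_left]
      exact tsum_of_norm_bounded ((hDs n).mul_left _).hasSum h4
    rw [hgb, zero_smul, sub_zero] at h5
    have h6 : ‖β n • (e n * e n)‖ = ‖β n‖ := by rw [norm_smul, hee, mul_one]
    have h7 : β n • (e n * e n) = e n * T u * e n - (e n * T u * e n - β n • (e n * e n)) := by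
      abel
    have h9 : ‖β n‖ ≤ ‖g‖ * δ n + 1 / ((n : ℝ) + 1) := by
      rw [← h6, h7]
      exact (norm_sub_le _ _).trans (add_le_add h5 (hβ2 n))
    linarith [hβ n]
  have h9 : Tendsto (fun n : ℕ => 1 / ((n : ℝ) + 1) + ‖g‖ * δ n) (hyperfilter ℕ : Filter ℕ)
      (𝓝 (0 + ‖g‖ * 0)) := hinv.add (hδ0.const_mul _)
  have h10 := ge_of_tendsto h9 (Eventually.of_forall h8)
  rw [mul_zero, add_zero] at h10
  linarith

/-- The slices of the radical are in the radical. -/
theorem slice_rad (h : IsProj ι) (u : C) (hu : InRad u) (φ : A →L[ℂ] ℂ) (S : C →L[ℂ] B)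
    (hS : ∀ a b, S (ι a b) = φ a • b) : InRad (S u) := by
  by_contra hne
  obtain ⟨g, hg, hg0⟩ := exists_functional (radS B) isClosed_radS (S u) hne
  obtain ⟨T, hT⟩ := h.exists_sliceB g
  obtain ⟨a, b, hab, hsum⟩ := h.exists_series u
  have h1 : φ (T u) = g (S u) := by
    have h2 := (hsum.map T T.continuous).map φ φ.continuous
    have h3 := (hsum.map S S.continuous).map g g.continuous
    refine h2.unique (h3.congr_fun fun j => ?_)
    simp only [Function.comp_apply, hT, hS, map_smul, smul_eq_mul, mul_comm]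
  have h2 : T u ≠ 0 := by
    intro h0
    rw [h0, map_zero] at h1
    exact hg h1.symm
  by_cases hre : (realPart (T u) : A) = 0
  · have him : (imaginaryPart (T u) : A) ≠ 0 := by
      intro him
      apply h2
      rw [← realPart_add_I_smul_imaginaryPart (T u), hre, him, smul_zero, add_zero]
    refine core h u hu ((-Complex.I) • g) (fun b hb => ?_) ((-Complex.I) • T) (fun a b => ?_) ?_
    · simp [hg0 b hb]
    · simp [hT, mul_smul]
    · have h3 : (realPart (((-Complex.I) • T) u) : A) = (imaginaryPart (T u) : A) := by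
        rw [smul_apply, neg_smul, map_neg, realPart_I_smul]
        simp
      rw [h3]
      exact him
  · exact core h u hu g (fun b hb => hg0 b hb) T hT hre

end Pool.Agent.Helper60.PT
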