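import Pool.Agent.Helper60.PT.AP
import Mathlib.Analysis.Normed.Module.Completion
import Mathlib.RingTheory.TensorProduct.Basic
import Mathlib.Algebra.Order.Field.Basic

/-!
# Existence of the projective tensor product

The completion of the algebraic tensor product in the projective norm is a Banach algebra.
-/

namespace Pool.Agent.Helper60.PT

open scoped TensorProduct
open Finset

section space

variable (E F : Type*) [NormedAddCommGroup E] [NormedSpace ℂ E] [NormedAddCommGroup F]
  [NormedSpace ℂ F]

/-- The algebraic tensor product, to be endowed with the projective norm. -/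
def PT0 : Type _ := E ⊗[ℂ] F

noncomputable instance : AddCommGroup (PT0 E F) := inferInstanceAs (AddCommGroup (E ⊗[ℂ] F))

noncomputable instance : Module ℂ (PT0 E F) := inferInstanceAs (Module ℂ (E ⊗[ℂ] F))

noncomputable instance : Norm (PT0 E F) := ⟨fun t => projNorm (E := E) (F := F) t⟩

theorem projNorm_smul {E F : Type*} [NormedAddCommGroup E] [NormedSpace ℂ E]
    [NormedAddCommGroup F] [NormedSpace ℂ F] (c : ℂ) (t : E ⊗[ℂ] F) :
    projNorm (c • t) = ‖c‖ * projNorm t := by
  refine le_antisymm (projNorm_smul_le c t) ?_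
  rcases eq_or_ne c 0 with rfl | hc
  · simp [projNorm_zero]
  · have h1 := projNorm_smul_le c⁻¹ (c • t)
    rw [smul_smul, inv_mul_cancel₀ hc, one_smul, norm_inv] at h1
    have h2 : 0 < ‖c‖ := norm_pos_iff.2 hc
    calc ‖c‖ * projNorm t ≤ ‖c‖ * (‖c‖⁻¹ * projNorm (c • t)) :=
          mul_le_mul_of_nonneg_left h1 h2.le
      _ = projNorm (c • t) := by
          field_simp

theorem pt0_core : SeminormedSpace.Core ℂ (PT0 E F) where
  norm_nonneg t := projNorm_nonneg (E := E) (F := F) t
  norm_smul c t := projNorm_smul (E := E) (F := F) c t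
  norm_triangle s t := projNorm_add_le (E := E) (F := F) s t

noncomputable instance : SeminormedAddCommGroup (PT0 E F) :=
  SeminormedAddCommGroup.ofCore (pt0_core E F)

noncomputable instance : NormedSpace ℂ (PT0 E F) where
  norm_smul_le c t := (projNorm_smul (E := E) (F := F) c t).le

/-- The projective tensor product, as a Banach space. -/
def PTC : Type _ := UniformSpace.Completion (PT0 E F)

noncomputable instance : NormedAddCommGroup (PTC E F) :=
  inferInstanceAs (NormedAddCommGroup (UniformSpace.Completion (PT0 E F)))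

noncomputable instance : NormedSpace ℂ (PTC E F) :=
  inferInstanceAs (NormedSpace ℂ (UniformSpace.Completion (PT0 E F)))

instance : CompleteSpace (PTC E F) :=
  inferInstanceAs (CompleteSpace (UniformSpace.Completion (PT0 E F)))

/-- The embedding of the algebraic tensor product. -/
noncomputable def emb : E ⊗[ℂ] F →ₗ[ℂ] PTC E F :=
  (UniformSpace.Completion.toComplₗᵢ (𝕜 := ℂ) (E := PT0 E F)).toLinearMap

variable {E F}

theorem norm_emb (t : E ⊗[ℂ] F) : ‖emb E F t‖ = projNorm t :=
  (UniformSpace.Completion.toComplₗᵢ (𝕜 := ℂ) (E := PT0 E F)).norm_map t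

theorem dense_emb : DenseRange (emb E F) :=
  UniformSpace.Completion.denseRange_coe (α := PT0 E F)

theorem projNorm_tmul_le (a : E) (b : F) : projNorm (a ⊗ₜ[ℂ] b) ≤ ‖a‖ * ‖b‖ := by
  simpa using projNorm_le (t := a ⊗ₜ[ℂ] b) 1 (fun _ => a) (fun _ => b) (by simp)

theorem projNorm_sum_le {κ : Type*} (s : Finset κ) (t : κ → E ⊗[ℂ] F) :
    projNorm (∑ i ∈ s, t i) ≤ ∑ i ∈ s, projNorm (t i) := by
  classical
  induction s using Finset.induction_on with
  | empty => simp [projNorm_zero]
  | insert i s hi ih =>
    rw [sum_insert hi, sum_insert hi]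
    exact (projNorm_add_le _ _).trans (by linarith)

end space

section alg

variable (A B : Type*) [NonUnitalNormedRing A] [NormedSpace ℂ A] [IsScalarTower ℂ A A]
  [SMulCommClass ℂ A A]
  [NonUnitalNormedRing B] [NormedSpace ℂ B] [IsScalarTower ℂ B B] [SMulCommClass ℂ B B]

variable {A B} in
theorem projNorm_mul_le (s t : A ⊗[ℂ] B) :
    projNorm (Algebra.TensorProduct.mul s t) ≤ projNorm s * projNorm t := by
  refine le_mul_of_forall_lt₀ fun r hr r' hr' => ?_
  obtain ⟨n, a, b, h, hs⟩ := exists_rep hr
  obtain ⟨m, a', b', h', hs'⟩ := exists_rep hr'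
  have h1 : Algebra.TensorProduct.mul s t =
      ∑ i ∈ range n, ∑ j ∈ range m, (a i * a' j) ⊗ₜ[ℂ] (b i * b' j) := by
    rw [h, h', map_sum Algebra.TensorProduct.mul, LinearMap.sum_apply]
    refine sum_congr rfl fun i _ => ?_
    rw [map_sum]
    refine sum_congr rfl fun j _ => ?_
    rw [Algebra.TensorProduct.mul_apply]
  rw [h1]
  calc projNorm (∑ i ∈ range n, ∑ j ∈ range m, (a i * a' j) ⊗ₜ[ℂ] (b i * b' j)) ≤
        ∑ i ∈ range n, ∑ j ∈ range m, (‖a i‖ * ‖b i‖) * (‖a' j‖ * ‖b' j‖) := by
        refine (projNorm_sum_le _ _).trans (sum_le_sum fun i _ => ?_)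
        refine (projNorm_sum_le _ _).trans (sum_le_sum fun j _ => ?_)
        refine (projNorm_tmul_le _ _).trans ?_
        calc ‖a i * a' j‖ * ‖b i * b' j‖ ≤ (‖a i‖ * ‖a' j‖) * (‖b i‖ * ‖b' j‖) :=
              mul_le_mul (norm_mul_le _ _) (norm_mul_le _ _) (norm_nonneg _) (by positivity)
          _ = _ := by ring
    _ = (∑ i ∈ range n, ‖a i‖ * ‖b i‖) * (∑ j ∈ range m, ‖a' j‖ * ‖b' j‖) := by
        rw [sum_mul]
        exact sum_congr rfl fun i _ => by rw [mul_sum]
    _ ≤ r * r' := by
        have h2 : 0 ≤ ∑ i ∈ range n, ‖a i‖ * ‖b i‖ := sum_nonneg fun i _ => by positivity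
        have h3 : 0 ≤ ∑ j ∈ range m, ‖a' j‖ * ‖b' j‖ := sum_nonneg fun i _ => by positivity
        exact mul_le_mul hs.le hs'.le h3 (h2.trans hs.le)

/-- Left multiplication by an element of the algebraic tensor product. -/
noncomputable def mulL (s : A ⊗[ℂ] B) : PTC A B →L[ℂ] PTC A B :=
  ((emb A B).comp (Algebra.TensorProduct.mul s)).extendOfNorm (emb A B)

variable {A B} in
theorem mulL_bound (s t : A ⊗[ℂ] B) :
    ‖((emb A B).comp (Algebra.TensorProduct.mul s)) t‖ ≤ projNorm s * ‖emb A B t‖ := by
  rw [LinearMap.comp_apply, norm_emb, norm_emb]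
  exact projNorm_mul_le s t

variable {A B} in
theorem mulL_emb (s t : A ⊗[ℂ] B) :
    mulL A B s (emb A B t) = emb A B (Algebra.TensorProduct.mul s t) :=
  LinearMap.extendOfNorm_eq dense_emb ⟨_, mulL_bound s⟩ t

variable {A B} in
theorem norm_mulL_apply (s : A ⊗[ℂ] B) (x : PTC A B) : ‖mulL A B s x‖ ≤ projNorm s * ‖x‖ :=
  LinearMap.norm_extendOfNorm_apply_le dense_emb _ (mulL_bound s) x

/-- Left multiplication, as a linear map. -/
noncomputable def mulLL : A ⊗[ℂ] B →ₗ[ℂ] (PTC A B →L[ℂ] PTC A B) where
  toFun := mulL A B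
  map_add' s s' := by
    ext x
    refine congrFun (dense_emb.equalizer (mulL A B (s + s')).continuous
      (mulL A B s + mulL A B s').continuous ?_) x
    funext t
    simp only [Function.comp, add_apply, mulL_emb, map_add,
      LinearMap.add_apply]
  map_smul' c s := by
    ext x
    refine congrFun (dense_emb.equalizer (mulL A B (c • s)).continuous
      (c • mulL A B s).continuous ?_) x
    funext t
    simp only [Function.comp, mulL_emb, map_smul, LinearMap.smul_apply,
      smul_apply]

/-- The multiplication of the projective tensor product, as a bounded bilinear map. -/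
noncomputable def mulM : PTC A B →L[ℂ] (PTC A B →L[ℂ] PTC A B) :=
  (mulLL A B).extendOfNorm (emb A B)

variable {A B} in
theorem mulM_bound (s : A ⊗[ℂ] B) : ‖mulLL A B s‖ ≤ 1 * ‖emb A B s‖ := by
  rw [one_mul, norm_emb]
  exact ContinuousLinearMap.opNorm_le_bound _ (projNorm_nonneg s) (norm_mulL_apply s)

variable {A B} in
theorem mulM_emb (s t : A ⊗[ℂ] B) :
    mulM A B (emb A B s) (emb A B t) = emb A B (Algebra.TensorProduct.mul s t) := by
  have h1 : mulM A B (emb A B s) = mulLL A B s :=
    LinearMap.extendOfNorm_eq dense_emb ⟨_, mulM_bound⟩ s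
  rw [h1]
  exact mulL_emb s t

variable {A B} in
theorem norm_mulM (x y : PTC A B) : ‖mulM A B x y‖ ≤ ‖x‖ * ‖y‖ := by
  have h1 : ‖mulM A B x‖ ≤ 1 * ‖x‖ :=
    LinearMap.norm_extendOfNorm_apply_le dense_emb _ mulM_bound x
  rw [one_mul] at h1
  exact ((mulM A B x).le_opNorm y).trans (mul_le_mul_of_nonneg_right h1 (norm_nonneg _))

variable {A B} in
theorem mulM_assoc (x y z : PTC A B) :
    mulM A B (mulM A B x y) z = mulM A B x (mulM A B y z) := by
  have step : ∀ s t r : A ⊗[ℂ] B, mulM A B (mulM A B (emb A B s) (emb A B t)) (emb A B r) =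
      mulM A B (emb A B s) (mulM A B (emb A B t) (emb A B r)) := by
    intro s t r
    rw [mulM_emb, mulM_emb, mulM_emb, mulM_emb]
    congr 1
    exact mul_assoc s t r
  have h1 : ∀ s t : A ⊗[ℂ] B, ∀ z, mulM A B (mulM A B (emb A B s) (emb A B t)) z =
      mulM A B (emb A B s) (mulM A B (emb A B t) z) := by
    intro s t
    refine fun z => congrFun (dense_emb.equalizer (f := emb A B) (g := fun z =>
      mulM A B (mulM A B (emb A B s) (emb A B t)) z) (h := fun z =>
      mulM A B (emb A B s) (mulM A B (emb A B t) z)) (by fun_prop) (by fun_prop) ?_) z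
    funext r
    exact step s t r
  have h2 : ∀ s : A ⊗[ℂ] B, ∀ y z, mulM A B (mulM A B (emb A B s) y) z =
      mulM A B (emb A B s) (mulM A B y z) := by
    intro s y z
    refine congrFun (dense_emb.equalizer (f := emb A B) (g := fun y =>
      mulM A B (mulM A B (emb A B s) y) z) (h := fun y =>
      mulM A B (emb A B s) (mulM A B y z)) (by fun_prop) (by fun_prop) ?_) y
    funext r
    exact h1 s r z
  refine congrFun (dense_emb.equalizer (f := emb A B) (g := fun x =>
      mulM A B (mulM A B x y) z) (h := fun x =>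
      mulM A B x (mulM A B y z)) (by fun_prop) (by fun_prop) ?_) x
  funext r
  exact h2 r y z

noncomputable instance : NonUnitalNormedRing (PTC A B) :=
  { (inferInstance : NormedAddCommGroup (PTC A B)) with
    mul := fun x y => mulM A B x y
    left_distrib := fun x y z => map_add (mulM A B x) y z
    right_distrib := fun x y z => by
      show mulM A B (x + y) z = mulM A B x z + mulM A B y z
      rw [map_add]
      rfl
    zero_mul := fun x => by
      show mulM A B 0 x = 0
      rw [map_zero]
      rfl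
    mul_zero := fun x => map_zero (mulM A B x)
    mul_assoc := fun x y z => mulM_assoc x y z
    norm_mul_le := fun x y => norm_mulM x y }

variable {A B} in
theorem mul_def' (x y : PTC A B) : x * y = mulM A B x y := rfl

instance : IsScalarTower ℂ (PTC A B) (PTC A B) where
  smul_assoc c x y := by
    rw [smul_eq_mul, smul_eq_mul, mul_def', mul_def', map_smul]
    rfl

instance : SMulCommClass ℂ (PTC A B) (PTC A B) where
  smul_comm c x y := by
    rw [smul_eq_mul, smul_eq_mul, mul_def', mul_def', map_smul]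

/-- The bilinear map of the projective tensor product. -/
noncomputable def iot : A →ₗ[ℂ] B →ₗ[ℂ] PTC A B :=
  (TensorProduct.mk ℂ A B).compr₂ (emb A B)

theorem isProj_iot : IsProj (iot A B) := by
  have h1 : TensorProduct.lift (iot A B) = emb A B := by
    ext a b
    rfl
  refine ⟨fun a b a' b' => ?_, fun t => ?_, ?_⟩
  · show mulM A B (emb A B (a ⊗ₜ b)) (emb A B (a' ⊗ₜ b')) = emb A B ((a * a') ⊗ₜ (b * b'))
    rw [mulM_emb, Algebra.TensorProduct.mul_apply]
  · rw [h1, norm_emb]
  · rw [h1]
    exact dense_emb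

end alg

end Pool.Agent.Helper60.PT
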