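import Pool.Agent.Helper60.PT.Slice
import Mathlib.Analysis.Normed.Module.FiniteDimension

/-!
# The approximation property

If `A` or `B` has the approximation property, then the slice maps of a projective tensor product
separate its points; with `slice_rad` this gives the semisimplicity theorem.
-/

namespace Pool.Agent.Helper60.PT

open scoped TensorProduct
open Finset Filter Topology

/-- The bounded approximation property. -/
def HasBAP (E : Type*) [NormedAddCommGroup E] [NormedSpace ℂ E] : Prop :=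
  ∃ M : ℝ, ∀ K : Finset E, ∀ ε : ℝ, 0 < ε → ∃ T : E →L[ℂ] E,
    FiniteDimensional ℂ (LinearMap.range (T : E →ₗ[ℂ] E)) ∧ ‖T‖ ≤ M ∧ ∀ x ∈ K, ‖T x - x‖ ≤ ε

theorem HasBAP.hasAP {E : Type*} [NormedAddCommGroup E] [NormedSpace ℂ E] (h : HasBAP E) :
    HasAP E := by
  obtain ⟨M, hM⟩ := h
  have hM0 : 0 ≤ M := by
    obtain ⟨T, -, h1, -⟩ := hM ∅ 1 one_pos
    exact (norm_nonneg _).trans h1
  intro K hK ε hε
  obtain ⟨t, -, htf, ht⟩ := hK.finite_cover_balls (e := ε / (2 * (M + 2))) (by positivity)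
  obtain ⟨T, hT1, hT2, hT3⟩ := hM htf.toFinset (ε / 2) (by positivity)
  refine ⟨T, hT1, fun x hx => ?_⟩
  obtain ⟨y, hy, hxy⟩ := Set.mem_iUnion₂.1 (ht hx)
  rw [Metric.mem_ball, dist_eq_norm] at hxy
  have h1 := hT3 y (by simpa using hy)
  have h2 : T x - x = T (x - y) + (T y - y) - (x - y) := by
    rw [map_sub]
    abel
  rw [h2]
  have h3 : ‖T (x - y)‖ ≤ M * ‖x - y‖ :=
    (T.le_opNorm _).trans (mul_le_mul_of_nonneg_right hT2 (norm_nonneg _))
  have h4 : (M + 2) * (ε / (2 * (M + 2))) = ε / 2 := by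
    field_simp
  have h5 : (M + 2) * ‖x - y‖ ≤ ε / 2 := by
    rw [← h4]
    exact mul_le_mul_of_nonneg_left hxy.le (by linarith)
  calc ‖T (x - y) + (T y - y) - (x - y)‖ ≤ ‖T (x - y)‖ + ‖T y - y‖ + ‖x - y‖ := by
        refine (norm_sub_le _ _).trans ?_
        gcongr
        exact norm_add_le _ _
    _ ≤ ε := by nlinarith [norm_nonneg (x - y)]

section slow

/-- Absolutely convergent series converge a little faster. -/
theorem exists_slow (p : ℕ → ℝ) (hp : ∀ n, 0 ≤ p n) (hs : Summable p) :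
    ∃ q : ℕ → ℝ, (∀ n, 0 < q n) ∧ Tendsto q atTop (𝓝 0) ∧ Summable fun n => p n / q n := by
  obtain ⟨s, hsd⟩ : ∃ s : ℕ → ℝ, ∀ n, s n = (∑' k, p (k + n)) + (1 / 2) ^ n := ⟨_, fun _ => rfl⟩
  have htail : ∀ n, 0 ≤ ∑' k, p (k + n) := fun n => tsum_nonneg fun k => hp _
  have hspos : ∀ n, 0 < s n := by
    intro n
    rw [hsd]
    have := htail n
    positivity
  have hst : Tendsto s atTop (𝓝 0) := by
    have h1 : Tendsto (fun n => (∑' k, p (k + n)) + (1 / 2 : ℝ) ^ n) atTop (𝓝 (0 + 0)) :=
      (tendsto_sum_nat_add p).add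
        (tendsto_pow_atTop_nhds_zero_of_lt_one (by norm_num) (by norm_num))
    rw [add_zero] at h1
    exact h1.congr fun n => (hsd n).symm
  have hdiff : ∀ n, p n ≤ s n - s (n + 1) := by
    intro n
    have h1 : ∑' k, p (k + n) = p n + ∑' k, p (k + (n + 1)) := by
      rw [((summable_nat_add_iff n).2 hs).tsum_eq_zero_add]
      simp only [zero_add]
      congr 1
      refine tsum_congr fun k => ?_
      congr 1
      ring
    rw [hsd, hsd, h1, pow_succ]
    have : (0 : ℝ) < (1 / 2) ^ n := by positivity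
    linarith
  refine ⟨fun n => √(s n), fun n => Real.sqrt_pos.2 (hspos n), ?_, ?_⟩
  · have := (Real.continuous_sqrt.tendsto 0).comp hst
    rw [Real.sqrt_zero] at this
    exact this
  · have hb : ∀ n, p n / √(s n) ≤ 2 * (√(s n) - √(s (n + 1))) := by
      intro n
      have h0 := Real.sqrt_pos.2 (hspos n)
      have h1 : √(s n) ^ 2 = s n := Real.sq_sqrt (hspos n).le
      have h2 : √(s (n + 1)) ^ 2 = s (n + 1) := Real.sq_sqrt (hspos _).le
      have h3 : √(s (n + 1)) ≤ √(s n) := Real.sqrt_le_sqrt (by linarith [hdiff n, hp n])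
      rw [div_le_iff₀ h0]
      have h4 := hdiff n
      have h5 := Real.sqrt_nonneg (s (n + 1))
      nlinarith
    refine summable_of_sum_range_le (c := 2 * √(s 0)) (fun n => div_nonneg (hp n)
      (Real.sqrt_nonneg _)) fun n => ?_
    calc ∑ i ∈ range n, p i / √(s i) ≤ ∑ i ∈ range n, 2 * (√(s i) - √(s (i + 1))) :=
          sum_le_sum fun i _ => hb i
      _ = 2 * (√(s 0) - √(s n)) := by
          rw [← mul_sum, sum_range_sub']
      _ ≤ 2 * √(s 0) := by
          have := Real.sqrt_nonneg (s n)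
          linarith

end slow

section inj

variable {A B C : Type*} [NonUnitalNormedRing A] [NormedSpace ℂ A]
  [NonUnitalNormedRing B] [NormedSpace ℂ B] [NonUnitalNormedRing C] [NormedSpace ℂ C]
  {ι : A →ₗ[ℂ] B →ₗ[ℂ] C}

namespace IsProj

theorem ext (h : IsProj ι) {G : Type*} [NormedAddCommGroup G] [NormedSpace ℂ G]
    (S T : C →L[ℂ] G) (hST : ∀ a b, S (ι a b) = T (ι a b)) : S = T := by
  have h1 : (S : C → G) = T := by
    refine h.dense.equalizer S.continuous T.continuous ?_
    funext t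
    simp only [Function.comp]
    induction t with
    | zero => simp
    | tmul a b => simpa using hST a b
    | add s t hs ht => rw [map_add, map_add, map_add, hs, ht]
  ext x
  exact congrFun h1 x

theorem projNorm_comm_le {E F : Type*} [NormedAddCommGroup E] [NormedSpace ℂ E]
    [NormedAddCommGroup F] [NormedSpace ℂ F] (t : E ⊗[ℂ] F) :
    projNorm (TensorProduct.comm ℂ E F t) ≤ projNorm t := by
  refine le_of_forall_pos_le_add fun ε hε => ?_
  obtain ⟨n, a, b, h, hs⟩ := exists_rep (t := t) (r := projNorm t + ε) (by linarith)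
  refine (projNorm_le n b a ?_).trans ?_
  · rw [h, map_sum]
    simp
  · refine le_trans (le_of_eq ?_) hs.le
    exact sum_congr rfl fun i _ => mul_comm _ _

theorem flip (h : IsProj ι) : IsProj ι.flip := by
  have h1 : ∀ t, TensorProduct.lift ι.flip t =
      TensorProduct.lift ι (TensorProduct.comm ℂ B A t) := by
    intro t
    induction t with
    | zero => simp
    | tmul a b => simp
    | add s t hs ht => rw [map_add, map_add, map_add, hs, ht]
  refine ⟨fun a b a' b' => ?_, fun t => ?_, ?_⟩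
  · simp only [LinearMap.flip_apply]
    exact h.mul _ _ _ _
  · rw [h1, h.norm]
    refine le_antisymm (projNorm_comm_le t) ?_
    have h2 := projNorm_comm_le (TensorProduct.comm ℂ B A t)
    have h3 : TensorProduct.comm ℂ A B (TensorProduct.comm ℂ B A t) = t := by
      rw [← TensorProduct.comm_symm]
      exact (TensorProduct.comm ℂ B A).symm_apply_apply t
    rwa [h3] at h2
  · have h2 : (TensorProduct.lift ι.flip : B ⊗[ℂ] A → C) =
        (TensorProduct.lift ι : A ⊗[ℂ] B → C) ∘ (TensorProduct.comm ℂ B A) := by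
      funext t
      exact h1 t
    rw [h2, DenseRange, (TensorProduct.comm ℂ B A).surjective.range_comp]
    exact h.dense

/-- If `A` has the approximation property, the slice maps of functionals on `A` separate the points
of the projective tensor product. -/
theorem eq_zero_of_slice (h : IsProj ι) [CompleteSpace B] [CompleteSpace C] (hA : HasAP A) (u : C)
    (hu : ∀ (φ : A →L[ℂ] ℂ) (S : C →L[ℂ] B), (∀ a b, S (ι a b) = φ a • b) → S u = 0) : u = 0 := by
  obtain ⟨a, b, hab, hsum⟩ := h.exists_series u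
  obtain ⟨q, hq, hq0, hqs⟩ := exists_slow _ (fun n => by positivity) hab
  obtain ⟨a', ha'⟩ : ∃ a' : ℕ → A, ∀ n, a' n = (((‖a n‖⁻¹ * q n : ℝ)) : ℂ) • a n :=
    ⟨_, fun _ => rfl⟩
  obtain ⟨b', hb'⟩ : ∃ b' : ℕ → B, ∀ n, b' n = (((‖a n‖ / q n : ℝ)) : ℂ) • b n :=
    ⟨_, fun _ => rfl⟩
  have ha'q : ∀ n, ‖a' n‖ ≤ q n := by
    intro n
    rw [ha', norm_smul, Complex.norm_real, Real.norm_eq_abs, abs_of_nonneg
      (mul_nonneg (by positivity) (hq n).le)]
    rcases eq_or_ne (‖a n‖) 0 with h0 | h0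
    · rw [h0]
      simpa using (hq n).le
    · refine le_of_eq ?_
      field_simp
  have ha'0 : Tendsto a' atTop (𝓝 0) := squeeze_zero_norm ha'q hq0
  have hb'n : ∀ n, ‖b' n‖ = ‖a n‖ * ‖b n‖ / q n := by
    intro n
    rw [hb', norm_smul, Complex.norm_real, Real.norm_eq_abs, abs_of_nonneg
      (div_nonneg (by positivity) (hq n).le)]
    ring
  have hb's : Summable fun n => ‖b' n‖ := hqs.congr fun n => (hb'n n).symm
  have hab' : ∀ n, ι (a' n) (b' n) = ι (a n) (b n) := by
    intro n
    rw [ha', hb', map_smul, map_smul ι, LinearMap.smul_apply, smul_smul, ← Complex.ofReal_mul,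
      mul_comm (‖a n‖ / q n)]
    rcases eq_or_ne (a n) 0 with h0 | h0
    · rw [h0]
      simp
    · have h1 : ‖a n‖ ≠ 0 := norm_ne_zero_iff.2 h0
      have h2 := (hq n).ne'
      have h3 : ‖a n‖⁻¹ * q n * (‖a n‖ / q n) = 1 := by
        field_simp
      rw [h3]
      simp
  have hsum' : HasSum (fun n => ι (a' n) (b' n)) u := by
    simpa only [hab'] using hsum
  have hK : IsCompact (insert 0 (Set.range a')) := ha'0.isCompact_insert_range
  rw [← norm_le_zero_iff]
  refine le_of_forall_pos_le_add fun ε hε => ?_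
  have hM : 0 ≤ ∑' n, ‖b' n‖ := tsum_nonneg fun n => norm_nonneg _
  obtain ⟨T, hTf, hT⟩ := hA _ hK (ε / (∑' n, ‖b' n‖ + 1)) (by positivity)
  -- the operator `T ⊗ 1`
  obtain ⟨T1, hT1, -⟩ := h.exists_ext (G := C)
    (LinearMap.mk₂ ℂ (fun a b => ι (T a) b) (by simp) (by simp) (by simp) (by simp)) ‖T‖
    (norm_nonneg _) (fun a b => by
      rw [LinearMap.mk₂_apply, ← mul_assoc]
      exact (h.norm_le _ _).trans (mul_le_mul_of_nonneg_right (T.le_opNorm a) (norm_nonneg _)))
  have hT1u : T1 u = 0 := by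
    obtain ⟨v, hv⟩ : ∃ v, v = Module.finBasis ℂ (LinearMap.range (T : A →ₗ[ℂ] A)) := ⟨_, rfl⟩
    obtain ⟨φ, hφ⟩ : ∃ φ : Fin (Module.finrank ℂ (LinearMap.range (T : A →ₗ[ℂ] A))) → (A →L[ℂ] ℂ),
        ∀ i x, φ i x = v.repr ⟨T x, LinearMap.mem_range_self (T : A →ₗ[ℂ] A) x⟩ i := by
      refine ⟨fun i => (LinearMap.toContinuousLinearMap (v.coord i)).comp
        (T.codRestrict (LinearMap.range (T : A →ₗ[ℂ] A))
          (fun x => LinearMap.mem_range_self (T : A →ₗ[ℂ] A) x)), fun i x => ?_⟩
      rfl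
    have hTφ : ∀ x, T x = ∑ i, φ i x • (v i : A) := by
      intro x
      have h1 := v.sum_repr ⟨T x, LinearMap.mem_range_self (T : A →ₗ[ℂ] A) x⟩
      have h2 := congrArg (Subtype.val) h1
      simp only [AddSubmonoidClass.coe_finsetSum, Submodule.coe_smul] at h2
      rw [← h2]
      exact sum_congr rfl fun i _ => by rw [hφ]
    choose S hS using fun i => h.exists_sliceA (φ i)
    obtain ⟨L, hL⟩ : ∃ L : Fin (Module.finrank ℂ (LinearMap.range (T : A →ₗ[ℂ] A))) → (B →L[ℂ] C),
        ∀ i b, L i b = ι (v i : A) b :=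
      ⟨fun i => (ι (v i : A)).mkContinuous ‖(v i : A)‖ fun b => h.norm_le _ _, fun i b => rfl⟩
    have h1 : T1 = ∑ i, (L i).comp (S i) := by
      refine h.ext _ _ fun a b => ?_
      rw [hT1, LinearMap.mk₂_apply, hTφ, map_sum, LinearMap.sum_apply,
        _root_.sum_apply]
      refine sum_congr rfl fun i _ => ?_
      rw [ContinuousLinearMap.comp_apply, hS, map_smul, map_smul, LinearMap.smul_apply, hL]
    rw [h1, _root_.sum_apply]
    refine sum_eq_zero fun i _ => ?_
    rw [ContinuousLinearMap.comp_apply, hu (φ i) (S i) (hS i), map_zero]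
  have h1 : HasSum (fun n => ι (a' n) (b' n) - ι (T (a' n)) (b' n)) (u - T1 u) := by
    refine hsum'.sub ?_
    have := T1.hasSum hsum'
    simpa only [hT1, LinearMap.mk₂_apply] using this
  rw [hT1u, sub_zero] at h1
  rw [← h1.tsum_eq, zero_add]
  have h2 : ∀ n, ‖ι (a' n) (b' n) - ι (T (a' n)) (b' n)‖ ≤
      ε / (∑' n, ‖b' n‖ + 1) * ‖b' n‖ := by
    intro n
    have h3 : ι (a' n) (b' n) - ι (T (a' n)) (b' n) = ι (a' n - T (a' n)) (b' n) := by
      rw [map_sub, LinearMap.sub_apply]
    rw [h3]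
    refine (h.norm_le _ _).trans (mul_le_mul_of_nonneg_right ?_ (norm_nonneg _))
    rw [norm_sub_rev]
    exact hT _ (Set.mem_insert_of_mem _ ⟨n, rfl⟩)
  refine (tsum_of_norm_bounded (hb's.hasSum.mul_left _) h2).trans ?_
  rw [div_mul_eq_mul_div, div_le_iff₀ (by positivity)]
  nlinarith

/-- If `A` or `B` has the approximation property, the slice maps of functionals on `A` separate the
points of the projective tensor product. -/
theorem eq_zero_of_slice' (h : IsProj ι) [CompleteSpace A] [CompleteSpace B] [CompleteSpace C]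
    (hAB : HasAP A ∨ HasAP B) (u : C)
    (hu : ∀ (φ : A →L[ℂ] ℂ) (S : C →L[ℂ] B), (∀ a b, S (ι a b) = φ a • b) → S u = 0) : u = 0 := by
  rcases hAB with hA | hB
  · exact h.eq_zero_of_slice hA u hu
  · refine h.flip.eq_zero_of_slice hB u fun ψ R hR => ?_
    simp only [LinearMap.flip_apply] at hR
    by_contra hne
    obtain ⟨φ, -, hφ⟩ := exists_dual_vector ℂ (R u) (norm_ne_zero_iff.2 hne)
    obtain ⟨S, hS⟩ := h.exists_sliceA φ
    have h1 : φ.comp R = ψ.comp S := by
      refine h.ext _ _ fun a b => ?_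
      rw [ContinuousLinearMap.comp_apply, ContinuousLinearMap.comp_apply, hR, hS, map_smul,
        map_smul, smul_eq_mul, smul_eq_mul, mul_comm]
    have h2 := congrArg (fun f => f u) h1
    simp only [ContinuousLinearMap.comp_apply] at h2
    rw [hu φ S hS, map_zero, hφ] at h2
    exact hne (norm_eq_zero.1 (by simpa using h2))

end IsProj

end inj

section main

variable {A B C : Type*} [NonUnitalCStarAlgebra A]
  [NonUnitalNormedRing B] [NormedSpace ℂ B] [IsScalarTower ℂ B B] [SMulCommClass ℂ B B]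
  [CompleteSpace B]
  [NonUnitalNormedRing C] [NormedSpace ℂ C] [IsScalarTower ℂ C C] [SMulCommClass ℂ C C]
  [CompleteSpace C] {ι : A →ₗ[ℂ] B →ₗ[ℂ] C}

/-- The projective tensor product of a C*-algebra with a semisimple Banach algebra is semisimple if
one of the two has the approximation property. -/
theorem semisimple_of_hasAP (h : IsProj ι) (hAB : HasAP A ∨ HasAP B) (hB : Semisimple B) :
    Semisimple C := by
  intro u hu
  refine h.eq_zero_of_slice' hAB u fun φ S hS => ?_
  exact hB _ (slice_rad h u hu φ S hS)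

end main

end Pool.Agent.Helper60.PT
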