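import Mathlib.LinearAlgebra.TensorProduct.Basic
import Mathlib.Analysis.Complex.Basic
import Mathlib.Algebra.Algebra.Unitization
import Mathlib.RingTheory.Jacobson.Ideal
import Mathlib.LinearAlgebra.FiniteDimensional.Defs

/-!
# Definitions: projective tensor products, radicals, the approximation property

`IsProj ι` says that the Banach algebra `C`, with the bilinear map `ι : A × B → C`, is the projective
tensor product of the Banach algebras `A` and `B`: the completion of the algebraic tensor product in
the projective norm, with the multiplication `(a ⊗ b) (a' ⊗ b') = a a' ⊗ b b'`.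
-/

namespace Pool.Agent.Helper60.PT

open scoped TensorProduct
open Finset

/-- The projective norm of an element of the algebraic tensor product. -/
noncomputable def projNorm {E F : Type*} [NormedAddCommGroup E] [NormedSpace ℂ E]
    [NormedAddCommGroup F] [NormedSpace ℂ F] (t : E ⊗[ℂ] F) : ℝ :=
  sInf {r : ℝ | ∃ (n : ℕ) (a : ℕ → E) (b : ℕ → F),
    t = ∑ i ∈ range n, a i ⊗ₜ[ℂ] b i ∧ r = ∑ i ∈ range n, ‖a i‖ * ‖b i‖}

/-- `C`, with the bilinear map `ι`, is the projective tensor product of `A` and `B` (for complete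
`C`). -/
structure IsProj {A B C : Type*} [NonUnitalNormedRing A] [NormedSpace ℂ A]
    [NonUnitalNormedRing B] [NormedSpace ℂ B] [NonUnitalNormedRing C] [NormedSpace ℂ C]
    (ι : A →ₗ[ℂ] B →ₗ[ℂ] C) : Prop where
  mul : ∀ a b a' b', ι a b * ι a' b' = ι (a * a') (b * b')
  norm : ∀ t : A ⊗[ℂ] B, ‖TensorProduct.lift ι t‖ = projNorm t
  dense : DenseRange (TensorProduct.lift ι)

section rad

variable {A : Type*} [NonUnitalNormedRing A] [NormedSpace ℂ A] [IsScalarTower ℂ A A]
  [SMulCommClass ℂ A A]

/-- `a` is in the Jacobson radical (computed in the unitization). -/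
def InRad (a : A) : Prop := (a : Unitization ℂ A) ∈ Ring.jacobson (Unitization ℂ A)

/-- A Banach algebra is semisimple if its Jacobson radical is zero. -/
def Semisimple (A : Type*) [NonUnitalNormedRing A] [NormedSpace ℂ A] [IsScalarTower ℂ A A]
    [SMulCommClass ℂ A A] : Prop := ∀ a : A, InRad a → a = 0

end rad

/-- The approximation property of Grothendieck. -/
def HasAP (E : Type*) [NormedAddCommGroup E] [NormedSpace ℂ E] : Prop :=
  ∀ K : Set E, IsCompact K → ∀ ε : ℝ, 0 < ε → ∃ T : E →L[ℂ] E,
    FiniteDimensional ℂ (LinearMap.range (T : E →ₗ[ℂ] E)) ∧ ∀ x ∈ K, ‖T x - x‖ ≤ ε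

end Pool.Agent.Helper60.PT
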