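import Mathlib.Analysis.CStarAlgebra.ContinuousFunctionalCalculus.Order
import Mathlib.Analysis.CStarAlgebra.ContinuousFunctionalCalculus.Instances
import Mathlib.LinearAlgebra.Complex.Module

/-!
# Excision in C*-algebras

For finitely many elements `x` of a C*-algebra there are positive elements `e` of norm one such that
all `e x e` are close to multiples of `e e`.
-/

namespace Pool.Agent.Helper60.PT

open scoped NNReal

variable {A : Type*} [NonUnitalCStarAlgebra A]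

section order

variable [PartialOrder A] [StarOrderedRing A]

theorem bump (a : A) (ha : IsSelfAdjoint a) (l : ℝ) (hl : l ∈ quasispectrum ℝ a) (δ : ℝ)
    (hδ : 0 < δ) (hδl : δ < |l|) :
    ∃ e : A, 0 ≤ e ∧ ‖e‖ = 1 ∧ ‖e * a * e - l • (e * e)‖ ≤ δ ∧
      (l - δ) • (e * e) ≤ e * a * e := by
  let h : ℝ → ℝ := fun t => max 0 (1 - |t - l| / δ)
  have hcont : Continuous h := by fun_prop
  have h0 : h 0 = 0 := by
    have : 1 < |0 - l| / δ := by
      rw [lt_div_iff₀ hδ, one_mul]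
      simpa using hδl
    simp only [h]
    exact max_eq_left (by linarith)
  have hh0 : ∀ t, 0 ≤ h t := fun t => le_max_left _ _
  have hh1 : ∀ t, h t ≤ 1 := by
    intro t
    have : 0 ≤ |t - l| / δ := by positivity
    exact max_le zero_le_one (by linarith)
  have hout : ∀ t, δ ≤ |t - l| → h t = 0 := by
    intro t ht
    have : 1 ≤ |t - l| / δ := by rwa [one_le_div hδ]
    exact max_eq_left (by linarith)
  have hhl : h l = 1 := by simp [h]
  have e1 : cfcₙ h a * a * cfcₙ h a = cfcₙ (fun t => h t * t * h t) a := by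
    rw [cfcₙ_mul (fun t => h t * t) h a, cfcₙ_mul h (fun t => t) a, cfcₙ_id' ℝ a]
  have e2 : cfcₙ h a * cfcₙ h a = cfcₙ (fun t => h t * h t) a := by
    rw [cfcₙ_mul h h a]
  refine ⟨cfcₙ h a, cfcₙ_nonneg fun t _ => hh0 t, ?_, ?_, ?_⟩
  · apply le_antisymm
    · refine norm_cfcₙ_le fun t _ => ?_
      rw [Real.norm_of_nonneg (hh0 t)]
      exact hh1 t
    · have := norm_apply_le_norm_cfcₙ h a hl
      rwa [hhl, norm_one] at this
  · rw [e1, e2, ← cfcₙ_smul l (fun t => h t * h t) a, ← cfcₙ_sub (fun t => h t * t * h t) (fun t => l • (h t * h t)) a]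
    refine norm_cfcₙ_le fun t _ => ?_
    rcases le_or_gt δ |t - l| with h1 | h1
    · simp [hout t h1, hδ.le]
    · have : h t * t * h t - l • (h t * h t) = h t * h t * (t - l) := by
        simp only [smul_eq_mul]
        ring
      rw [this, norm_mul, Real.norm_of_nonneg (mul_nonneg (hh0 t) (hh0 t)), Real.norm_eq_abs]
      have h2 : h t * h t ≤ 1 := mul_le_one₀ (hh1 t) (hh0 t) (hh1 t)
      calc h t * h t * |t - l| ≤ 1 * δ :=
            mul_le_mul h2 h1.le (abs_nonneg _) zero_le_one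
        _ = δ := one_mul δ
  · rw [← sub_nonneg, e1, e2, ← cfcₙ_smul (l - δ) (fun t => h t * h t) a,
      ← cfcₙ_sub (fun t => h t * t * h t) (fun t => (l - δ) • (h t * h t)) a]
    refine cfcₙ_nonneg fun t _ => ?_
    rcases le_or_gt δ |t - l| with h1 | h1
    · simp [hout t h1]
    · have : h t * t * h t - (l - δ) • (h t * h t) = h t * h t * (t - l + δ) := by
        simp only [smul_eq_mul]
        ring
      rw [this]
      have h2 := (abs_lt.1 h1).1
      exact mul_nonneg (mul_nonneg (hh0 t) (hh0 t)) (by linarith)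

theorem sq_le_self (s : A) (hs : 0 ≤ s) (hs1 : ‖s‖ ≤ 1) : s * s ≤ s := by
  have hsa : IsSelfAdjoint s := .of_nonneg hs
  have h1 : s * s = cfcₙ (fun t : ℝ => t * t) s := by
    rw [cfcₙ_mul (fun t : ℝ => t) (fun t => t) s (hf0 := rfl) (hg0 := rfl), cfcₙ_id' ℝ s]
  have h2 : s = cfcₙ (fun t : ℝ => t) s := (cfcₙ_id' ℝ s).symm
  rw [h1]
  conv_rhs => rw [h2]
  refine cfcₙ_mono (f := fun t : ℝ => t * t) (g := fun t : ℝ => t) (fun t ht => ?_)
    (hf0 := mul_zero 0) (hg0 := rfl)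
  have h3 : 0 ≤ t := quasispectrum_nonneg_of_nonneg s hs t ht
  have h4 : ‖t‖ ≤ ‖s‖ :=
    NonUnitalIsometricContinuousFunctionalCalculus.norm_quasispectrum_le s ht hsa
  rw [Real.norm_of_nonneg h3] at h4
  nlinarith

omit [PartialOrder A] [StarOrderedRing A] in
theorem norm_sq {s : A} (hs : IsSelfAdjoint s) : ‖s * s‖ = ‖s‖ * ‖s‖ := by
  have := CStarRing.norm_star_mul_self (x := s)
  rwa [hs.star_eq] at this

theorem sq_nonneg' {s : A} (hs : IsSelfAdjoint s) : 0 ≤ s * s := by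
  have := star_mul_self_nonneg s
  rwa [hs.star_eq] at this

/-- `e, e e, (e e) (e e), …` -/
def sqs (e : A) : ℕ → A
  | 0 => e
  | k + 1 => sqs e k * sqs e k

theorem sqs_prop (e : A) (he : 0 ≤ e) (he1 : ‖e‖ = 1) (k : ℕ) :
    0 ≤ sqs e k ∧ ‖sqs e k‖ = 1 ∧ sqs e k ≤ e := by
  induction k with
  | zero => exact ⟨he, he1, le_rfl⟩
  | succ k ih =>
    obtain ⟨h1, h2, h3⟩ := ih
    have hsa : IsSelfAdjoint (sqs e k) := .of_nonneg h1
    refine ⟨sq_nonneg' hsa, ?_, (sq_le_self _ h1 h2.le).trans h3⟩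
    show ‖sqs e k * sqs e k‖ = 1
    rw [norm_sq hsa, h2, one_mul]

theorem pigeon (q : ℕ → ℝ) (hq : ∀ k, 0 ≤ q k) (η : ℝ) (hη : 0 < η) :
    ∃ k, q k - q (k + 1) ≤ η := by
  by_contra! h
  have h1 : ∀ k : ℕ, q k ≤ q 0 - k * η := by
    intro k
    induction k with
    | zero => simp
    | succ k ih =>
      have := h k
      push_cast
      linarith
  obtain ⟨n, hn⟩ := exists_nat_gt (q 0 / η)
  have h2 := h1 n
  rw [div_lt_iff₀ hη] at hn
  have := hq n
  linarith

theorem norm_sub_mul_le (e' s t : A) (he' : 0 ≤ e') (ht : 0 ≤ t)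
    (htt : t * t ≤ t) (hst : s ≤ t) (κ : ℝ) (hκ : 0 ≤ κ)
    (h : ‖e' * e' - e' * s * e'‖ ≤ κ * κ) : ‖e' - t * e'‖ ≤ κ := by
  have hea : IsSelfAdjoint e' := .of_nonneg he'
  have hta : IsSelfAdjoint t := .of_nonneg ht
  have h1 : star (e' - t * e') * (e' - t * e') =
      e' * e' - e' * t * e' - (e' * t * e' - e' * (t * t) * e') := by
    rw [star_sub, star_mul, hea.star_eq, hta.star_eq]
    noncomm_ring
  have h2 : e' * (t * t) * e' ≤ e' * t * e' := by
    have := star_left_conjugate_le_conjugate htt e'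
    rwa [hea.star_eq] at this
  have h3 : e' * s * e' ≤ e' * t * e' := by
    have := star_left_conjugate_le_conjugate hst e'
    rwa [hea.star_eq] at this
  have h4 : star (e' - t * e') * (e' - t * e') ≤ e' * e' - e' * s * e' := by
    rw [h1]
    calc e' * e' - e' * t * e' - (e' * t * e' - e' * (t * t) * e') ≤ e' * e' - e' * t * e' :=
          sub_le_self _ (sub_nonneg.2 h2)
      _ ≤ _ := sub_le_sub_left h3 _
  have h5 := CStarAlgebra.norm_le_norm_of_nonneg_of_le (star_mul_self_nonneg _) h4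
  rw [CStarRing.norm_star_mul_self] at h5
  exact abs_le_of_sq_le_sq' (by nlinarith) hκ |>.2

theorem gap (e x : A) (he : 0 ≤ e) (he1 : ‖e‖ = 1) (hx : IsSelfAdjoint x) (ε : ℝ) (hε : 0 < ε) :
    ∃ (e' : A) (α : ℝ), 0 ≤ e' ∧ ‖e'‖ = 1 ∧ ‖e' - e * e'‖ ≤ ε ∧
      ‖e' * x * e' - α • (e' * e')‖ ≤ ε := by
  obtain ⟨κ, hκ0, hκ1, hκε, hκ2⟩ : ∃ κ : ℝ, 0 < κ ∧ κ < 1 ∧ κ ≤ ε ∧
      2 * κ * (2 * ‖x‖ + 1) + κ * κ / 2 ≤ ε := by
    refine ⟨min (1 / 2) (ε / (4 * ‖x‖ + 3)), ?_, ?_, ?_, ?_⟩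
    · have : 0 < ε / (4 * ‖x‖ + 3) := by positivity
      exact lt_min (by norm_num) this
    · exact (min_le_left _ _).trans_lt (by norm_num)
    · refine (min_le_right _ _).trans ?_
      rw [div_le_iff₀ (by positivity)]
      nlinarith [norm_nonneg x]
    · have h1 : min (1 / 2) (ε / (4 * ‖x‖ + 3)) ≤ 1 / 2 := min_le_left _ _
      have h2 : min (1 / 2) (ε / (4 * ‖x‖ + 3)) ≤ ε / (4 * ‖x‖ + 3) := min_le_right _ _
      have h3 : 0 < min (1 / 2) (ε / (4 * ‖x‖ + 3)) := by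
        have : 0 < ε / (4 * ‖x‖ + 3) := by positivity
        exact lt_min (by norm_num) this
      generalize min (1 / 2) (ε / (4 * ‖x‖ + 3)) = κ at *
      rw [le_div_iff₀ (by positivity)] at h2
      nlinarith [norm_nonneg x]
  obtain ⟨M, hM⟩ : ∃ M : ℝ, M = ‖x‖ + 1 := ⟨_, rfl⟩
  obtain ⟨s, hs⟩ : ∃ s : ℕ → A, s = sqs e := ⟨_, rfl⟩
  have hsp := sqs_prop e he he1
  rw [← hs] at hsp
  have hsucc : ∀ k, s (k + 1) = s k * s k := fun k => by rw [hs]; rfl
  have hsa : ∀ k, IsSelfAdjoint (s k) := fun k => .of_nonneg (hsp k).1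
  obtain ⟨z, hz⟩ : ∃ z : ℕ → A, ∀ k, z k = s k * x * s k + M • (s k * s k) :=
    ⟨fun k => s k * x * s k + M • (s k * s k), fun k => rfl⟩
  have hzge : ∀ k, s k * s k ≤ z k := by
    intro k
    have h1 := CStarAlgebra.star_left_conjugate_le_norm_smul (a := s k) (b := -x) hx.neg
    rw [(hsa k).star_eq, norm_neg] at h1
    rw [hz, hM, add_smul, one_smul, ← add_assoc]
    refine le_add_of_nonneg_left ?_
    have h2 : s k * -x * s k = -(s k * x * s k) := by noncomm_ring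
    rw [h2, neg_le_iff_add_nonneg] at h1
    rwa [add_comm] at h1
  have hz0 : ∀ k, 0 ≤ z k := fun k => (sq_nonneg' (hsa k)).trans (hzge k)
  have hz1 : ∀ k, 1 ≤ ‖z k‖ := by
    intro k
    have h1 := CStarAlgebra.norm_le_norm_of_nonneg_of_le (sq_nonneg' (hsa k)) (hzge k)
    rwa [norm_sq (hsa k), (hsp k).2.1, one_mul] at h1
  have hzs : ∀ k, z (k + 1) = s k * z k * s k := by
    intro k
    rw [hz, hz, hsucc]
    simp only [mul_add, add_mul, mul_assoc, mul_smul_comm, smul_mul_assoc]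
  obtain ⟨k, hk⟩ := pigeon (fun k => ‖z k‖) (fun k => norm_nonneg _) (κ * κ / 2) (by positivity)
  replace hk : ‖z k‖ - ‖z (k + 1)‖ ≤ κ * κ / 2 := hk
  obtain ⟨q, hq⟩ : ∃ q : ℝ, q = ‖z (k + 1)‖ := ⟨_, rfl⟩
  have hq1 : 1 ≤ q := hq ▸ hz1 (k + 1)
  have hqmem : q ∈ quasispectrum ℝ (z (k + 1)) := by
    obtain ⟨⟨l, hl, hl2⟩, -⟩ :=
      NonUnitalIsometricContinuousFunctionalCalculus.isGreatest_norm_quasispectrum (𝕜 := ℝ)
      (z (k + 1))
      (IsSelfAdjoint.of_nonneg (hz0 (k + 1)))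
    have h3 : 0 ≤ l := quasispectrum_nonneg_of_nonneg _ (hz0 (k + 1)) l hl
    simp only [Real.norm_of_nonneg h3] at hl2
    rwa [hq, ← hl2]
  obtain ⟨e', he', he'1, h1, h2⟩ := bump (z (k + 1)) (.of_nonneg (hz0 (k + 1))) q hqmem
    (κ * κ / 2) (by positivity) (by rw [abs_of_pos (by linarith)]; nlinarith)
  have hea : IsSelfAdjoint e' := .of_nonneg he'
  have hee := sq_nonneg' hea
  have hee1 : ‖e' * e'‖ = 1 := by rw [norm_sq hea, he'1, one_mul]
  -- the main estimate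
  have h3 : e' * z (k + 1) * e' ≤ ‖z k‖ • (e' * s (k + 1) * e') := by
    have h4 := CStarAlgebra.star_left_conjugate_le_norm_smul (a := s k * e') (b := z k)
      (.of_nonneg (hz0 k))
    rw [star_mul, hea.star_eq, (hsa k).star_eq] at h4
    have h5 : e' * s k * z k * (s k * e') = e' * z (k + 1) * e' := by
      rw [hzs]
      simp only [mul_assoc]
    have h6 : e' * s k * (s k * e') = e' * s (k + 1) * e' := by
      rw [hsucc]
      simp only [mul_assoc]
    rwa [h5, h6] at h4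
  have h4 : e' * s (k + 1) * e' ≤ e' * e' := by
    have h5 := CStarAlgebra.star_left_conjugate_le_norm_smul (a := e') (b := s (k + 1))
      (hsa (k + 1))
    rwa [hea.star_eq, (hsp (k + 1)).2.1, one_smul] at h5
  have h5 : e' * e' - e' * s (k + 1) * e' ≤ (κ * κ) • (e' * e') := by
    have h6 : (1 : ℝ) • (e' * e' - e' * s (k + 1) * e') ≤
        ‖z k‖ • (e' * e' - e' * s (k + 1) * e') :=
      smul_le_smul_of_nonneg_right (hz1 k) (sub_nonneg.2 h4)
    rw [one_smul] at h6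
    refine h6.trans ?_
    rw [smul_sub]
    have h7 : ‖z k‖ • (e' * e') - ‖z k‖ • (e' * s (k + 1) * e') ≤
        ‖z k‖ • (e' * e') - (q - κ * κ / 2) • (e' * e') := sub_le_sub_left (h2.trans h3) _
    refine h7.trans ?_
    rw [← sub_smul]
    refine smul_le_smul_of_nonneg_right ?_ hee
    rw [hq]
    linarith
  have h6 : ‖e' * e' - e' * s (k + 1) * e'‖ ≤ κ * κ := by
    have h7 := CStarAlgebra.norm_le_norm_of_nonneg_of_le (sub_nonneg.2 h4) h5
    rwa [norm_smul, hee1, mul_one, Real.norm_of_nonneg (by positivity)] at h7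
  have h7 : ‖e' - e * e'‖ ≤ κ :=
    norm_sub_mul_le e' (s (k + 1)) e he' he (sq_le_self e he he1.le)
      (hsp (k + 1)).2.2 κ hκ0.le h6
  have h8 : ‖e' - s (k + 1) * e'‖ ≤ κ :=
    norm_sub_mul_le e' (s (k + 1)) (s (k + 1)) he' (hsp (k + 1)).1
      (sq_le_self _ (hsp (k + 1)).1 (hsp (k + 1)).2.1.le) le_rfl κ hκ0.le h6
  refine ⟨e', q - M, he', he'1, h7.trans hκε, ?_⟩
  obtain ⟨f, hf⟩ : ∃ f, f = s (k + 1) * e' := ⟨_, rfl⟩
  have hsf : star f = e' * s (k + 1) := by rw [hf, star_mul, hea.star_eq, (hsa (k + 1)).star_eq]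
  rw [← hf] at h8
  have hf1 : ‖f‖ ≤ 1 := by
    rw [hf]
    refine (norm_mul_le _ _).trans ?_
    rw [(hsp (k + 1)).2.1, he'1, one_mul]
  have h8' : ‖e' - star f‖ ≤ κ := by
    have : star (e' - f) = e' - star f := by rw [star_sub, hea.star_eq]
    rw [← this, norm_star]
    exact h8
  have h9 : e' * z (k + 1) * e' = star f * x * f + M • (star f * f) := by
    rw [hz, hsf, hf]
    simp only [mul_add, add_mul, mul_assoc, mul_smul_comm, smul_mul_assoc]
  have h10 : e' * x * e' - (q - M) • (e' * e') =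
      ((e' - star f) * x * e' + star f * x * (e' - f)) +
      M • ((e' - star f) * e' + star f * (e' - f)) +
      (e' * z (k + 1) * e' - q • (e' * e')) := by
    rw [h9, sub_smul]
    simp only [smul_add, smul_sub, mul_sub, sub_mul]
    abel
  rw [h10]
  have hstar : ‖star f‖ ≤ 1 := by rwa [norm_star]
  have a1 : ‖(e' - star f) * x * e'‖ ≤ κ * ‖x‖ * 1 := by
    refine (norm_mul_le _ _).trans (mul_le_mul ((norm_mul_le _ _).trans
      (mul_le_mul_of_nonneg_right h8' (norm_nonneg _))) he'1.le (norm_nonneg _) (by positivity))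
  have a2 : ‖star f * x * (e' - f)‖ ≤ 1 * ‖x‖ * κ := by
    refine (norm_mul_le _ _).trans (mul_le_mul ((norm_mul_le _ _).trans
      (mul_le_mul_of_nonneg_right hstar (norm_nonneg _))) h8 (norm_nonneg _) (by positivity))
  have a3 : ‖(e' - star f) * e'‖ ≤ κ * 1 :=
    (norm_mul_le _ _).trans (mul_le_mul h8' he'1.le (norm_nonneg _) hκ0.le)
  have a4 : ‖star f * (e' - f)‖ ≤ 1 * κ :=
    (norm_mul_le _ _).trans (mul_le_mul hstar h8 (norm_nonneg _) zero_le_one)
  have hM0 : 0 ≤ M := by rw [hM]; positivity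
  calc _ ≤ (κ * ‖x‖ * 1 + 1 * ‖x‖ * κ) + M * (κ * 1 + 1 * κ) + κ * κ / 2 := by
        refine (norm_add_le _ _).trans (add_le_add ((norm_add_le _ _).trans
          (add_le_add ((norm_add_le _ _).trans (add_le_add a1 a2)) ?_)) h1)
        rw [norm_smul, Real.norm_of_nonneg hM0]
        exact mul_le_mul_of_nonneg_left ((norm_add_le _ _).trans (add_le_add a3 a4)) hM0
    _ = 2 * κ * (2 * ‖x‖ + 1) + κ * κ / 2 := by rw [hM]; ring
    _ ≤ ε := hκ2

omit [PartialOrder A] [StarOrderedRing A] in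
theorem stab (e e' x : A) (α δ η : ℝ) (he : IsSelfAdjoint e) (he' : IsSelfAdjoint e')
    (he1 : ‖e‖ = 1) (he'1 : ‖e'‖ = 1) (hδ : 0 ≤ δ) (h : ‖e' - e * e'‖ ≤ δ)
    (hη : ‖e * x * e - α • (e * e)‖ ≤ η) :
    ‖e' * x * e' - α • (e' * e')‖ ≤ η + 2 * δ * (‖x‖ + |α|) := by
  have h' : ‖e' - e' * e‖ ≤ δ := by
    have : star (e' - e * e') = e' - e' * e := by
      rw [star_sub, star_mul, he.star_eq, he'.star_eq]
    rw [← this, norm_star]
    exact h
  have h10 : e' * x * e' - α • (e' * e') =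
      ((e' - e' * e) * x * e' + (e' * e) * x * (e' - e * e')) -
      α • ((e' - e' * e) * e' + (e' * e) * (e' - e * e')) +
      e' * (e * x * e - α • (e * e)) * e' := by
    simp only [smul_add, smul_sub, mul_sub, sub_mul, mul_assoc, mul_smul_comm, smul_mul_assoc]
    abel
  have hee : ‖e' * e‖ ≤ 1 := by
    refine (norm_mul_le _ _).trans ?_
    rw [he1, he'1, one_mul]
  have a1 : ‖(e' - e' * e) * x * e'‖ ≤ δ * ‖x‖ * 1 := by
    refine (norm_mul_le _ _).trans (mul_le_mul ((norm_mul_le _ _).trans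
      (mul_le_mul_of_nonneg_right h' (norm_nonneg _))) he'1.le (norm_nonneg _) (by positivity))
  have a2 : ‖(e' * e) * x * (e' - e * e')‖ ≤ 1 * ‖x‖ * δ := by
    refine (norm_mul_le _ _).trans (mul_le_mul ((norm_mul_le _ _).trans
      (mul_le_mul_of_nonneg_right hee (norm_nonneg _))) h (norm_nonneg _) (by positivity))
  have a3 : ‖(e' - e' * e) * e'‖ ≤ δ * 1 :=
    (norm_mul_le _ _).trans (mul_le_mul h' he'1.le (norm_nonneg _) hδ)
  have a4 : ‖(e' * e) * (e' - e * e')‖ ≤ 1 * δ :=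
    (norm_mul_le _ _).trans (mul_le_mul hee h (norm_nonneg _) zero_le_one)
  have a5 : ‖e' * (e * x * e - α • (e * e)) * e'‖ ≤ η := by
    refine (norm_mul_le _ _).trans ?_
    rw [he'1, mul_one]
    refine (norm_mul_le _ _).trans ?_
    rw [he'1, one_mul]
    exact hη
  rw [h10]
  calc _ ≤ (δ * ‖x‖ * 1 + 1 * ‖x‖ * δ) + |α| * (δ * 1 + 1 * δ) + η := by
        refine (norm_add_le _ _).trans (add_le_add ((norm_sub_le _ _).trans
          (add_le_add ((norm_add_le _ _).trans (add_le_add a1 a2)) ?_)) a5)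
        rw [norm_smul, Real.norm_eq_abs]
        exact mul_le_mul_of_nonneg_left ((norm_add_le _ _).trans (add_le_add a3 a4))
          (abs_nonneg _)
    _ = _ := by ring

omit [PartialOrder A] [StarOrderedRing A] in
theorem alpha_le (e x : A) (α η : ℝ) (he : IsSelfAdjoint e) (he1 : ‖e‖ = 1)
    (h : ‖e * x * e - α • (e * e)‖ ≤ η) : |α| ≤ ‖x‖ + η := by
  have h1 : ‖α • (e * e)‖ = |α| := by
    rw [norm_smul, norm_sq he, he1, Real.norm_eq_abs, one_mul, mul_one]
  have h2 : ‖e * x * e‖ ≤ ‖x‖ := by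
    refine (norm_mul_le _ _).trans ?_
    rw [he1, mul_one]
    refine (norm_mul_le _ _).trans ?_
    rw [he1, one_mul]
  have h3 : α • (e * e) = e * x * e - (e * x * e - α • (e * e)) := by abel
  rw [← h1, h3]
  exact (norm_sub_le _ _).trans (add_le_add h2 h)

theorem exc_list (y : A) (hy : IsSelfAdjoint y) (hy0 : y ≠ 0) :
    ∃ l : ℝ, l ≠ 0 ∧ ∀ (L : List A), (∀ x ∈ L, IsSelfAdjoint x) → ∀ ε : ℝ, 0 < ε →
      ∃ e : A, 0 ≤ e ∧ ‖e‖ = 1 ∧ ‖e * y * e - l • (e * e)‖ ≤ ε ∧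
        ∀ x ∈ L, ∃ α : ℝ, ‖e * x * e - α • (e * e)‖ ≤ ε := by
  obtain ⟨⟨l, hl, hl2⟩, -⟩ :=
    NonUnitalIsometricContinuousFunctionalCalculus.isGreatest_norm_quasispectrum (𝕜 := ℝ) y hy
  have hl3 : |l| = ‖y‖ := hl2
  have hl0 : l ≠ 0 := by
    intro h
    rw [h, abs_zero] at hl3
    exact hy0 (norm_eq_zero.1 hl3.symm)
  refine ⟨l, hl0, fun L => ?_⟩
  induction L with
  | nil =>
    intro _ ε hε
    have hlp : 0 < |l| := abs_pos.2 hl0
    obtain ⟨e, h1, h2, h3, -⟩ := bump y hy l hl (min ε (|l| / 2))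
      (lt_min hε (by positivity)) ((min_le_right _ _).trans_lt (by linarith))
    exact ⟨e, h1, h2, h3.trans (min_le_left _ _), by simp⟩
  | cons x L ih =>
    intro hL ε hε
    obtain ⟨e, h1, h2, h3, h4⟩ := ih (fun z hz => hL z (List.mem_cons_of_mem _ hz)) (ε / 2)
      (half_pos hε)
    have hx : IsSelfAdjoint x := hL x List.mem_cons_self
    obtain ⟨R, hR0, hR1, hR2⟩ : ∃ R : ℝ, 0 < R ∧ ‖y‖ + |l| ≤ R ∧ ∀ z ∈ L, 2 * ‖z‖ + ε ≤ R := by
      refine ⟨‖y‖ + |l| + 2 * (L.map fun z => ‖z‖).sum + ε, ?_, ?_, ?_⟩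
      · have : 0 ≤ (L.map fun z => ‖z‖).sum := List.sum_nonneg (by simp)
        positivity
      · have : 0 ≤ (L.map fun z => ‖z‖).sum := List.sum_nonneg (by simp)
        linarith
      · intro z hz
        have h5 : ‖z‖ ≤ (L.map fun z => ‖z‖).sum :=
          List.single_le_sum (by simp) _ (List.mem_map_of_mem hz)
        have := norm_nonneg y
        have := abs_nonneg l
        linarith
    obtain ⟨e', α, h5, h6, h7, h8⟩ := gap e x h1 h2 hx (min ε (ε / (4 * R)))
      (lt_min hε (by positivity))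
    have h9 : min ε (ε / (4 * R)) ≤ ε / (4 * R) := min_le_right _ _
    have h10 : 0 < min ε (ε / (4 * R)) := lt_min hε (by positivity)
    have h11 := min_le_left ε (ε / (4 * R))
    generalize min ε (ε / (4 * R)) = δ at *
    have h12 : 2 * δ * R ≤ ε / 2 := by
      rw [le_div_iff₀ (by positivity)] at h9
      linarith
    have hes : IsSelfAdjoint e := .of_nonneg h1
    have hes' : IsSelfAdjoint e' := .of_nonneg h5
    refine ⟨e', h5, h6, ?_, ?_⟩
    · refine (stab e e' y l δ (ε / 2) hes hes' h2 h6 h10.le h7 h3).trans ?_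
      have : 2 * δ * (‖y‖ + |l|) ≤ 2 * δ * R := mul_le_mul_of_nonneg_left hR1 (by positivity)
      linarith
    · intro z hz
      rcases List.mem_cons.1 hz with rfl | hz'
      · exact ⟨α, h8.trans h11⟩
      · obtain ⟨β, hβ⟩ := h4 z hz'
        refine ⟨β, (stab e e' z β δ (ε / 2) hes hes' h2 h6 h10.le h7 hβ).trans ?_⟩
        have h13 := alpha_le e z β (ε / 2) hes h2 hβ
        have h14 := hR2 z hz'
        have : 2 * δ * (‖z‖ + |β|) ≤ 2 * δ * R :=
          mul_le_mul_of_nonneg_left (by linarith) (by positivity)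
        linarith

end order

/-- Excision for finitely many elements. -/
theorem exc (y : A) (hy : (realPart y : A) ≠ 0) :
    ∃ c : ℝ, 0 < c ∧ ∀ (n : ℕ) (x : ℕ → A) (ε : ℝ), 0 < ε →
      ∃ e : A, IsSelfAdjoint e ∧ ‖e‖ = 1 ∧
        (∃ α : ℂ, c ≤ ‖α‖ ∧ ‖e * y * e - α • (e * e)‖ ≤ ε) ∧
        ∀ j < n, ∃ α : ℂ, ‖e * x j * e - α • (e * e)‖ ≤ ε := by
  letI := CStarAlgebra.spectralOrder A
  haveI := CStarAlgebra.spectralOrderedRing A
  obtain ⟨l, hl, H⟩ := exc_list (realPart y : A) (realPart y).2 hy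
  have key : ∀ (e z : A) (α β ε : ℝ), ‖e * (realPart z : A) * e - α • (e * e)‖ ≤ ε / 2 →
      ‖e * (imaginaryPart z : A) * e - β • (e * e)‖ ≤ ε / 2 →
      ‖e * z * e - ((α : ℂ) + Complex.I * β) • (e * e)‖ ≤ ε := by
    intro e z α β ε h1 h2
    have h3 : e * z * e - ((α : ℂ) + Complex.I * β) • (e * e) =
        (e * (realPart z : A) * e - α • (e * e)) +
        Complex.I • (e * (imaginaryPart z : A) * e - β • (e * e)) := by
      conv_lhs => rw [← realPart_add_I_smul_imaginaryPart z]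
      rw [add_smul, mul_smul, mul_add, add_mul, smul_sub, mul_smul_comm, smul_mul_assoc]
      simp only [Complex.coe_smul]
      abel
    rw [h3]
    refine (norm_add_le _ _).trans ?_
    rw [norm_smul, Complex.norm_I, one_mul]
    linarith
  refine ⟨|l|, abs_pos.2 hl, fun n x ε hε => ?_⟩
  obtain ⟨e, h1, h2, h3, h4⟩ := H ((imaginaryPart y : A) ::
    ((List.range n).map (fun j => (realPart (x j) : A)) ++
      (List.range n).map (fun j => (imaginaryPart (x j) : A)))) (by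
      intro z hz
      simp only [List.mem_cons, List.mem_append, List.mem_map] at hz
      rcases hz with rfl | ⟨j, -, rfl⟩ | ⟨j, -, rfl⟩
      · exact (imaginaryPart y).2
      · exact (realPart (x j)).2
      · exact (imaginaryPart (x j)).2) (ε / 2) (half_pos hε)
  refine ⟨e, .of_nonneg h1, h2, ?_, ?_⟩
  · obtain ⟨β, hβ⟩ := h4 (imaginaryPart y : A) List.mem_cons_self
    refine ⟨(l : ℂ) + Complex.I * β, ?_, key e y l β ε h3 hβ⟩
    have h5 : ((l : ℂ) + Complex.I * β).re = l := by simp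
    have := Complex.abs_re_le_norm ((l : ℂ) + Complex.I * β)
    rwa [h5] at this
  · intro j hj
    obtain ⟨α, hα⟩ := h4 (realPart (x j) : A) (by
      simp only [List.mem_cons, List.mem_append, List.mem_map]
      exact .inr (.inl ⟨j, List.mem_range.2 hj, rfl⟩))
    obtain ⟨β, hβ⟩ := h4 (imaginaryPart (x j) : A) (by
      simp only [List.mem_cons, List.mem_append, List.mem_map]
      exact .inr (.inr ⟨j, List.mem_range.2 hj, rfl⟩))
    exact ⟨_, key e (x j) α β ε hα hβ⟩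

end Pool.Agent.Helper60.PT
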